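import Mathlib

/-! Definitions: Hamiltonian systems on (almost) symplectic manifolds, pieces of level sets of
contact type, periodic orbits, products. -/

open scoped Topology ContDiff Manifold
open Set

noncomputable section

namespace Pool.Agent.J4.H27.Wn

section

variable {E : Type*} [NormedAddCommGroup E] [NormedSpace ℝ E]
  {K : Type*} [TopologicalSpace K] (I : ModelWithCorners ℝ E K)
  {M : Type*} [TopologicalSpace M] [ChartedSpace K M]

/-- The differential of a function `h` at `x`; Mathlib identifies the tangent space at `x` with the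
model vector space `E` through the preferred chart at `x`. -/
def dif (h : M → ℝ) (x : M) : E →L[ℝ] ℝ := mfderiv I 𝓘(ℝ, ℝ) h x

/-- The derivative at the point `y` of the inverse of the preferred chart at `x`. -/
def dSymm (x : M) (y : E) : E →L[ℝ] E := mfderiv 𝓘(ℝ, E) I (extChartAt I x).symm y

/-- The one-form `α` read in the preferred chart at `x`. -/
def formC (α : M → E →L[ℝ] ℝ) (x : M) (y : E) : E →L[ℝ] ℝ :=
  (α ((extChartAt I x).symm y)).comp (dSymm I x y)

/-- The exterior derivative `dα(u,v)` at `x`, computed in the preferred chart at `x`. -/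
def extD (α : M → E →L[ℝ] ℝ) (x : M) (u v : E) : ℝ :=
  fderiv ℝ (formC I α x) (extChartAt I x x) u v - fderiv ℝ (formC I α x) (extChartAt I x x) v u

/-- The two-form `w` is smooth: in each preferred chart its coefficients are smooth. -/
def SmoothTwo (w : M → E →L[ℝ] E →L[ℝ] ℝ) : Prop :=
  ∀ (x : M) (u v : E), ContDiffOn ℝ ∞
    (fun y => w ((extChartAt I x).symm y) (dSymm I x y u) (dSymm I x y v)) (extChartAt I x).target

/-- `Z` is a (smooth) Liouville vector field on the open set `U`: the one-form `w(Z, ·)` is smooth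
and its exterior derivative is `w`, at each point of `U` (that is, `L_Z w = d (ι_Z w) = w`). -/
def IsLiouville (w : M → E →L[ℝ] E →L[ℝ] ℝ) (U : Set M) (Z : M → E) : Prop :=
  ∀ x ∈ U, ContDiffAt ℝ ∞ (formC I (fun z => w z (Z z)) x) (extChartAt I x x) ∧
    ∀ u v, extD I (fun z => w z (Z z)) x u v = w x u v

/-- `P` is a nonempty compact piece of a level set of `h`: it is relatively open in the level set
(for example the whole level set, or a union of components of it), consists of regular points of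
`h`, and, if `b` holds, it is of contact type: there is a Liouville vector field on a neighbourhood
of `P` that is transverse to `P`. -/
structure IsPiece (b : Prop) (w : M → E →L[ℝ] E →L[ℝ] ℝ) (h : M → ℝ) (P : Set M) : Prop where
  compact : IsCompact P
  nonempty : P.Nonempty
  piece : ∃ (c : ℝ) (V : Set M), IsOpen V ∧ P = {x | h x = c} ∩ V
  regular : ∀ x ∈ P, dif I h x ≠ 0
  contact : b → ∃ (U : Set M) (Z : M → E), IsOpen U ∧ P ⊆ U ∧ IsLiouville I w U Z ∧
    ∀ x ∈ P, dif I h x (Z x) ≠ 0

/-- `γ` is a solution of Hamilton's equation `w(γ', ·) = -dh`. -/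
def IsOrbit (w : M → E →L[ℝ] E →L[ℝ] ℝ) (h : M → ℝ) (γ : ℝ → M) : Prop :=
  ∀ t : ℝ, ∃ v : E, HasMFDerivAt 𝓘(ℝ, ℝ) I γ t ((1 : ℝ →L[ℝ] ℝ).smulRight v) ∧
    ∀ u : E, w (γ t) v u = - dif I h (γ t) u

/-- `γ` is a periodic orbit of the Hamiltonian flow of `h` contained in `P`. -/
def IsPeriodicIn (w : M → E →L[ℝ] E →L[ℝ] ℝ) (h : M → ℝ) (P : Set M) (γ : ℝ → M) : Prop :=
  IsOrbit I w h γ ∧ (∃ T > 0, ∀ t, γ (t + T) = γ t) ∧ ∀ t, γ t ∈ P

/-- The Weinstein property of the function `h`: every compact nonempty regular piece of a level set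
of `h`, of contact type if `b` holds, contains a periodic orbit. -/
def Wein (b : Prop) (w : M → E →L[ℝ] E →L[ℝ] ℝ) (h : M → ℝ) : Prop :=
  ∀ P, IsPiece I b w h P → ∃ γ, IsPeriodicIn I w h P γ

end

section

variable {E : Type*} [NormedAddCommGroup E] [NormedSpace ℝ E]
  {E' : Type*} [NormedAddCommGroup E'] [NormedSpace ℝ E']
  {M N : Type*}

/-- The product of two two-forms. -/
def prodForm (w : M → E →L[ℝ] E →L[ℝ] ℝ) (w' : N → E' →L[ℝ] E' →L[ℝ] ℝ) (p : M × N) :
    (E × E') →L[ℝ] (E × E') →L[ℝ] ℝ :=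
  (w p.1).bilinearComp (ContinuousLinearMap.fst ℝ E E') (ContinuousLinearMap.fst ℝ E E') +
  (w' p.2).bilinearComp (ContinuousLinearMap.snd ℝ E E') (ContinuousLinearMap.snd ℝ E E')

@[simp] lemma prodForm_apply (w : M → E →L[ℝ] E →L[ℝ] ℝ) (w' : N → E' →L[ℝ] E' →L[ℝ] ℝ)
    (p : M × N) (u v : E × E') : prodForm w w' p u v = w p.1 u.1 v.1 + w' p.2 u.2 v.2 := rfl

end

end Pool.Agent.J4.H27.Wn
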