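import Mathlib
import Pool.Agent.J4.H27.Wn.Defs

open scoped Topology ContDiff Manifold
open Set

noncomputable section

namespace Pool.Agent.J4.H27.Wn

variable {E : Type*} [NormedAddCommGroup E] [NormedSpace ℝ E]
  {K : Type*} [TopologicalSpace K] {I : ModelWithCorners ℝ E K} [I.Boundaryless]
  {M : Type*} [TopologicalSpace M] [ChartedSpace K M] [IsManifold I ∞ M]
  {E' : Type*} [NormedAddCommGroup E'] [NormedSpace ℝ E']
  {K' : Type*} [TopologicalSpace K'] {J : ModelWithCorners ℝ E' K'} [J.Boundaryless]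
  {N : Type*} [TopologicalSpace N] [ChartedSpace K' N] [IsManifold J ∞ N]

set_option linter.unusedSectionVars false

/-- smooth functions -/
abbrev Sm (I : ModelWithCorners ℝ E K) (h : M → ℝ) : Prop := ContMDiff I 𝓘(ℝ, ℝ) ∞ h

lemma mdiff_symm {x : M} {y : E} (hy : y ∈ (extChartAt I x).target) :
    MDifferentiableAt 𝓘(ℝ, E) I (extChartAt I x).symm y :=
  ((contMDiffOn_extChartAt_symm (n := ∞) x).contMDiffAt
    ((isOpen_extChartAt_target x).mem_nhds hy)).mdifferentiableAt (by simp)

lemma dSymm_prod (x : M) (y : N) {a : E} {b : E'} (ha : a ∈ (extChartAt I x).target)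
    (hb : b ∈ (extChartAt J y).target) (u : E × E') :
    dSymm (I.prod J) (x, y) (a, b) u = (dSymm I x a u.1, dSymm J y b u.2) := by
  have h1 : ⇑(extChartAt (I.prod J) (x, y)).symm =
      fun p : E × E' => ((extChartAt I x).symm p.1, (extChartAt J y).symm p.2) := by
    rw [extChartAt_prod]
    rfl
  have hA : HasMFDerivAt 𝓘(ℝ, E × E') I (fun p : E × E' => (extChartAt I x).symm p.1) (a, b)
      ((dSymm I x a).comp (ContinuousLinearMap.fst ℝ E E')) :=
    HasMFDerivAt.comp (a, b) (g := (extChartAt I x).symm) (f := fun p : E × E' => p.1)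
      (mdiff_symm ha).hasMFDerivAt (ContinuousLinearMap.fst ℝ E E').hasMFDerivAt
  have hB : HasMFDerivAt 𝓘(ℝ, E × E') J (fun p : E × E' => (extChartAt J y).symm p.2) (a, b)
      ((dSymm J y b).comp (ContinuousLinearMap.snd ℝ E E')) :=
    HasMFDerivAt.comp (a, b) (g := (extChartAt J y).symm) (f := fun p : E × E' => p.2)
      (mdiff_symm hb).hasMFDerivAt (ContinuousLinearMap.snd ℝ E E').hasMFDerivAt
  have h2 := (hA.prodMk hB).mfderiv
  rw [← h1] at h2
  unfold dSymm at h2 ⊢
  rw [h2]
  rfl

lemma dif_prod {H : M × N → ℝ} (hH : Sm (I.prod J) H) (x : M) (y : N) (u : E × E') :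
    dif (I.prod J) H (x, y) u =
      dif I (fun x => H (x, y)) x u.1 + dif J (fun y => H (x, y)) y u.2 := by
  have h1 := mfderiv_prod_eq_add_apply (I := I) (I' := J) (I'' := 𝓘(ℝ, ℝ)) (f := H) (p := (x, y))
    (v := u) (hH.mdifferentiableAt (by simp))
  exact h1

lemma sm_left {H : M × N → ℝ} (hH : Sm (I.prod J) H) (y : N) : Sm I (fun x => H (x, y)) :=
  hH.comp (contMDiff_id.prodMk contMDiff_const)

lemma sm_right {H : M × N → ℝ} (hH : Sm (I.prod J) H) (x : M) : Sm J (fun y => H (x, y)) :=
  hH.comp (contMDiff_const.prodMk contMDiff_id)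

/-- the form `α` restricted to the slice `M × {y}` -/
def formL (α : M × N → (E × E') →L[ℝ] ℝ) (y : N) (x : M) : E →L[ℝ] ℝ :=
  (α (x, y)).comp (ContinuousLinearMap.inl ℝ E E')

/-- the form `α` restricted to the slice `{x} × N` -/
def formR (α : M × N → (E × E') →L[ℝ] ℝ) (x : M) (y : N) : E' →L[ℝ] ℝ :=
  (α (x, y)).comp (ContinuousLinearMap.inr ℝ E E')

lemma formC_formL (α : M × N → (E × E') →L[ℝ] ℝ) (x : M) (y : N) {a : E}
    (ha : a ∈ (extChartAt I x).target) :
    formC I (formL α y) x a = (formC (I.prod J) α (x, y) (a, extChartAt J y y)).comp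
      (ContinuousLinearMap.inl ℝ E E') := by
  ext u
  have h1 : (extChartAt (I.prod J) (x, y)).symm (a, extChartAt J y y) =
      ((extChartAt I x).symm a, y) := by
    rw [extChartAt_prod]
    simp
  have h2 := dSymm_prod (I := I) (J := J) x y ha (mem_extChartAt_target y) (u, 0)
  simp only [formC, formL, ContinuousLinearMap.comp_apply, ContinuousLinearMap.inl_apply]
  rw [h1, h2]
  simp

lemma formC_formR (α : M × N → (E × E') →L[ℝ] ℝ) (x : M) (y : N) {b : E'}
    (hb : b ∈ (extChartAt J y).target) :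
    formC J (formR α x) y b = (formC (I.prod J) α (x, y) (extChartAt I x x, b)).comp
      (ContinuousLinearMap.inr ℝ E E') := by
  ext u
  have h1 : (extChartAt (I.prod J) (x, y)).symm (extChartAt I x x, b) =
      (x, (extChartAt J y).symm b) := by
    rw [extChartAt_prod]
    simp
  have h2 := dSymm_prod (I := I) (J := J) x y (mem_extChartAt_target x) hb (0, u)
  simp only [formC, formR, ContinuousLinearMap.comp_apply, ContinuousLinearMap.inr_apply]
  rw [h1, h2]
  simp

lemma extChartAt_prod_apply (x : M) (y : N) :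
    extChartAt (I.prod J) (x, y) (x, y) = (extChartAt I x x, extChartAt J y y) := by
  rw [extChartAt_prod]
  rfl

lemma hasFDerivAt_formL {α : M × N → (E × E') →L[ℝ] ℝ} {x : M} {y : N}
    (h : ContDiffAt ℝ ∞ (formC (I.prod J) α (x, y)) (extChartAt (I.prod J) (x, y) (x, y))) :
    ContDiffAt ℝ ∞ (formC I (formL α y) x) (extChartAt I x x) ∧
    ∀ u v, extD I (formL α y) x u v = extD (I.prod J) α (x, y) (u, 0) (v, 0) := by
  rw [extChartAt_prod_apply] at h
  have h0 : formC I (formL α y) x =ᶠ[𝓝 (extChartAt I x x)] fun a =>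
      (formC (I.prod J) α (x, y) (a, extChartAt J y y)).comp (ContinuousLinearMap.inl ℝ E E') := by
    filter_upwards [(isOpen_extChartAt_target (I := I) x).mem_nhds (mem_extChartAt_target x)]
      with a ha
    exact formC_formL α x y ha
  have h1 : ContDiffAt ℝ ∞ (fun a : E => formC (I.prod J) α (x, y) (a, extChartAt J y y))
      (extChartAt I x x) := by
    have h2 : ContDiffAt ℝ ∞ (fun a : E => (a, extChartAt J y y)) (extChartAt I x x) :=
      contDiffAt_id.prodMk contDiffAt_const
    exact ContDiffAt.comp (extChartAt I x x) h h2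
  have h2 : ContDiffAt ℝ ∞ (fun a : E => (formC (I.prod J) α (x, y) (a, extChartAt J y y)).comp
      (ContinuousLinearMap.inl ℝ E E')) (extChartAt I x x) := h1.clm_comp contDiffAt_const
  refine ⟨h2.congr_of_eventuallyEq h0, fun u v => ?_⟩
  have h3 : HasFDerivAt (formC (I.prod J) α (x, y))
      (fderiv ℝ (formC (I.prod J) α (x, y)) (extChartAt I x x, extChartAt J y y))
      (extChartAt I x x, extChartAt J y y) := (h.differentiableAt (by simp)).hasFDerivAt
  have h4 : HasFDerivAt (fun a : E => (a, extChartAt J y y)) (ContinuousLinearMap.inl ℝ E E')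
      (extChartAt I x x) := by
    have := (hasFDerivAt_id (𝕜 := ℝ) (extChartAt I x x)).prodMk
      (hasFDerivAt_const (extChartAt J y y) (extChartAt I x x))
    exact this
  have h5 := h3.comp (extChartAt I x x) h4
  have h6 := h5.clm_comp (hasFDerivAt_const (ContinuousLinearMap.inl ℝ E E') (extChartAt I x x))
  have h7 : ∀ u v, fderiv ℝ (formC I (formL α y) x) (extChartAt I x x) u v =
      fderiv ℝ (formC (I.prod J) α (x, y)) (extChartAt (I.prod J) (x, y) (x, y)) (u, 0) (v, 0) := by
    intro u v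
    rw [h0.fderiv_eq, extChartAt_prod_apply]
    have h8 := h6.fderiv
    have h9 : (fun a : E => (formC (I.prod J) α (x, y) (a, extChartAt J y y)).comp
      (ContinuousLinearMap.inl ℝ E E')) = fun y_1 ↦
        (formC (I.prod J) α (x, y) ∘ fun a => (a, extChartAt J y y)) y_1 ∘SL
          ContinuousLinearMap.inl ℝ E E' := rfl
    rw [h9, h8]
    simp
  simp only [extD, h7]

lemma hasFDerivAt_formR {α : M × N → (E × E') →L[ℝ] ℝ} {x : M} {y : N}
    (h : ContDiffAt ℝ ∞ (formC (I.prod J) α (x, y)) (extChartAt (I.prod J) (x, y) (x, y))) :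
    ContDiffAt ℝ ∞ (formC J (formR α x) y) (extChartAt J y y) ∧
    ∀ u v, extD J (formR α x) y u v = extD (I.prod J) α (x, y) (0, u) (0, v) := by
  rw [extChartAt_prod_apply] at h
  have h0 : formC J (formR α x) y =ᶠ[𝓝 (extChartAt J y y)] fun b =>
      (formC (I.prod J) α (x, y) (extChartAt I x x, b)).comp (ContinuousLinearMap.inr ℝ E E') := by
    filter_upwards [(isOpen_extChartAt_target (I := J) y).mem_nhds (mem_extChartAt_target y)]
      with a ha
    exact formC_formR α x y ha
  have h1 : ContDiffAt ℝ ∞ (fun b : E' => formC (I.prod J) α (x, y) (extChartAt I x x, b))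
      (extChartAt J y y) := by
    have h2 : ContDiffAt ℝ ∞ (fun b : E' => (extChartAt I x x, b)) (extChartAt J y y) :=
      contDiffAt_const.prodMk contDiffAt_id
    exact ContDiffAt.comp (extChartAt J y y) h h2
  have h2 : ContDiffAt ℝ ∞ (fun b : E' => (formC (I.prod J) α (x, y) (extChartAt I x x, b)).comp
      (ContinuousLinearMap.inr ℝ E E')) (extChartAt J y y) := h1.clm_comp contDiffAt_const
  refine ⟨h2.congr_of_eventuallyEq h0, fun u v => ?_⟩
  have h3 : HasFDerivAt (formC (I.prod J) α (x, y))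
      (fderiv ℝ (formC (I.prod J) α (x, y)) (extChartAt I x x, extChartAt J y y))
      (extChartAt I x x, extChartAt J y y) := (h.differentiableAt (by simp)).hasFDerivAt
  have h4 : HasFDerivAt (fun b : E' => (extChartAt I x x, b)) (ContinuousLinearMap.inr ℝ E E')
      (extChartAt J y y) := by
    have := (hasFDerivAt_const (𝕜 := ℝ) (extChartAt I x x) (extChartAt J y y)).prodMk
      (hasFDerivAt_id (extChartAt J y y))
    exact this
  have h5 := h3.comp (extChartAt J y y) h4
  have h6 := h5.clm_comp (hasFDerivAt_const (ContinuousLinearMap.inr ℝ E E') (extChartAt J y y))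
  have h7 : ∀ u v, fderiv ℝ (formC J (formR α x) y) (extChartAt J y y) u v =
      fderiv ℝ (formC (I.prod J) α (x, y)) (extChartAt (I.prod J) (x, y) (x, y)) (0, u) (0, v) := by
    intro u v
    rw [h0.fderiv_eq, extChartAt_prod_apply]
    have h8 := h6.fderiv
    have h9 : (fun b : E' => (formC (I.prod J) α (x, y) (extChartAt I x x, b)).comp
      (ContinuousLinearMap.inr ℝ E E')) = fun y_1 ↦
        (formC (I.prod J) α (x, y) ∘ fun b => (extChartAt I x x, b)) y_1 ∘SL
          ContinuousLinearMap.inr ℝ E E' := rfl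
    rw [h9, h8]
    simp
  simp only [extD, h7]

variable {w : M → E →L[ℝ] E →L[ℝ] ℝ} {w' : N → E' →L[ℝ] E' →L[ℝ] ℝ}

/-- Liouville vector fields restrict to slices. -/
lemma liouville_left {U : Set (M × N)} {Z : M × N → E × E'}
    (h : IsLiouville (I.prod J) (prodForm w w') U Z) (y : N) :
    IsLiouville I w {x | (x, y) ∈ U} (fun x => (Z (x, y)).1) := by
  intro x hx
  obtain ⟨h1, h2⟩ := h (x, y) hx
  obtain ⟨h3, h4⟩ := hasFDerivAt_formL h1
  have h5 : formL (fun z => prodForm w w' z (Z z)) y = fun x => w x (Z (x, y)).1 := by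
    funext x
    ext u
    simp [formL]
  rw [h5] at h3 h4
  refine ⟨h3, fun u v => ?_⟩
  rw [h4, h2]
  simp

lemma liouville_right {U : Set (M × N)} {Z : M × N → E × E'}
    (h : IsLiouville (I.prod J) (prodForm w w') U Z) (x : M) :
    IsLiouville J w' {y | (x, y) ∈ U} (fun y => (Z (x, y)).2) := by
  intro y hy
  obtain ⟨h1, h2⟩ := h (x, y) hy
  obtain ⟨h3, h4⟩ := hasFDerivAt_formR h1
  have h5 : formR (fun z => prodForm w w' z (Z z)) x = fun y => w' y (Z (x, y)).2 := by
    funext y
    ext u
    simp [formR]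
  rw [h5] at h3 h4
  refine ⟨h3, fun u v => ?_⟩
  rw [h4, h2]
  simp

/-- The product of smooth two-forms is smooth. -/
lemma smoothTwo_prod (hw : SmoothTwo I w) (hw' : SmoothTwo J w') :
    SmoothTwo (I.prod J) (prodForm w w') := by
  rintro ⟨x, y⟩ ⟨u, u'⟩ ⟨v, v'⟩
  have ht : (extChartAt (I.prod J) (x, y)).target =
      (extChartAt I x).target ×ˢ (extChartAt J y).target := by
    rw [extChartAt_prod]
    rfl
  have hs : ∀ p : E × E', (extChartAt (I.prod J) (x, y)).symm p =
      ((extChartAt I x).symm p.1, (extChartAt J y).symm p.2) := by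
    intro p
    rw [extChartAt_prod]
    rfl
  rw [ht]
  have h1 : ContDiffOn ℝ ∞ (fun p : E × E' => w ((extChartAt I x).symm p.1)
      (dSymm I x p.1 u) (dSymm I x p.1 v)) ((extChartAt I x).target ×ˢ (extChartAt J y).target) :=
    (hw x u v).comp contDiff_fst.contDiffOn (fun p hp => hp.1)
  have h2 : ContDiffOn ℝ ∞ (fun p : E × E' => w' ((extChartAt J y).symm p.2)
      (dSymm J y p.2 u') (dSymm J y p.2 v')) ((extChartAt I x).target ×ˢ (extChartAt J y).target) :=
    (hw' y u' v').comp contDiff_snd.contDiffOn (fun p hp => hp.2)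
  refine (h1.add h2).congr ?_
  rintro ⟨a, b⟩ ⟨ha, hb⟩
  rw [hs, dSymm_prod x y ha hb, dSymm_prod x y ha hb]
  rfl

end Pool.Agent.J4.H27.Wn
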