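import Mathlib
import Pool.Agent.J4.H27.Wn.Prod

open scoped Topology ContDiff Manifold
open Set Filter

noncomputable section

namespace Pool.Agent.J4.H27.Wn

set_option linter.unusedSectionVars false

/-- Functional dependence near a regular point, in a vector space. -/
theorem dep_vec {E : Type*} [NormedAddCommGroup E] [NormedSpace ℝ E] [CompleteSpace E]
    {G h : E → ℝ} {e₀ : E} {U : Set E} (hU : IsOpen U) (he : e₀ ∈ U)
    (hG : ContDiffOn ℝ ∞ G U) (hh : ContDiffOn ℝ ∞ h U)
    (hdep : ∀ z ∈ U, ∀ v, fderiv ℝ G z v = 0 → fderiv ℝ h z v = 0)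
    (hreg : fderiv ℝ G e₀ ≠ 0) :
    ∃ μ : ℝ, ∀ᶠ z in 𝓝 e₀, G z = G e₀ → h z = h e₀ ∧ fderiv ℝ h z = μ • fderiv ℝ G z := by
  set L : E →L[ℝ] ℝ := fderiv ℝ G e₀ with hL
  obtain ⟨e, he1⟩ : ∃ e, L e = 1 := by
    obtain ⟨v, hv⟩ : ∃ v, L v ≠ 0 := by
      by_contra hcon
      push Not at hcon
      exact hreg (ContinuousLinearMap.ext hcon)
    exact ⟨(L v)⁻¹ • v, by rw [map_smul, smul_eq_mul, inv_mul_cancel₀ hv]⟩
  have hGd : ∀ z ∈ U, HasFDerivAt G (fderiv ℝ G z) z := fun z hz =>
    ((hG.contDiffAt (hU.mem_nhds hz)).differentiableAt (by simp)).hasFDerivAt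
  have hhd : ∀ z ∈ U, HasFDerivAt h (fderiv ℝ h z) z := fun z hz =>
    ((hh.contDiffAt (hU.mem_nhds hz)).differentiableAt (by simp)).hasFDerivAt
  -- the local diffeomorphism
  let P : E → E := fun z => z + (G z - G e₀ - L (z - e₀)) • e
  have hPe : P e₀ = e₀ := by simp [P]
  have hPL : ∀ z, L (P z - e₀) = G z - G e₀ := by
    intro z
    have : P z - e₀ = (z - e₀) + (G z - G e₀ - L (z - e₀)) • e := by simp only [P]; abel
    rw [this, map_add, map_smul, he1]
    simp
  have hPc : ContDiffAt ℝ 1 P e₀ := by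
    have h1 : ContDiffAt ℝ 1 G e₀ := (hG.contDiffAt (hU.mem_nhds he)).of_le (by simp)
    exact contDiffAt_id.add (((h1.sub contDiffAt_const).sub
      (L.contDiff.contDiffAt.comp e₀ (contDiffAt_id.sub contDiffAt_const))).smul contDiffAt_const)
  have hPd : HasFDerivAt P ((ContinuousLinearEquiv.refl ℝ E : E ≃L[ℝ] E) : E →L[ℝ] E) e₀ := by
    have h1 : HasFDerivAt (fun z => z - e₀) (ContinuousLinearMap.id ℝ E) e₀ :=
      (hasFDerivAt_id e₀).sub_const e₀
    have h2 : HasFDerivAt (fun z => L (z - e₀)) (L.comp (ContinuousLinearMap.id ℝ E)) e₀ :=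
      L.hasFDerivAt.comp e₀ h1
    have h3 := (((hGd e₀ he).sub_const (G e₀)).sub h2).smul_const e
    have h4 := (hasFDerivAt_id e₀).add h3
    refine h4.congr_fderiv ?_
    ext v
    simp [hL]
  let R := hPc.toOpenPartialHomeomorph P hPd one_ne_zero
  have hRe : e₀ ∈ R.source := hPc.mem_toOpenPartialHomeomorph_source hPd one_ne_zero
  have hRP : (R : E → E) = P := hPc.toOpenPartialHomeomorph_coe hPd one_ne_zero
  let Q : E → E := fun z => R.symm z
  have hQe : Q e₀ = e₀ := by
    have := R.left_inv hRe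
    rw [hRP, hPe] at this
    exact this
  have hQc : ContDiffAt ℝ 1 Q e₀ := by
    have := hPc.to_localInverse hPd one_ne_zero
    rw [hPe] at this
    exact this
  have hev : ∀ᶠ z in 𝓝 e₀, Q z ∈ U ∧ P (Q z) = z ∧ DifferentiableAt ℝ Q z := by
    have h1 : ∀ᶠ z in 𝓝 e₀, Q z ∈ U := by
      apply hQc.continuousAt.preimage_mem_nhds
      rw [hQe]
      exact hU.mem_nhds he
    have h2 : ∀ᶠ z in 𝓝 e₀, P (Q z) = z := by
      have := R.eventually_right_inverse' hRe
      rw [hRP, hPe] at this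
      exact this
    have h3 : ∀ᶠ z in 𝓝 e₀, DifferentiableAt ℝ Q z := by
      filter_upwards [hQc.eventually (by simp)] with z hz
      exact hz.differentiableAt one_ne_zero
    exact h1.and (h2.and h3)
  obtain ⟨r, hr, hball⟩ := Metric.eventually_nhds_iff_ball.1 hev
  set k : E → ℝ := fun z => h (Q z) with hk
  have hkd : ∀ z ∈ Metric.ball e₀ r, HasFDerivAt k ((fderiv ℝ h (Q z)).comp (fderiv ℝ Q z)) z := by
    intro z hz
    obtain ⟨h1, h2, h3⟩ := hball z hz
    exact (hhd _ h1).comp z h3.hasFDerivAt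
  have hk0 : ∀ z ∈ Metric.ball e₀ r, ∀ v, L v = 0 → fderiv ℝ h (Q z) (fderiv ℝ Q z v) = 0 := by
    intro z hz v hv
    obtain ⟨h1, h2, h3⟩ := hball z hz
    apply hdep _ h1
    have h4 : HasFDerivAt (fun z => G (Q z)) ((fderiv ℝ G (Q z)).comp (fderiv ℝ Q z)) z :=
      (hGd _ h1).comp z h3.hasFDerivAt
    have h5 : HasFDerivAt (fun z => G e₀ + L (z - e₀)) L z := by
      have h6 : HasFDerivAt (fun z => L (z - e₀)) (L.comp (ContinuousLinearMap.id ℝ E)) z :=
        L.hasFDerivAt.comp z ((hasFDerivAt_id z).sub_const e₀)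
      exact h6.const_add (G e₀)
    have h6 : (fun z => G (Q z)) =ᶠ[𝓝 z] fun z => G e₀ + L (z - e₀) := by
      filter_upwards [Metric.isOpen_ball.mem_nhds hz] with z' hz'
      have h7 := hPL (Q z')
      rw [(hball z' hz').2.1] at h7
      linarith
    have h7 := h4.unique (h5.congr_of_eventuallyEq h6)
    have h8 := DFunLike.congr_fun h7 v
    rw [ContinuousLinearMap.comp_apply] at h8
    rw [h8, hv]
  -- `k` only depends on `L`
  have hcontL : ∀ᶠ z in 𝓝 e₀, e₀ + L (z - e₀) • e ∈ Metric.ball e₀ r := by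
    have h1 : Continuous (fun z => e₀ + L (z - e₀) • e) := by fun_prop
    apply h1.continuousAt.preimage_mem_nhds
    have : e₀ + L (e₀ - e₀) • e = e₀ := by simp
    rw [this]
    exact Metric.ball_mem_nhds e₀ hr
  have hkκ : ∀ᶠ z in 𝓝 e₀, k z = k (e₀ + L (z - e₀) • e) := by
    filter_upwards [hcontL, Metric.ball_mem_nhds e₀ hr] with z hz hz2
    set w := e₀ + L (z - e₀) • e with hw
    have hLv : L (z - w) = 0 := by
      have : z - w = (z - e₀) - L (z - e₀) • e := by rw [hw]; abel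
      rw [this, map_sub, map_smul, he1]
      simp
    have hseg : ∀ s ∈ Icc (0:ℝ) 1, w + s • (z - w) ∈ Metric.ball e₀ r := by
      intro s hs
      have h1 := (convex_ball e₀ r).add_smul_sub_mem hz hz2 hs
      exact h1
    have hd : ∀ s ∈ Icc (0:ℝ) 1, HasDerivAt (fun s : ℝ => k (w + s • (z - w))) 0 s := by
      intro s hs
      have h1 : HasDerivAt (fun s : ℝ => w + s • (z - w)) (z - w) s := by
        have := ((hasDerivAt_id s).smul_const (z - w)).const_add w
        simpa using this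
      have h2 := (hkd _ (hseg s hs)).comp_hasDerivAt s h1
      rw [ContinuousLinearMap.comp_apply, hk0 _ (hseg s hs) _ hLv] at h2
      exact h2
    have h1 := constant_of_has_deriv_right_zero (f := fun s : ℝ => k (w + s • (z - w)))
      (a := 0) (b := 1) (fun s hs => (hd s hs).continuousAt.continuousWithinAt)
      (fun s hs => (hd s ⟨hs.1, hs.2.le⟩).hasDerivWithinAt) 1 ⟨zero_le_one, le_rfl⟩
    simpa using h1
  -- the function `κ`
  set κ : ℝ → ℝ := fun s => k (e₀ + s • e) with hκ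
  obtain ⟨μ, hμ⟩ : ∃ μ, HasDerivAt κ μ 0 := by
    have h1 : HasDerivAt (fun s : ℝ => e₀ + s • e) e 0 := by
      have := ((hasDerivAt_id (0:ℝ)).smul_const e).const_add e₀
      simpa using this
    have h2 : e₀ + (0:ℝ) • e = e₀ := by simp
    have h3 := hkd e₀ (Metric.mem_ball_self hr)
    rw [← h2] at h3
    have h4 := HasFDerivAt.comp_hasDerivAt (x := (0:ℝ)) (f := fun s : ℝ => e₀ + s • e) h3 h1
    exact ⟨_, h4⟩
  have hhκ : ∀ᶠ z in 𝓝 e₀, h z = κ (G z - G e₀) := by
    have h1 : ∀ᶠ z in 𝓝 e₀, Q (P z) = z := by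
      have := R.eventually_left_inverse hRe
      rw [hRP] at this
      exact this
    have h2 : ∀ᶠ z in 𝓝 e₀, k (P z) = k (e₀ + L (P z - e₀) • e) := by
      have h3 : Tendsto P (𝓝 e₀) (𝓝 e₀) := by
        have := hPc.continuousAt.tendsto
        rwa [hPe] at this
      exact h3.eventually hkκ
    filter_upwards [h1, h2] with z hz1 hz2
    rw [hPL] at hz2
    simp only [hk] at hz2
    rw [hz1] at hz2
    exact hz2
  refine ⟨μ, ?_⟩
  filter_upwards [hhκ, hhκ.eventually_nhds, hU.mem_nhds he] with z hz1 hz2 hz3 hz4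
  refine ⟨?_, ?_⟩
  · rw [hz1, hhκ.self_of_nhds, hz4]
  · have h1 : HasFDerivAt (fun z => G z - G e₀) (fderiv ℝ G z) z := (hGd z hz3).sub_const _
    have h2 : HasDerivAt κ μ (G z - G e₀) := by rw [hz4, sub_self]; exact hμ
    have h3 := h2.comp_hasFDerivAt z h1
    have h4 : HasFDerivAt h (μ • fderiv ℝ G z) z := h3.congr_of_eventuallyEq hz2
    exact h4.fderiv

variable {E : Type*} [NormedAddCommGroup E] [NormedSpace ℝ E] [CompleteSpace E]
  {K : Type*} [TopologicalSpace K] {I : ModelWithCorners ℝ E K} [I.Boundaryless]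
  {M : Type*} [TopologicalSpace M] [ChartedSpace K M] [IsManifold I ∞ M]

/-- a function read in the preferred chart at `p` -/
lemma contDiffOn_chart {h : M → ℝ} (hh : Sm I h) (p : M) :
    ContDiffOn ℝ ∞ (fun y => h ((extChartAt I p).symm y)) (extChartAt I p).target := by
  rw [← contMDiffOn_iff_contDiffOn]
  exact hh.comp_contMDiffOn (contMDiffOn_extChartAt_symm p)

lemma fderiv_chart {h : M → ℝ} (hh : Sm I h) (p : M) {y : E} (hy : y ∈ (extChartAt I p).target)
    (v : E) : fderiv ℝ (fun y => h ((extChartAt I p).symm y)) y v =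
      dif I h ((extChartAt I p).symm y) (dSymm I p y v) := by
  have h1 := mfderiv_comp (I := 𝓘(ℝ, E)) (I' := I) (I'' := 𝓘(ℝ, ℝ)) y
    (hh.mdifferentiableAt (x := (extChartAt I p).symm y) (by simp)) (mdiff_symm hy)
  have h2 : (h ∘ (extChartAt I p).symm) = fun y => h ((extChartAt I p).symm y) := rfl
  rw [h2, mfderiv_eq_fderiv] at h1
  exact DFunLike.congr_fun h1 v

lemma dif_chart {h : M → ℝ} (hh : Sm I h) (p : M) {x : M} (hx : x ∈ (extChartAt I p).source) :
    dif I h x = (fderiv ℝ (fun y => h ((extChartAt I p).symm y)) (extChartAt I p x)).comp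
      (show E →L[ℝ] E from mfderiv I 𝓘(ℝ, E) (extChartAt I p) x) := by
  have h0 : (fun y => h ((extChartAt I p).symm y)) ∘ (extChartAt I p) =ᶠ[𝓝 x] h := by
    filter_upwards [(isOpen_extChartAt_source (I := I) p).mem_nhds hx] with z hz
    simp only [Function.comp_apply]
    rw [(extChartAt I p).left_inv hz]
  have hx' : x ∈ (chartAt K p).source := by rwa [extChartAt_source] at hx
  have h1 : MDifferentiableAt I 𝓘(ℝ, E) (extChartAt I p) x := mdifferentiableAt_extChartAt hx'
  have h2 : MDifferentiableAt 𝓘(ℝ, E) 𝓘(ℝ, ℝ) (fun y => h ((extChartAt I p).symm y))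
      (extChartAt I p x) := by
    have h3 : extChartAt I p x ∈ (extChartAt I p).target := (extChartAt I p).map_source hx
    exact (((contDiffOn_chart hh p).contDiffAt ((isOpen_extChartAt_target p).mem_nhds h3)
      ).differentiableAt (by simp)).mdifferentiableAt
  have h3 := mfderiv_comp x h2 h1
  rw [h0.mfderiv_eq, mfderiv_eq_fderiv] at h3
  exact h3

lemma dif_self {h : M → ℝ} (hh : Sm I h) (p : M) :
    dif I h p = fderiv ℝ (fun y => h ((extChartAt I p).symm y)) (extChartAt I p p) := by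
  rw [dif_chart hh p (mem_extChartAt_source p)]
  ext v
  have h1 : (mfderiv I 𝓘(ℝ, E) (extChartAt I p) p) = ContinuousLinearMap.id ℝ _ := by
    have : IsManifold I 1 M := IsManifold.of_le (n := ∞) (by simp)
    exact mfderiv_extChartAt_self
  have h2 : (show E →L[ℝ] E from mfderiv I 𝓘(ℝ, E) (extChartAt I p) p) v = v :=
    DFunLike.congr_fun h1 v
  rw [ContinuousLinearMap.comp_apply, h2]

/-- Lagrange multipliers on manifolds. -/
theorem lagrange {h g : M → ℝ} (hh : Sm I h) (hg : Sm I g) {p : M}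
    (hext : IsLocalExtrOn g {x | h x = h p} p) :
    ∃ a b : ℝ, (a, b) ≠ 0 ∧ ∀ v, a * dif I h p v + b * dif I g p v = 0 := by
  set φ := extChartAt I p with hφ
  have hmem : φ p ∈ φ.target := mem_extChartAt_target p
  have hs : φ.symm (φ p) = p := φ.left_inv (mem_extChartAt_source p)
  have hstrict : ∀ {f : M → ℝ}, Sm I f → HasStrictFDerivAt (fun y => f (φ.symm y))
      (dif I f p) (φ p) := by
    intro f hf
    have h1 := ((contDiffOn_chart hf p).contDiffAt ((isOpen_extChartAt_target p).mem_nhds hmem)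
      ).hasStrictFDerivAt (by simp)
    rw [dif_self hf]
    exact h1
  have h1 : IsLocalExtrOn (fun y => g (φ.symm y))
      {y | h (φ.symm y) = h (φ.symm (φ p))} (φ p) := by
    have h2 : Tendsto φ.symm (𝓝[{y | h (φ.symm y) = h (φ.symm (φ p))}] (φ p))
        (𝓝[{x | h x = h p}] p) := by
      rw [tendsto_nhdsWithin_iff]
      constructor
      · have h3 : ContinuousAt φ.symm (φ p) := continuousAt_extChartAt_symm p
        have h4 := h3.tendsto
        rw [hs] at h4
        exact h4.mono_left nhdsWithin_le_nhds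
      · filter_upwards [self_mem_nhdsWithin] with y hy
        simp only [hs] at hy ⊢
        exact hy
    have h3 : IsExtrFilter g (𝓝[{x | h x = h p}] p) (φ.symm (φ p)) := by rw [hs]; exact hext
    exact IsExtrFilter.comp_tendsto h3 h2
  obtain ⟨a, b, hab, h2⟩ := h1.exists_multipliers_of_hasStrictFDerivAt_1d (hstrict hh) (hstrict hg)
  refine ⟨a, b, hab, fun v => ?_⟩
  have h3 := DFunLike.congr_fun h2 v
  simpa using h3

/-- Functional dependence near a regular point, on manifolds. -/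
theorem dep_man {G h : M → ℝ} (hG : Sm I G) (hh : Sm I h)
    (hdep : ∀ y v, dif I G y v = 0 → dif I h y v = 0) {p : M} (hreg : dif I G p ≠ 0) :
    ∃ μ : ℝ, ∀ᶠ y in 𝓝 p, G y = G p → h y = h p ∧ dif I h y = μ • dif I G y := by
  set φ := extChartAt I p with hφ
  have hs : φ.symm (φ p) = p := φ.left_inv (mem_extChartAt_source p)
  obtain ⟨μ, hμ⟩ := dep_vec (G := fun y => G (φ.symm y)) (h := fun y => h (φ.symm y))
    (e₀ := φ p) (U := φ.target) (isOpen_extChartAt_target p) (mem_extChartAt_target p)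
    (contDiffOn_chart hG p) (contDiffOn_chart hh p)
    (by
      intro z hz v hv
      rw [fderiv_chart hG p hz] at hv
      rw [fderiv_chart hh p hz]
      exact hdep _ _ hv)
    (by rw [← dif_self hG]; exact hreg)
  refine ⟨μ, ?_⟩
  have h1 : Tendsto φ (𝓝 p) (𝓝 (φ p)) := (continuousAt_extChartAt p).tendsto
  filter_upwards [h1.eventually hμ, (isOpen_extChartAt_source (I := I) p).mem_nhds
    (mem_extChartAt_source p)] with y hy hy2 hy3
  have hl : φ.symm (φ y) = y := φ.left_inv hy2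
  simp only [hs, hl] at hy
  obtain ⟨h2, h3⟩ := hy hy3
  refine ⟨h2, ?_⟩
  rw [dif_chart hh p hy2, dif_chart hG p hy2, ← hφ, h3]
  rfl

end Pool.Agent.J4.H27.Wn
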