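import Mathlib
import Pool.Agent.J4.H27.Wn.Local

open scoped Topology ContDiff Manifold
open Set Filter

noncomputable section

namespace Pool.Agent.J4.H27.Wn

set_option linter.unusedSectionVars false

section one

variable {E : Type*} [NormedAddCommGroup E] [NormedSpace ℝ E] [CompleteSpace E]
  {K : Type*} [TopologicalSpace K] {I : ModelWithCorners ℝ E K} [I.Boundaryless]
  {M : Type*} [TopologicalSpace M] [ChartedSpace K M] [IsManifold I ∞ M]

lemma dif_const (c : ℝ) (x : M) : dif I (fun _ : M => c) x = 0 := by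
  unfold dif
  rw [mfderiv_const]
  rfl

/-- regular points form an open set -/
lemma eventually_dif_ne {G : M → ℝ} (hG : Sm I G) {p : M} (hreg : dif I G p ≠ 0) :
    ∀ᶠ y in 𝓝 p, dif I G y ≠ 0 := by
  set φ := extChartAt I p with hφ
  have hmem : φ p ∈ φ.target := mem_extChartAt_target p
  have h1 : ContinuousAt (fderiv ℝ (fun y => G (φ.symm y))) (φ p) :=
    (((contDiffOn_chart hG p).continuousOn_fderiv_of_isOpen (isOpen_extChartAt_target p)
      (by simp)).continuousAt ((isOpen_extChartAt_target p).mem_nhds hmem))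
  have h2 : Tendsto φ (𝓝 p) (𝓝 (φ p)) := (continuousAt_extChartAt p).tendsto
  have h3 : ∀ᶠ z in 𝓝 (φ p), fderiv ℝ (fun y => G (φ.symm y)) z ≠ 0 := by
    apply h1.eventually_ne
    rw [← dif_self hG]
    exact hreg
  filter_upwards [h2.eventually h3, (isOpen_extChartAt_source (I := I) p).mem_nhds
    (mem_extChartAt_source p)] with y hy hy2 hy3
  apply hy
  ext v
  have h4 : φ y ∈ φ.target := φ.map_source hy2
  rw [fderiv_chart hG p h4]
  rw [show (extChartAt I p).symm (φ y) = y from φ.left_inv hy2, hy3]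
  simp

end one

variable {E : Type*} [NormedAddCommGroup E] [NormedSpace ℝ E] [CompleteSpace E]
  {K : Type*} [TopologicalSpace K] {I : ModelWithCorners ℝ E K} [I.Boundaryless]
  {M : Type*} [TopologicalSpace M] [ChartedSpace K M] [IsManifold I ∞ M]
  {E' : Type*} [NormedAddCommGroup E'] [NormedSpace ℝ E'] [CompleteSpace E']
  {K' : Type*} [TopologicalSpace K'] {J : ModelWithCorners ℝ E' K'} [J.Boundaryless]
  {N : Type*} [TopologicalSpace N] [ChartedSpace K' N] [IsManifold J ∞ N]
  {w : M → E →L[ℝ] E →L[ℝ] ℝ} {w' : N → E' →L[ℝ] E' →L[ℝ] ℝ}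

/-- continuity of partial derivatives -/
lemma cont_partial {H : M × N → ℝ} (hH : Sm (I.prod J) H) (x : M) (u : E) :
    Continuous (fun y => dif I (fun x => H (x, y)) x u) := by
  rw [continuous_iff_continuousAt]
  intro y₁
  set Φ := extChartAt (I.prod J) (x, y₁) with hΦ
  set F : E × E' → ℝ := fun z => H (Φ.symm z) with hF
  have hFc : ContDiffOn ℝ ∞ F Φ.target := contDiffOn_chart hH (x, y₁)
  have hΦt : Φ.target = (extChartAt I x).target ×ˢ (extChartAt J y₁).target := by
    rw [hΦ, extChartAt_prod]; rfl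
  have hΦs : ∀ p : E × E', Φ.symm p = ((extChartAt I x).symm p.1, (extChartAt J y₁).symm p.2) := by
    intro p
    rw [hΦ, extChartAt_prod]; rfl
  have key : ∀ᶠ y in 𝓝 y₁, fderiv ℝ F (extChartAt I x x, extChartAt J y₁ y) (u, 0) =
      dif I (fun x => H (x, y)) x u := by
    filter_upwards [(isOpen_extChartAt_source (I := J) y₁).mem_nhds
      (mem_extChartAt_source y₁)] with y hy
    have h1 : (extChartAt J y₁) y ∈ (extChartAt J y₁).target := (extChartAt J y₁).map_source hy
    have h2 : (extChartAt I x x, extChartAt J y₁ y) ∈ Φ.target := by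
      rw [hΦt]
      exact ⟨mem_extChartAt_target x, h1⟩
    rw [hF, fderiv_chart hH (x, y₁) h2, dSymm_prod x y₁ (mem_extChartAt_target x) h1, ← hΦ, hΦs]
    simp only
    rw [(extChartAt I x).left_inv (mem_extChartAt_source x), (extChartAt J y₁).left_inv hy,
      dif_prod hH]
    have h3 := fderiv_chart (sm_left hH y) x (mem_extChartAt_target (I := I) x) u
    rw [← dif_self (sm_left hH y), (extChartAt I x).left_inv (mem_extChartAt_source x)] at h3
    simp only [map_zero, add_zero]
    exact h3.symm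
  refine ContinuousAt.congr ?_ key
  have h2 : (extChartAt I x x, extChartAt J y₁ y₁) ∈ Φ.target := by
    rw [hΦt]
    exact ⟨mem_extChartAt_target x, mem_extChartAt_target y₁⟩
  have h1 : ContinuousAt (fderiv ℝ F) (extChartAt I x x, extChartAt J y₁ y₁) :=
    ((hFc.continuousOn_fderiv_of_isOpen (isOpen_extChartAt_target (x, y₁))
      (by simp)).continuousAt ((isOpen_extChartAt_target (x, y₁)).mem_nhds h2))
  have h3 : ContinuousAt (fun y => (extChartAt I x x, extChartAt J y₁ y)) y₁ :=
    continuousAt_const.prodMk (continuousAt_extChartAt y₁)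
  have h4 : ContinuousAt (fun y => fderiv ℝ F (extChartAt I x x, extChartAt J y₁ y)) y₁ :=
    ContinuousAt.comp (g := fderiv ℝ F) h1 h3
  exact h4.clm_apply continuousAt_const

/-- orbits in slices `M × {y}` -/
lemma orbit_left {H : M × N → ℝ} (hH : Sm (I.prod J) H) {y : N} {γ : ℝ → M}
    (hγ : IsOrbit I w (fun x => H (x, y)) γ) (h0 : ∀ t, dif J (fun y => H (γ t, y)) y = 0) :
    IsOrbit (I.prod J) (prodForm w w') H (fun t => (γ t, y)) := by
  intro t
  obtain ⟨v, h1, h2⟩ := hγ t
  refine ⟨(v, 0), ?_, ?_⟩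
  · have h3 : HasMFDerivAt 𝓘(ℝ, ℝ) J (fun _ : ℝ => y) t (0 : ℝ →L[ℝ] E') := hasMFDerivAt_const y t
    have h4 := h1.prodMk h3
    refine h4.congr_mfderiv ?_
    refine ContinuousLinearMap.ext fun (r : ℝ) => ?_
    refine Prod.ext rfl ?_
    show (0 : E') = r • (0 : E')
    rw [smul_zero]
  · intro u
    rw [dif_prod hH, h0 t, prodForm_apply]
    simp only [map_zero, zero_apply, add_zero]
    exact h2 u.1

/-- orbits in slices `{x} × N` -/
lemma orbit_right {H : M × N → ℝ} (hH : Sm (I.prod J) H) {G : N → ℝ} {x : M} {η : ℝ → N}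
    (hη : IsOrbit J w' G η) {μ : ℝ} (h0 : ∀ t, dif I (fun x => H (x, η t)) x = 0)
    (hμ : ∀ t, dif J (fun y => H (x, y)) (η t) = μ • dif J G (η t)) :
    IsOrbit (I.prod J) (prodForm w w') H (fun t => (x, η (μ * t))) := by
  intro t
  obtain ⟨v, h1, h2⟩ := hη (μ * t)
  refine ⟨(0, μ • v), ?_, ?_⟩
  · have h3 : HasMFDerivAt 𝓘(ℝ, ℝ) I (fun _ : ℝ => x) t (0 : ℝ →L[ℝ] E) := hasMFDerivAt_const x t
    have h5 : HasMFDerivAt 𝓘(ℝ, ℝ) 𝓘(ℝ, ℝ) (fun t : ℝ => μ * t) t (μ • (1 : ℝ →L[ℝ] ℝ)) := by
      have := ((hasFDerivAt_id (𝕜 := ℝ) t).const_mul μ).hasMFDerivAt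
      exact this
    have h6 : HasMFDerivAt 𝓘(ℝ, ℝ) J (fun t : ℝ => η (μ * t)) t
        (((1 : ℝ →L[ℝ] ℝ).smulRight v).comp (μ • (1 : ℝ →L[ℝ] ℝ))) :=
      HasMFDerivAt.comp t (g := η) (f := fun t : ℝ => μ * t) h1 h5
    have h4 := h3.prodMk h6
    refine h4.congr_mfderiv ?_
    refine ContinuousLinearMap.ext fun (r : ℝ) => ?_
    refine Prod.ext ?_ ?_
    · show (0 : E) = r • (0 : E)
      rw [smul_zero]
    · show (μ * r) • v = r • (μ • v)
      rw [smul_smul, mul_comm]
  · intro u
    rw [dif_prod hH, h0 (μ * t), prodForm_apply, hμ]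
    simp only [map_zero, zero_apply, zero_add]
    rw [map_smul, smul_apply, h2 u.2, smul_apply, smul_neg]

variable [T2Space M] [T2Space N]

/-- **The composition step.** -/
theorem step {b : Prop} {H : M × N → ℝ} (hH : Sm (I.prod J) H) {G : N → ℝ} (hG : Sm J G)
    (hdep : ∀ x y v, dif J G y v = 0 → dif J (fun y => H (x, y)) y v = 0)
    (hWG : Wein J b w' G)
    (hWH : ∀ y, dif J G y = 0 → Wein I b w (fun x => H (x, y)))
    {P : Set (M × N)} (hP : IsPiece (I.prod J) b (prodForm w w') H P) {p : M × N} (hp : p ∈ P)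
    (hext : (∀ q ∈ P, G q.2 ≤ G p.2) ∨ (∀ q ∈ P, G p.2 ≤ G q.2)) :
    ∃ γ, IsPeriodicIn (I.prod J) (prodForm w w') H P γ ∧ ∀ t, G (γ t).2 = G p.2 := by
  obtain ⟨c, V, hV, hPV⟩ := hP.piece
  have hPc : IsClosed P := hP.compact.isClosed
  have hsmG : Sm (I.prod J) (fun q : M × N => G q.2) := hG.comp contMDiff_snd
  have hdifG : ∀ (x : M) (y : N) (u : E × E'),
      dif (I.prod J) (fun q : M × N => G q.2) (x, y) u = dif J G y u.2 := by
    intro x y u
    rw [dif_prod hsmG]
    have : dif I (fun x : M => G (x, y).2) x = 0 := dif_const (I := I) (G y) x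
    rw [this]
    simp
  -- the dichotomy at extremal points
  have dich : ∀ (x : M) (y : N), (x, y) ∈ P → G y = G p.2 →
      (dif J G y ≠ 0 ∧ dif I (fun x => H (x, y)) x = 0) ∨
      (dif J G y = 0 ∧ dif J (fun y => H (x, y)) y = 0 ∧ dif I (fun x => H (x, y)) x ≠ 0) := by
    intro x y hq hGq
    have hc : H (x, y) = c := by
      rw [hPV] at hq
      exact hq.1
    have hqV : (x, y) ∈ V := by
      rw [hPV] at hq
      exact hq.2
    have hloc : IsLocalExtrOn (fun q : M × N => G q.2) {q | H q = H (x, y)} (x, y) := by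
      have h1 : ∀ᶠ q in 𝓝[{q | H q = H (x, y)}] (x, y), q ∈ P := by
        filter_upwards [self_mem_nhdsWithin, mem_nhdsWithin_of_mem_nhds (hV.mem_nhds hqV)]
          with q h2 h3
        rw [hPV]
        exact ⟨(show H q = H (x, y) from h2).trans hc, h3⟩
      rcases hext with h | h
      · right
        filter_upwards [h1] with q hq2
        show G q.2 ≤ G y
        rw [hGq]
        exact h q hq2
      · left
        filter_upwards [h1] with q hq2
        show G y ≤ G q.2
        rw [hGq]
        exact h q hq2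
    obtain ⟨a, d, had, hL⟩ := lagrange hH hsmG hloc
    have hL1 : ∀ u, a * dif I (fun x => H (x, y)) x u = 0 := by
      intro u
      have h1 := hL (u, 0)
      rw [dif_prod hH, hdifG] at h1
      simpa using h1
    have hL2 : ∀ u, a * dif J (fun y => H (x, y)) y u + d * dif J G y u = 0 := by
      intro u
      have h1 := hL (0, u)
      rw [dif_prod hH, hdifG] at h1
      simpa using h1
    by_cases hGy : dif J G y = 0
    · right
      have h2 : dif J (fun y => H (x, y)) y = 0 := by
        ext v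
        exact hdep x y v (by rw [hGy]; rfl)
      refine ⟨hGy, h2, fun h3 => hP.regular _ hq ?_⟩
      refine ContinuousLinearMap.ext fun u => ?_
      rw [dif_prod hH, h2, h3]
      simp
    · left
      refine ⟨hGy, ?_⟩
      have ha : a ≠ 0 := by
        rintro rfl
        have hd : d ≠ 0 := by
          rintro rfl
          exact had rfl
        apply hGy
        ext u
        have := hL2 u
        simp only [zero_mul, zero_add, mul_eq_zero] at this
        exact this.resolve_left hd
      ext u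
      exact (mul_eq_zero.1 (hL1 u)).resolve_left ha
  by_cases hGp : dif J G p.2 = 0
  · -- the slice `M × {y₀}`
    set y₀ := p.2 with hy₀
    have hJ0 : ∀ x, dif J (fun y => H (x, y)) y₀ = 0 := by
      intro x
      ext v
      exact hdep x y₀ v (by rw [hGp]; rfl)
    have hcont : Continuous (fun x : M => (x, y₀)) := by fun_prop
    have hK : IsPiece I b w (fun x => H (x, y₀)) {x | (x, y₀) ∈ P} := by
      refine ⟨?_, ⟨p.1, hp⟩, ⟨c, {x | (x, y₀) ∈ V}, hV.preimage hcont, ?_⟩, ?_, ?_⟩
      · refine (hP.compact.image continuous_fst).of_isClosed_subset (hPc.preimage hcont) ?_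
        intro x hx
        exact ⟨(x, y₀), hx, rfl⟩
      · ext x
        show (x, y₀) ∈ P ↔ H (x, y₀) = c ∧ (x, y₀) ∈ V
        rw [hPV]
        rfl
      · intro x hx h0
        apply hP.regular _ hx
        refine ContinuousLinearMap.ext fun u => ?_
        rw [dif_prod hH, h0, hJ0]
        simp
      · intro hb
        obtain ⟨U, Z, hU, hPU, hZ, hZt⟩ := hP.contact hb
        refine ⟨{x | (x, y₀) ∈ U}, fun x => (Z (x, y₀)).1, hU.preimage hcont,
          fun x hx => hPU hx, liouville_left hZ y₀, ?_⟩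
        intro x hx
        have h1 := hZt _ hx
        rw [dif_prod hH, hJ0] at h1
        simpa using h1
    obtain ⟨γ, hγ1, ⟨T, hT, hγ2⟩, hγ3⟩ := hWH y₀ hGp _ hK
    refine ⟨fun t => (γ t, y₀), ⟨orbit_left hH hγ1 (fun t => hJ0 _), ⟨T, hT, fun t => ?_⟩,
      fun t => hγ3 t⟩, fun t => rfl⟩
    simp only [hγ2]
  · -- the slice `{x₀} × N`
    set x₀ := p.1 with hx₀
    set g₀ := G p.2 with hg₀
    set KK : Set N := {y | (x₀, y) ∈ P ∧ G y = g₀ ∧ dif I (fun x => H (x, y)) x₀ = 0} with hKK
    have hKG : ∀ y ∈ KK, dif J G y ≠ 0 := by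
      rintro y ⟨h1, h2, h3⟩ h4
      rcases dich x₀ y h1 h2 with h5 | h5
      · exact h5.1 h4
      · exact h5.2.2 h3
    have hcont : Continuous (fun y : N => (x₀, y)) := by fun_prop
    have hKclosed : IsClosed KK := by
      have h1 : KK = {y | (x₀, y) ∈ P} ∩ ({y | G y = g₀} ∩
          ⋂ u : E, {y | dif I (fun x => H (x, y)) x₀ u = 0}) := by
        ext y
        simp only [hKK, mem_inter_iff, mem_iInter]
        constructor
        · rintro ⟨h1, h2, h3⟩
          refine ⟨h1, h2, fun u => ?_⟩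
          show dif I (fun x => H (x, y)) x₀ u = 0
          rw [h3]; rfl
        · rintro ⟨h1, h2, h3⟩
          exact ⟨h1, h2, ContinuousLinearMap.ext h3⟩
      rw [h1]
      refine (hPc.preimage hcont).inter ((isClosed_eq hG.continuous continuous_const).inter
        (isClosed_iInter fun u => isClosed_eq (cont_partial hH x₀ u) continuous_const))
    have hKcomp : IsCompact KK := by
      refine (hP.compact.image continuous_snd).of_isClosed_subset hKclosed ?_
      intro y hy
      exact ⟨(x₀, y), hy.1, rfl⟩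
    -- local structure
    have hloc : ∀ y ∈ KK, ∃ μ : ℝ, ∀ᶠ y' in 𝓝 y, G y' = g₀ →
        y' ∈ KK ∧ dif J (fun y => H (x₀, y)) y' = μ • dif J G y' := by
      intro y hy
      obtain ⟨μ, hμ⟩ := dep_man hG (sm_right hH x₀) (hdep x₀) (hKG y hy)
      refine ⟨μ, ?_⟩
      have hyV : (x₀, y) ∈ V := by
        have := hy.1
        rw [hPV] at this
        exact this.2
      have hyc : H (x₀, y) = c := by
        have := hy.1
        rw [hPV] at this
        exact this.1
      filter_upwards [hμ, eventually_dif_ne hG (hKG y hy),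
        hcont.continuousAt.preimage_mem_nhds (hV.mem_nhds hyV)] with y' h1 h2 h3 h4
      obtain ⟨h5, h6⟩ := h1 (h4.trans hy.2.1.symm)
      have h7 : (x₀, y') ∈ P := by
        rw [hPV]
        exact ⟨(show H (x₀, y') = H (x₀, y) from h5).trans hyc, h3⟩
      refine ⟨⟨h7, h4, ?_⟩, h6⟩
      rcases dich x₀ y' h7 h4 with h8 | h8
      · exact h8.2
      · exact absurd h8.1 h2
    have hK : IsPiece J b w' G KK := by
      refine ⟨hKcomp, ⟨p.2, hp, rfl, ?_⟩, ⟨g₀, interior {y | G y = g₀ → y ∈ KK}, isOpen_interior,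
        ?_⟩, hKG, ?_⟩
      · rcases dich x₀ p.2 hp rfl with h | h
        · exact h.2
        · exact absurd h.1 hGp
      · ext y
        constructor
        · intro hy
          refine ⟨hy.2.1, mem_interior_iff_mem_nhds.2 ?_⟩
          obtain ⟨μ, hμ⟩ := hloc y hy
          filter_upwards [hμ] with y' h1 h2
          exact (h1 h2).1
        · rintro ⟨h1, h2⟩
          exact interior_subset h2 h1
      · intro hb
        obtain ⟨U, Z, hU, hPU, hZ, hZt⟩ := hP.contact hb
        refine ⟨{y | (x₀, y) ∈ U}, fun y => (Z (x₀, y)).2, hU.preimage hcont,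
          fun y hy => hPU hy.1, liouville_right hZ x₀, ?_⟩
        intro y hy h0
        apply hZt _ hy.1
        rw [dif_prod hH, hy.2.2, hdep x₀ y _ h0]
        simp
    obtain ⟨η, hη1, ⟨T, hT, hη2⟩, hη3⟩ := hWG _ hK
    choose m hm using fun t => hloc (η t) (hη3 t)
    have hηc : Continuous η := by
      rw [continuous_iff_continuousAt]
      intro t
      obtain ⟨v, h1, -⟩ := hη1 t
      exact h1.continuousAt
    have hm' : ∀ t, dif J (fun y => H (x₀, y)) (η t) = m t • dif J G (η t) := fun t =>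
      ((hm t).self_of_nhds (hη3 t).2.1).2
    have hlc : IsLocallyConstant m := by
      rw [IsLocallyConstant.iff_eventually_eq]
      intro t
      filter_upwards [hηc.continuousAt.eventually (hm t)] with s hs
      have h1 := (hs (hη3 s).2.1).2
      have h2 := hm' s
      rw [h1] at h2
      by_contra hne
      apply hKG _ (hη3 s)
      refine ContinuousLinearMap.ext fun v => ?_
      have h3 : m t * dif J G (η s) v = m s * dif J G (η s) v := DFunLike.congr_fun h2 v
      have h4 : (m s - m t) * dif J G (η s) v = 0 := by linarith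
      exact (mul_eq_zero.1 h4).resolve_left (sub_ne_zero.2 hne)
    set μ := m 0 with hμ
    have hmμ : ∀ t, dif J (fun y => H (x₀, y)) (η t) = μ • dif J G (η t) := by
      intro t
      rw [hm' t, hlc.apply_eq_of_preconnectedSpace t 0]
    have hμ0 : μ ≠ 0 := by
      intro h0
      apply hP.regular _ (hη3 0).1
      refine ContinuousLinearMap.ext fun u => ?_
      rw [dif_prod hH, (hη3 0).2.2, hmμ 0, h0]
      simp
    refine ⟨fun t => (x₀, η (μ * t)), ⟨orbit_right hH hη1 (fun t => (hη3 t).2.2) hmμ,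
      ⟨T / |μ|, by positivity, fun t => ?_⟩, fun t => (hη3 _).1⟩, fun t => (hη3 _).2.1⟩
    have hper : Function.Periodic η T := hη2
    rcases lt_or_gt_of_ne hμ0 with h | h
    · have h1 : μ * (t + T / |μ|) = μ * t - T := by
        rw [abs_of_neg h]
        field_simp
        ring
      simp only [h1, hper.sub_eq]
    · have h1 : μ * (t + T / |μ|) = μ * t + T := by
        rw [abs_of_pos h]
        field_simp
      simp only [h1, hper _]

/-- **Closure under composition.** -/
theorem wein_comp {b : Prop} {H : M × N → ℝ} (hH : Sm (I.prod J) H) {G : N → ℝ} (hG : Sm J G)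
    (hdep : ∀ x y v, dif J G y v = 0 → dif J (fun y => H (x, y)) y v = 0)
    (hWG : Wein J b w' G)
    (hWH : ∀ y, dif J G y = 0 → Wein I b w (fun x => H (x, y))) :
    Wein (I.prod J) b (prodForm w w') H := by
  intro P hP
  have hcont : Continuous (fun q : M × N => G q.2) := hG.continuous.comp continuous_snd
  obtain ⟨p, hp, hmax⟩ := hP.compact.exists_isMaxOn hP.nonempty hcont.continuousOn
  obtain ⟨γ, h, -⟩ := step hH hG hdep hWG hWH hP hp (Or.inl fun q hq => hmax hq)
  exact ⟨γ, h⟩

/-- Two periodic orbits. -/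
theorem two_orbits {b : Prop} {H : M × N → ℝ} (hH : Sm (I.prod J) H) {G : N → ℝ} (hG : Sm J G)
    (hdep : ∀ x y v, dif J G y v = 0 → dif J (fun y => H (x, y)) y v = 0)
    (hWG : Wein J b w' G)
    (hWH : ∀ y, dif J G y = 0 → Wein I b w (fun x => H (x, y)))
    {P : Set (M × N)} (hP : IsPiece (I.prod J) b (prodForm w w') H P)
    (hne : ∃ q ∈ P, ∃ q' ∈ P, G q.2 ≠ G q'.2) :
    ∃ γ γ', IsPeriodicIn (I.prod J) (prodForm w w') H P γ ∧
      IsPeriodicIn (I.prod J) (prodForm w w') H P γ' ∧ ∀ s t, γ s ≠ γ' t := by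
  have hcont : Continuous (fun q : M × N => G q.2) := hG.continuous.comp continuous_snd
  obtain ⟨p, hp, hmax⟩ := hP.compact.exists_isMaxOn hP.nonempty hcont.continuousOn
  obtain ⟨p', hp', hmin⟩ := hP.compact.exists_isMinOn hP.nonempty hcont.continuousOn
  obtain ⟨γ, h1, h2⟩ := step hH hG hdep hWG hWH hP hp (Or.inl fun q hq => hmax hq)
  obtain ⟨γ', h3, h4⟩ := step hH hG hdep hWG hWH hP hp' (Or.inr fun q hq => hmin hq)
  refine ⟨γ, γ', h1, h3, fun s t hst => ?_⟩
  obtain ⟨q, hq, q', hq', hqq⟩ := hne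
  apply hqq
  have h5 : G p.2 = G p'.2 := by rw [← h2 s, ← h4 t, hst]
  have h6 : G q.2 ≤ G p.2 := hmax hq
  have h7 : G q'.2 ≤ G p.2 := hmax hq'
  have h8 : G p'.2 ≤ G q.2 := hmin hq
  have h9 : G p'.2 ≤ G q'.2 := hmin hq'
  linarith

end Pool.Agent.J4.H27.Wn
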