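import Mathlib
import Pool.Agent.J4.H27.Wn.Step

open scoped Topology ContDiff Manifold
open Set Filter

noncomputable section

namespace Pool.Agent.J4.H27.Wn

set_option linter.unusedSectionVars false

variable {E : Type*} [NormedAddCommGroup E] [NormedSpace ℝ E] [CompleteSpace E]
  {K : Type*} [TopologicalSpace K] {I : ModelWithCorners ℝ E K} [I.Boundaryless]
  {M : Type*} [TopologicalSpace M] [ChartedSpace K M] [IsManifold I ∞ M]
  {E' : Type*} [NormedAddCommGroup E'] [NormedSpace ℝ E'] [CompleteSpace E']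
  {K' : Type*} [TopologicalSpace K'] {J : ModelWithCorners ℝ E' K'} [J.Boundaryless]
  {N : Type*} [TopologicalSpace N] [ChartedSpace K' N] [IsManifold J ∞ N]

section chart

variable {H : M × N → ℝ} (x : M) (y₁ : N)

/-- the function in the product chart -/
def inCh (I : ModelWithCorners ℝ E K) (J : ModelWithCorners ℝ E' K') (H : M × N → ℝ) (x : M)
    (y₁ : N) (z : E × E') : ℝ := H ((extChartAt I x).symm z.1, (extChartAt J y₁).symm z.2)

lemma inCh_eq : inCh I J H x y₁ = fun z => H ((extChartAt (I.prod J) (x, y₁)).symm z) := by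
  funext z
  rw [extChartAt_prod]; rfl

lemma target_prod : (extChartAt (I.prod J) (x, y₁)).target =
    (extChartAt I x).target ×ˢ (extChartAt J y₁).target := by
  rw [extChartAt_prod]; rfl

lemma symm_prod (z : E × E') : (extChartAt (I.prod J) (x, y₁)).symm z =
    ((extChartAt I x).symm z.1, (extChartAt J y₁).symm z.2) := by
  rw [extChartAt_prod]; rfl

lemma inCh_contDiff (hH : Sm (I.prod J) H) : ContDiffOn ℝ ∞ (inCh I J H x y₁)
    ((extChartAt I x).target ×ˢ (extChartAt J y₁).target) := by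
  rw [inCh_eq, ← target_prod]
  exact contDiffOn_chart hH (x, y₁)

lemma isOpen_tp : IsOpen ((extChartAt I x).target ×ˢ (extChartAt J y₁).target) :=
  (isOpen_extChartAt_target x).prod (isOpen_extChartAt_target y₁)

lemma inCh_fderiv (hH : Sm (I.prod J) H) {a : E} {b : E'} (ha : a ∈ (extChartAt I x).target)
    (hb : b ∈ (extChartAt J y₁).target) (u : E × E') :
    fderiv ℝ (inCh I J H x y₁) (a, b) u =
      dif I (fun x' => H (x', (extChartAt J y₁).symm b)) ((extChartAt I x).symm a)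
        (dSymm I x a u.1) +
      dif J (fun y' => H ((extChartAt I x).symm a, y')) ((extChartAt J y₁).symm b)
        (dSymm J y₁ b u.2) := by
  have h2 : (a, b) ∈ (extChartAt (I.prod J) (x, y₁)).target := by
    rw [target_prod]
    exact ⟨ha, hb⟩
  rw [inCh_eq, fderiv_chart hH (x, y₁) h2, dSymm_prod x y₁ ha hb, symm_prod, dif_prod hH]

lemma dif_dSymm_self {h : M → ℝ} (hh : Sm I h) (u : E) :
    dif I h x (dSymm I x (extChartAt I x x) u) = dif I h x u := by
  have h3 := fderiv_chart hh x (mem_extChartAt_target (I := I) x) u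
  rw [← dif_self hh, (extChartAt I x).left_inv (mem_extChartAt_source x)] at h3
  exact h3.symm

/-- the partial derivative in charts -/
lemma partial_eq (hH : Sm (I.prod J) H) {y : N} (hy : y ∈ (extChartAt J y₁).source) (u : E) :
    fderiv ℝ (inCh I J H x y₁) (extChartAt I x x, extChartAt J y₁ y) (u, 0) =
      dif I (fun x => H (x, y)) x u := by
  rw [inCh_fderiv x y₁ hH (mem_extChartAt_target x) ((extChartAt J y₁).map_source hy),
    (extChartAt I x).left_inv (mem_extChartAt_source x), (extChartAt J y₁).left_inv hy]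
  simp only [map_zero, add_zero]
  exact dif_dSymm_self x (sm_left hH y) u

end chart

/-- The partial derivative of a smooth function is a smooth function of the other variable. -/
lemma sm_partial {H : M × N → ℝ} (hH : Sm (I.prod J) H) (x : M) (u : E) :
    Sm J (fun y => dif I (fun x => H (x, y)) x u) := by
  intro y₁
  have h1 : ContDiffOn ℝ ∞ (fderiv ℝ (inCh I J H x y₁))
      ((extChartAt I x).target ×ˢ (extChartAt J y₁).target) :=
    (inCh_contDiff x y₁ hH).fderiv_of_isOpen (isOpen_tp x y₁) (by simp)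
  have h2 : ContDiffAt ℝ ∞ (fun b : E' => fderiv ℝ (inCh I J H x y₁) (extChartAt I x x, b) (u, 0))
      (extChartAt J y₁ y₁) := by
    have h3 : ContDiffAt ℝ ∞ (fderiv ℝ (inCh I J H x y₁))
        (extChartAt I x x, extChartAt J y₁ y₁) :=
      h1.contDiffAt ((isOpen_tp x y₁).mem_nhds ⟨mem_extChartAt_target x, mem_extChartAt_target y₁⟩)
    have h4 : ContDiffAt ℝ ∞ (fun b : E' => (extChartAt I x x, b)) (extChartAt J y₁ y₁) :=
      contDiffAt_const.prodMk contDiffAt_id
    exact (ContDiffAt.comp (extChartAt J y₁ y₁) h3 h4).clm_apply contDiffAt_const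
  have h3 : ContMDiffAt J 𝓘(ℝ, ℝ) ∞ (fun y : N =>
      fderiv ℝ (inCh I J H x y₁) (extChartAt I x x, extChartAt J y₁ y) (u, 0)) y₁ :=
    ContMDiffAt.comp (g := fun b : E' => fderiv ℝ (inCh I J H x y₁) (extChartAt I x x, b) (u, 0))
      (f := extChartAt J y₁) y₁ h2.contMDiffAt contMDiffAt_extChartAt
  refine h3.congr_of_eventuallyEq ?_
  filter_upwards [(isOpen_extChartAt_source (I := J) y₁).mem_nhds (mem_extChartAt_source y₁)]
    with y hy
  exact (partial_eq x y₁ hH hy u).symm

/-- mixed partial derivatives -/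
lemma partial_dep {H : M × N → ℝ} (hH : Sm (I.prod J) H) {G : N → ℝ} (hG : Sm J G)
    (hdep : ∀ x y v, dif J G y v = 0 → dif J (fun y => H (x, y)) y v = 0)
    (x : M) (u : E) (y₁ : N) (v : E') (hv : dif J G y₁ v = 0) :
    dif J (fun y => dif I (fun x => H (x, y)) x u) y₁ v = 0 := by
  set φ := extChartAt I x with hφ
  set ψ := extChartAt J y₁ with hψ
  set F := inCh I J H x y₁ with hF
  have hFc := inCh_contDiff x y₁ hH
  have hmem : (φ x, ψ y₁) ∈ φ.target ×ˢ ψ.target :=
    ⟨mem_extChartAt_target x, mem_extChartAt_target y₁⟩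
  have hFat : ContDiffAt ℝ ∞ F (φ x, ψ y₁) := hFc.contDiffAt ((isOpen_tp x y₁).mem_nhds hmem)
  have hD : HasFDerivAt (fderiv ℝ F) (fderiv ℝ (fderiv ℝ F) (φ x, ψ y₁)) (φ x, ψ y₁) :=
    ((hFat.fderiv_right (m := ∞) (by simp)).differentiableAt (by simp)).hasFDerivAt
  -- the derivative in the direction `v`
  have hv0 : dif J G y₁ (dSymm J y₁ (ψ y₁) v) = 0 := by
    rw [hψ, dif_dSymm_self y₁ hG]; exact hv
  have hzero : ∀ a ∈ φ.target, fderiv ℝ F (a, ψ y₁) (0, v) = 0 := by
    intro a ha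
    rw [hF, inCh_fderiv x y₁ hH ha (mem_extChartAt_target y₁)]
    rw [(extChartAt J y₁).left_inv (mem_extChartAt_source y₁)]
    simp only [map_zero, zero_add]
    exact hdep _ _ _ hv0
  have h1 : HasFDerivAt (fun a : E => fderiv ℝ F (a, ψ y₁) (0, v))
      (((ContinuousLinearMap.apply ℝ ℝ ((0, v) : E × E')).comp
        (fderiv ℝ (fderiv ℝ F) (φ x, ψ y₁))).comp (ContinuousLinearMap.inl ℝ E E')) (φ x) := by
    have h2 : HasFDerivAt (fun a : E => (a, ψ y₁)) (ContinuousLinearMap.inl ℝ E E') (φ x) := by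
      have := (hasFDerivAt_id (𝕜 := ℝ) (φ x)).prodMk (hasFDerivAt_const (ψ y₁) (φ x))
      exact this
    have h3 : HasFDerivAt (fun z : E × E' => fderiv ℝ F z (0, v))
        ((ContinuousLinearMap.apply ℝ ℝ ((0, v) : E × E')).comp
        (fderiv ℝ (fderiv ℝ F) (φ x, ψ y₁))) (φ x, ψ y₁) :=
      (ContinuousLinearMap.apply ℝ ℝ ((0, v) : E × E')).hasFDerivAt.comp _ hD
    exact h3.comp (φ x) h2
  have h2 : HasFDerivAt (fun a : E => fderiv ℝ F (a, ψ y₁) (0, v)) (0 : E →L[ℝ] ℝ) (φ x) := by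
    refine (hasFDerivAt_const (0:ℝ) (φ x)).congr_of_eventuallyEq ?_
    filter_upwards [(isOpen_extChartAt_target (I := I) x).mem_nhds (mem_extChartAt_target x)]
      with a ha
    exact hzero a ha
  have h3 : fderiv ℝ (fderiv ℝ F) (φ x, ψ y₁) (u, 0) (0, v) = 0 :=
    DFunLike.congr_fun (h1.unique h2) u
  have hsymm : fderiv ℝ (fderiv ℝ F) (φ x, ψ y₁) (0, v) (u, 0) =
      fderiv ℝ (fderiv ℝ F) (φ x, ψ y₁) (u, 0) (0, v) := by
    have := hFat.isSymmSndFDerivAt (by
      simp only [minSmoothness_of_isRCLikeNormedField]; exact ENat.LEInfty.out)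
    exact this (0, v) (u, 0)
  -- the derivative of the partial derivative
  have hk := sm_partial hH x u
  rw [dif_self hk]
  have h4 : (fun b => dif I (fun x => H (x, (extChartAt J y₁).symm b)) x u) =ᶠ[𝓝 (ψ y₁)]
      fun b => fderiv ℝ F (φ x, b) (u, 0) := by
    filter_upwards [(isOpen_extChartAt_target (I := J) y₁).mem_nhds (mem_extChartAt_target y₁)]
      with b hb
    have h5 := partial_eq x y₁ hH (ψ.map_target hb) u
    rw [show extChartAt J y₁ (ψ.symm b) = b from ψ.right_inv hb] at h5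
    exact h5.symm
  rw [h4.fderiv_eq]
  have h5 : HasFDerivAt (fun b : E' => fderiv ℝ F (φ x, b) (u, 0))
      (((ContinuousLinearMap.apply ℝ ℝ ((u, 0) : E × E')).comp
        (fderiv ℝ (fderiv ℝ F) (φ x, ψ y₁))).comp (ContinuousLinearMap.inr ℝ E E')) (ψ y₁) := by
    have h2 : HasFDerivAt (fun b : E' => (φ x, b)) (ContinuousLinearMap.inr ℝ E E') (ψ y₁) := by
      have := (hasFDerivAt_const (𝕜 := ℝ) (φ x) (ψ y₁)).prodMk (hasFDerivAt_id (ψ y₁))
      exact this
    have h3 : HasFDerivAt (fun z : E × E' => fderiv ℝ F z (u, 0))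
        ((ContinuousLinearMap.apply ℝ ℝ ((u, 0) : E × E')).comp
        (fderiv ℝ (fderiv ℝ F) (φ x, ψ y₁))) (φ x, ψ y₁) :=
      (ContinuousLinearMap.apply ℝ ℝ ((u, 0) : E × E')).hasFDerivAt.comp _ hD
    exact h3.comp (ψ y₁) h2
  rw [h5.fderiv]
  show fderiv ℝ (fderiv ℝ F) (φ x, ψ y₁) (0, v) (u, 0) = 0
  rw [hsymm, h3]

/-- The partial differential is locally constant along level sets of `G` near regular points. -/
lemma part_const [FiniteDimensional ℝ E] {H : M × N → ℝ} (hH : Sm (I.prod J) H) {G : N → ℝ}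
    (hG : Sm J G)
    (hdep : ∀ x y v, dif J G y v = 0 → dif J (fun y => H (x, y)) y v = 0)
    (x : M) {y : N} (hreg : dif J G y ≠ 0) :
    ∀ᶠ y' in 𝓝 y, G y' = G y → dif I (fun x => H (x, y')) x = dif I (fun x => H (x, y)) x := by
  let b := Module.finBasis ℝ E
  have h1 : ∀ i, ∀ᶠ y' in 𝓝 y, G y' = G y →
      dif I (fun x => H (x, y')) x (b i) = dif I (fun x => H (x, y)) x (b i) := by
    intro i
    obtain ⟨μ, hμ⟩ := dep_man hG (sm_partial hH x (b i))
      (fun y v hv => partial_dep hH hG hdep x (b i) y v hv) hreg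
    filter_upwards [hμ] with y' h2 h3
    exact (h2 h3).1
  filter_upwards [Filter.eventually_all.2 h1] with y' h2 h3
  have h4 : ((dif I (fun x => H (x, y')) x : E →L[ℝ] ℝ) : E →ₗ[ℝ] ℝ) =
      (dif I (fun x => H (x, y)) x : E →L[ℝ] ℝ) := b.ext fun i => h2 i h3
  ext u
  exact DFunLike.congr_fun h4 u

end Pool.Agent.J4.H27.Wn
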