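import Mathlib
import Pool.Agent.J4.H27.Wn.Mixed

open scoped Topology ContDiff Manifold
open Set Filter

noncomputable section

namespace Pool.Agent.J4.H27.Wn

set_option linter.unusedSectionVars false

/-- A parametric intermediate value theorem. -/
lemma ivt_param {X : Type*} [TopologicalSpace X] {f : ℝ × X → ℝ} {z₀ : X} {c d : ℝ}
    (hf : ∀ᶠ p in 𝓝 ((0 : ℝ), z₀), ContinuousAt f p) (h0 : f (0, z₀) = c)
    (hd : HasDerivAt (fun s => f (s, z₀)) d 0) (hd0 : 0 < d) {δ : ℝ} (hδ : 0 < δ) :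
    ∀ᶠ z in 𝓝 z₀, ∃ s, |s| < δ ∧ f (s, z) = c := by
  -- a box of continuity
  rw [nhds_prod_eq, Filter.eventually_prod_iff] at hf
  obtain ⟨p, hp, q, hq, hpq⟩ := hf
  obtain ⟨ε, hε, hε'⟩ := Metric.eventually_nhds_iff.1 hp
  have hpos : ∀ᶠ s in 𝓝[>] (0:ℝ), c < f (s, z₀) := by
    have h1 : ∀ᶠ s in 𝓝[>] (0:ℝ), 0 < slope (fun s => f (s, z₀)) 0 s := by
      have h2 := (hasDerivAt_iff_tendsto_slope.1 hd).eventually (lt_mem_nhds hd0)
      exact h2.filter_mono (nhdsWithin_mono 0 (fun s hs => ne_of_gt hs))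
    filter_upwards [h1, self_mem_nhdsWithin] with s hs1 hs2
    have hs3 : (0:ℝ) < s := hs2
    rw [slope_def_field, h0] at hs1
    have : 0 < f (s, z₀) - c := by
      by_contra hcon
      push Not at hcon
      have := div_nonpos_of_nonpos_of_nonneg hcon (by linarith : (0:ℝ) ≤ s - 0)
      linarith
    linarith
  have hneg : ∀ᶠ s in 𝓝[<] (0:ℝ), f (s, z₀) < c := by
    have h1 : ∀ᶠ s in 𝓝[<] (0:ℝ), 0 < slope (fun s => f (s, z₀)) 0 s := by
      have h2 := (hasDerivAt_iff_tendsto_slope.1 hd).eventually (lt_mem_nhds hd0)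
      exact h2.filter_mono (nhdsWithin_mono 0 (fun s hs => ne_of_lt hs))
    filter_upwards [h1, self_mem_nhdsWithin] with s hs1 hs2
    have hs3 : s < (0:ℝ) := hs2
    rw [slope_def_field, h0] at hs1
    have : f (s, z₀) - c < 0 := by
      by_contra hcon
      push Not at hcon
      have := div_nonpos_of_nonneg_of_nonpos hcon (by linarith : s - 0 ≤ (0:ℝ))
      linarith
    linarith
  obtain ⟨s₁, hs₁, hs₁0, hs₁m⟩ : ∃ s₁, c < f (s₁, z₀) ∧ 0 < s₁ ∧ s₁ < min δ ε := by
    have h1 : ∀ᶠ s in 𝓝[>] (0:ℝ), s ∈ Ioo 0 (min δ ε) :=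
      Ioo_mem_nhdsGT (by positivity)
    obtain ⟨s, hs1, hs2⟩ := (hpos.and h1).exists
    exact ⟨s, hs1, hs2.1, hs2.2⟩
  obtain ⟨s₂, hs₂, hs₂0, hs₂m⟩ : ∃ s₂, f (s₂, z₀) < c ∧ s₂ < 0 ∧ - min δ ε < s₂ := by
    have h1 : ∀ᶠ s in 𝓝[<] (0:ℝ), s ∈ Ioo (- min δ ε) 0 :=
      Ioo_mem_nhdsLT (by simp only [Left.neg_neg_iff]; positivity)
    obtain ⟨s, hs1, hs2⟩ := (hneg.and h1).exists
    exact ⟨s, hs1, hs2.2, hs2.1⟩
  have hmε := min_le_right δ ε
  have hmδ := min_le_left δ ε
  have hin : ∀ s, s₂ ≤ s → s ≤ s₁ → p s := by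
    intro s h1 h2
    apply hε'
    rw [Real.dist_eq, sub_zero, abs_lt]
    constructor <;> linarith
  have hcs : ∀ s, s₂ ≤ s → s ≤ s₁ → ContinuousAt (fun z => f (s, z)) z₀ := by
    intro s h1 h2
    have h3 : ContinuousAt f (s, z₀) := hpq (hin s h1 h2) hq.self_of_nhds
    exact ContinuousAt.comp (g := f) (f := fun z => (s, z)) h3
      (continuousAt_const.prodMk continuousAt_id)
  have e1 : ∀ᶠ z in 𝓝 z₀, c < f (s₁, z) :=
    (hcs s₁ (by linarith) le_rfl).eventually (lt_mem_nhds hs₁)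
  have e2 : ∀ᶠ z in 𝓝 z₀, f (s₂, z) < c :=
    (hcs s₂ le_rfl (by linarith)).eventually (gt_mem_nhds hs₂)
  filter_upwards [e1, e2, hq] with z h1 h2 h3
  have hcont : ContinuousOn (fun s => f (s, z)) (Icc s₂ s₁) := by
    intro s hs
    have h4 : ContinuousAt f (s, z) := hpq (hin s hs.1 hs.2) h3
    exact (ContinuousAt.comp (g := f) (f := fun s => (s, z)) h4
      (continuousAt_id.prodMk continuousAt_const)).continuousWithinAt
  obtain ⟨s, hs, hsc⟩ := intermediate_value_Icc (by linarith) hcont ⟨h2.le, h1.le⟩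
  refine ⟨s, ?_, hsc⟩
  rw [abs_lt]
  constructor <;> linarith [hs.1, hs.2]

section line

variable {E : Type*} [NormedAddCommGroup E] [NormedSpace ℝ E] [CompleteSpace E]
  {K : Type*} [TopologicalSpace K] {I : ModelWithCorners ℝ E K} [I.Boundaryless]
  {M : Type*} [TopologicalSpace M] [ChartedSpace K M] [IsManifold I ∞ M]

/-- the straight line in the chart at `x₀` starting at `x` in the direction `u` -/
def lin (I : ModelWithCorners ℝ E K) (x₀ : M) (u : E) (p : ℝ × M) : M :=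
  (extChartAt I x₀).symm (extChartAt I x₀ p.2 + p.1 • u)

lemma lin_cont (x₀ : M) (u : E) :
    ∀ᶠ p in 𝓝 ((0 : ℝ), x₀), ContinuousAt (lin I x₀ u) p := by
  have h1 : ContinuousAt (fun p : ℝ × M => extChartAt I x₀ p.2 + p.1 • u) (0, x₀) := by
    have h2 : ContinuousAt (fun p : ℝ × M => extChartAt I x₀ p.2) (0, x₀) :=
      ContinuousAt.comp (g := extChartAt I x₀) (f := fun p : ℝ × M => p.2)
        (continuousAt_extChartAt x₀) continuousAt_snd
    exact h2.add (continuousAt_fst.smul continuousAt_const)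
  have h2 : ∀ᶠ p in 𝓝 ((0 : ℝ), x₀), extChartAt I x₀ p.2 + p.1 • u ∈
      (extChartAt I x₀).target := by
    apply h1.preimage_mem_nhds
    simp only [zero_smul, add_zero]
    exact (isOpen_extChartAt_target x₀).mem_nhds (mem_extChartAt_target x₀)
  have h3 : ∀ᶠ p in 𝓝 ((0 : ℝ), x₀), p.2 ∈ (extChartAt I x₀).source :=
    continuousAt_snd.preimage_mem_nhds ((isOpen_extChartAt_source (I := I) x₀).mem_nhds
      (mem_extChartAt_source x₀))
  filter_upwards [h2, h3] with p hp1 hp2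
  have h4 : ContinuousAt (fun p : ℝ × M => extChartAt I x₀ p.2 + p.1 • u) p := by
    have h5 : ContinuousAt (fun p : ℝ × M => extChartAt I x₀ p.2) p :=
      ContinuousAt.comp (g := extChartAt I x₀) (f := fun p : ℝ × M => p.2)
        (continuousAt_extChartAt' hp2) continuousAt_snd
    exact h5.add (continuousAt_fst.smul continuousAt_const)
  have h5 : ContinuousAt (extChartAt I x₀).symm (extChartAt I x₀ p.2 + p.1 • u) :=
    (continuousOn_extChartAt_symm x₀).continuousAt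
      ((isOpen_extChartAt_target x₀).mem_nhds hp1)
  exact ContinuousAt.comp (g := (extChartAt I x₀).symm)
    (f := fun p : ℝ × M => extChartAt I x₀ p.2 + p.1 • u) h5 h4

lemma lin_zero (x₀ : M) (u : E) {x : M} (hx : x ∈ (extChartAt I x₀).source) :
    lin I x₀ u (0, x) = x := by
  simp only [lin, zero_smul, add_zero]
  exact (extChartAt I x₀).left_inv hx

lemma lin_deriv {h : M → ℝ} (hh : Sm I h) (x₀ : M) (u : E) :
    HasDerivAt (fun s : ℝ => h (lin I x₀ u (s, x₀))) (dif I h x₀ u) 0 := by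
  have h1 : HasFDerivAt (fun y => h ((extChartAt I x₀).symm y)) (dif I h x₀)
      (extChartAt I x₀ x₀) := by
    have h2 := ((contDiffOn_chart hh x₀).contDiffAt ((isOpen_extChartAt_target x₀).mem_nhds
      (mem_extChartAt_target x₀))).differentiableAt (by simp)
    rw [dif_self hh]
    exact h2.hasFDerivAt
  have h2 : HasDerivAt (fun s : ℝ => extChartAt I x₀ x₀ + s • u) u 0 := by
    have := ((hasDerivAt_id (0:ℝ)).smul_const u).const_add (extChartAt I x₀ x₀)
    simpa using this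
  have h3 : extChartAt I x₀ x₀ = extChartAt I x₀ x₀ + (0:ℝ) • u := by simp
  rw [h3] at h1
  exact HasFDerivAt.comp_hasDerivAt (x := (0:ℝ))
    (f := fun s : ℝ => extChartAt I x₀ x₀ + s • u) h1 h2

end line

variable {E : Type*} [NormedAddCommGroup E] [NormedSpace ℝ E] [FiniteDimensional ℝ E]
  {K : Type*} [TopologicalSpace K] {I : ModelWithCorners ℝ E K} [I.Boundaryless]
  {M : Type*} [TopologicalSpace M] [ChartedSpace K M] [IsManifold I ∞ M]
  {E' : Type*} [NormedAddCommGroup E'] [NormedSpace ℝ E'] [FiniteDimensional ℝ E']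
  {K' : Type*} [TopologicalSpace K'] {J : ModelWithCorners ℝ E' K'} [J.Boundaryless]
  {N : Type*} [TopologicalSpace N] [ChartedSpace K' N] [IsManifold J ∞ N]
  {w : M → E →L[ℝ] E →L[ℝ] ℝ} {w' : N → E' →L[ℝ] E' →L[ℝ] ℝ}

/-- **The projection of a level set is open near points where `d_x H ≠ 0`.** -/
lemma open_image {H : M × N → ℝ} (hH : Sm (I.prod J) H) {x₀ : M} {y₀ : N} {V : Set (M × N)}
    (hV : IsOpen V) (hxV : (x₀, y₀) ∈ V) (hne : dif I (fun x => H (x, y₀)) x₀ ≠ 0) :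
    ∀ᶠ y in 𝓝 y₀, ∃ x, H (x, y) = H (x₀, y₀) ∧ (x, y) ∈ V := by
  obtain ⟨u, hu⟩ : ∃ u, 0 < dif I (fun x => H (x, y₀)) x₀ u := by
    obtain ⟨v, hv⟩ : ∃ v, dif I (fun x => H (x, y₀)) x₀ v ≠ 0 := by
      by_contra hcon
      push Not at hcon
      exact hne (ContinuousLinearMap.ext hcon)
    rcases lt_or_gt_of_ne hv with h | h
    · exact ⟨-v, by rw [map_neg]; linarith⟩
    · exact ⟨v, h⟩
  let g : ℝ × N → M × N := fun p => (lin I x₀ u (p.1, x₀), p.2)
  have hg0 : g (0, y₀) = (x₀, y₀) := by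
    simp only [g, lin_zero x₀ u (mem_extChartAt_source x₀)]
  have hgc : ∀ᶠ p in 𝓝 ((0 : ℝ), y₀), ContinuousAt g p := by
    have h1 : Tendsto (fun p : ℝ × N => (p.1, x₀)) (𝓝 (0, y₀)) (𝓝 (0, x₀)) :=
      (Continuous.continuousAt (by fun_prop : Continuous fun p : ℝ × N => (p.1, x₀))).tendsto
    filter_upwards [h1.eventually (lin_cont (I := I) x₀ u)] with p hp
    have h2 : ContinuousAt (fun p : ℝ × N => lin I x₀ u (p.1, x₀)) p :=
      ContinuousAt.comp (g := lin I x₀ u) (f := fun p : ℝ × N => (p.1, x₀)) hp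
        (Continuous.continuousAt (by fun_prop))
    exact h2.prodMk continuousAt_snd
  have hgV : ∀ᶠ p in 𝓝 ((0 : ℝ), y₀), g p ∈ V := by
    apply hgc.self_of_nhds.preimage_mem_nhds
    rw [hg0]
    exact hV.mem_nhds hxV
  rw [nhds_prod_eq, Filter.eventually_prod_iff] at hgV
  obtain ⟨p, hp, q, hq, hpq⟩ := hgV
  obtain ⟨δ, hδ, hδ'⟩ := Metric.eventually_nhds_iff.1 hp
  have hd : HasDerivAt (fun s : ℝ => (fun p => H (g p)) (s, y₀))
      (dif I (fun x => H (x, y₀)) x₀ u) 0 := lin_deriv (sm_left hH y₀) x₀ u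
  have h1 := ivt_param (f := fun p => H (g p)) (z₀ := y₀) (c := H (x₀, y₀))
    (by
      filter_upwards [hgc] with p hp
      exact ContinuousAt.comp (g := H) (f := g) hH.continuous.continuousAt hp)
    (by simp only [hg0]) hd hu hδ
  filter_upwards [h1, hq] with y hy1 hy2
  obtain ⟨s, hs, hsc⟩ := hy1
  refine ⟨lin I x₀ u (s, x₀), hsc, ?_⟩
  exact hpq (hδ' (by rwa [Real.dist_eq, sub_zero])) hy2

variable [T2Space M] [T2Space N]

/-- **A point with `d_x H = 0` forces a periodic orbit.** -/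
theorem slice_right {b : Prop} {H : M × N → ℝ} (hH : Sm (I.prod J) H) {G : N → ℝ} (hG : Sm J G)
    (hdep : ∀ x y v, dif J G y v = 0 → dif J (fun y => H (x, y)) y v = 0)
    (hWG : Wein J b w' G)
    {P : Set (M × N)} (hP : IsPiece (I.prod J) b (prodForm w w') H P) {x₀ : M} {y₀ : N}
    (hp : (x₀, y₀) ∈ P) (h0 : dif I (fun x => H (x, y₀)) x₀ = 0) :
    ∃ γ, IsPeriodicIn (I.prod J) (prodForm w w') H P γ ∧ ∀ t, (γ t).1 = x₀ := by
  obtain ⟨c, V, hV, hPV⟩ := hP.piece
  have hPc : IsClosed P := hP.compact.isClosed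
  set g₀ := G y₀ with hg₀
  set KK : Set N := {y | (x₀, y) ∈ P ∧ G y = g₀ ∧ dif I (fun x => H (x, y)) x₀ = 0} with hKK
  have hKG : ∀ y ∈ KK, dif J G y ≠ 0 := by
    rintro y ⟨h1, h2, h3⟩ h4
    apply hP.regular _ h1
    refine ContinuousLinearMap.ext fun u => ?_
    rw [dif_prod hH, h3, hdep x₀ y _ (by rw [h4]; rfl)]
    simp
  have hcont : Continuous (fun y : N => (x₀, y)) := by fun_prop
  have hKclosed : IsClosed KK := by
    have h1 : KK = {y | (x₀, y) ∈ P} ∩ ({y | G y = g₀} ∩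
        ⋂ u : E, {y | dif I (fun x => H (x, y)) x₀ u = 0}) := by
      ext y
      simp only [hKK, mem_inter_iff, mem_iInter]
      constructor
      · rintro ⟨h1, h2, h3⟩
        refine ⟨h1, h2, fun u => ?_⟩
        show dif I (fun x => H (x, y)) x₀ u = 0
        rw [h3]; rfl
      · rintro ⟨h1, h2, h3⟩
        exact ⟨h1, h2, ContinuousLinearMap.ext h3⟩
    rw [h1]
    refine (hPc.preimage hcont).inter ((isClosed_eq hG.continuous continuous_const).inter
      (isClosed_iInter fun u => isClosed_eq (cont_partial hH x₀ u) continuous_const))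
  have hKcomp : IsCompact KK := by
    refine (hP.compact.image continuous_snd).of_isClosed_subset hKclosed ?_
    intro y hy
    exact ⟨(x₀, y), hy.1, rfl⟩
  -- local structure
  have hloc : ∀ y ∈ KK, ∃ μ : ℝ, ∀ᶠ y' in 𝓝 y, G y' = g₀ →
      y' ∈ KK ∧ dif J (fun y => H (x₀, y)) y' = μ • dif J G y' := by
    intro y hy
    obtain ⟨μ, hμ⟩ := dep_man hG (sm_right hH x₀) (hdep x₀) (hKG y hy)
    refine ⟨μ, ?_⟩
    have hyV : (x₀, y) ∈ V := by
      have := hy.1
      rw [hPV] at this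
      exact this.2
    have hyc : H (x₀, y) = c := by
      have := hy.1
      rw [hPV] at this
      exact this.1
    filter_upwards [hμ, part_const hH hG hdep x₀ (hKG y hy),
      hcont.continuousAt.preimage_mem_nhds (hV.mem_nhds hyV)] with y' h1 h2 h3 h4
    obtain ⟨h5, h6⟩ := h1 (h4.trans hy.2.1.symm)
    have h7 : (x₀, y') ∈ P := by
      rw [hPV]
      exact ⟨(show H (x₀, y') = H (x₀, y) from h5).trans hyc, h3⟩
    exact ⟨⟨h7, h4, (h2 (h4.trans hy.2.1.symm)).trans hy.2.2⟩, h6⟩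
  have hK : IsPiece J b w' G KK := by
    refine ⟨hKcomp, ⟨y₀, hp, rfl, h0⟩, ⟨g₀, interior {y | G y = g₀ → y ∈ KK}, isOpen_interior,
      ?_⟩, hKG, ?_⟩
    · ext y
      constructor
      · intro hy
        refine ⟨hy.2.1, mem_interior_iff_mem_nhds.2 ?_⟩
        obtain ⟨μ, hμ⟩ := hloc y hy
        filter_upwards [hμ] with y' h1 h2
        exact (h1 h2).1
      · rintro ⟨h1, h2⟩
        exact interior_subset h2 h1
    · intro hb
      obtain ⟨U, Z, hU, hPU, hZ, hZt⟩ := hP.contact hb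
      refine ⟨{y | (x₀, y) ∈ U}, fun y => (Z (x₀, y)).2, hU.preimage hcont,
        fun y hy => hPU hy.1, liouville_right hZ x₀, ?_⟩
      intro y hy h0
      apply hZt _ hy.1
      rw [dif_prod hH, hy.2.2, hdep x₀ y _ h0]
      simp
  obtain ⟨η, hη1, ⟨T, hT, hη2⟩, hη3⟩ := hWG _ hK
  choose m hm using fun t => hloc (η t) (hη3 t)
  have hηc : Continuous η := by
    rw [continuous_iff_continuousAt]
    intro t
    obtain ⟨v, h1, -⟩ := hη1 t
    exact h1.continuousAt
  have hm' : ∀ t, dif J (fun y => H (x₀, y)) (η t) = m t • dif J G (η t) := fun t =>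
    ((hm t).self_of_nhds (hη3 t).2.1).2
  have hlc : IsLocallyConstant m := by
    rw [IsLocallyConstant.iff_eventually_eq]
    intro t
    filter_upwards [hηc.continuousAt.eventually (hm t)] with s hs
    have h1 := (hs (hη3 s).2.1).2
    have h2 := hm' s
    rw [h1] at h2
    by_contra hne
    apply hKG _ (hη3 s)
    refine ContinuousLinearMap.ext fun v => ?_
    have h3 : m t * dif J G (η s) v = m s * dif J G (η s) v := DFunLike.congr_fun h2 v
    have h4 : (m s - m t) * dif J G (η s) v = 0 := by linarith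
    exact (mul_eq_zero.1 h4).resolve_left (sub_ne_zero.2 hne)
  set μ := m 0 with hμ
  have hmμ : ∀ t, dif J (fun y => H (x₀, y)) (η t) = μ • dif J G (η t) := by
    intro t
    rw [hm' t, hlc.apply_eq_of_preconnectedSpace t 0]
  have hμ0 : μ ≠ 0 := by
    intro h0
    apply hP.regular _ (hη3 0).1
    refine ContinuousLinearMap.ext fun u => ?_
    rw [dif_prod hH, (hη3 0).2.2, hmμ 0, h0]
    simp
  refine ⟨fun t => (x₀, η (μ * t)), ⟨orbit_right hH hη1 (fun t => (hη3 t).2.2) hmμ,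
    ⟨T / |μ|, by positivity, fun t => ?_⟩, fun t => (hη3 _).1⟩, fun t => rfl⟩
  have hper : Function.Periodic η T := hη2
  rcases lt_or_gt_of_ne hμ0 with h | h
  · have h1 : μ * (t + T / |μ|) = μ * t - T := by
      rw [abs_of_neg h]
      field_simp
      ring
    simp only [h1, hper.sub_eq]
  · have h1 : μ * (t + T / |μ|) = μ * t + T := by
      rw [abs_of_pos h]
      field_simp
    simp only [h1, hper _]

/-- **Theorem A**: if no nonempty compact subset of `N` is open (for instance `N` connected and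
not compact), the Weinstein property of `G` passes to all `H` on `M × N` whose `y`-derivative
vanishes on the kernel of `dG`. -/
theorem wein_noncompact {b : Prop} {H : M × N → ℝ} (hH : Sm (I.prod J) H) {G : N → ℝ}
    (hG : Sm J G)
    (hdep : ∀ x y v, dif J G y v = 0 → dif J (fun y => H (x, y)) y v = 0)
    (hWG : Wein J b w' G) (hN : ∀ C : Set N, IsCompact C → IsOpen C → C = ∅)
    {P : Set (M × N)} (hP : IsPiece (I.prod J) b (prodForm w w') H P) :
    ∃ (x₀ : M) (γ : ℝ → M × N), IsPeriodicIn (I.prod J) (prodForm w w') H P γ ∧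
      ∀ t, (γ t).1 = x₀ := by
  obtain ⟨c, V, hV, hPV⟩ := hP.piece
  by_contra hcon
  have hne : ∀ x y, (x, y) ∈ P → dif I (fun x => H (x, y)) x ≠ 0 := by
    intro x y hxy h0
    exact hcon ⟨x, slice_right hH hG hdep hWG hP hxy h0⟩
  have hcomp : IsCompact (Prod.snd '' P) := hP.compact.image continuous_snd
  have hopen : IsOpen (Prod.snd '' P) := by
    rw [isOpen_iff_mem_nhds]
    rintro y₀ ⟨⟨x₀, y⟩, hp, rfl⟩
    have hp' := hp
    rw [hPV] at hp'
    filter_upwards [open_image hH hV hp'.2 (hne x₀ y hp)] with y' hy'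
    obtain ⟨x, h1, h2⟩ := hy'
    refine ⟨(x, y'), ?_, rfl⟩
    rw [hPV]
    exact ⟨h1.trans hp'.1, h2⟩
  have := hN _ hcomp hopen
  rw [image_eq_empty] at this
  exact hP.nonempty.ne_empty this

end Pool.Agent.J4.H27.Wn
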