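import Mathlib
import Pool.Agent.J4.H27.Wn.PartA

open scoped Topology ContDiff Manifold
open Set Filter

noncomputable section

namespace Pool.Agent.J4.H27.Wn

set_option linter.unusedSectionVars false

variable {E : Type*} [NormedAddCommGroup E] [NormedSpace ℝ E] [FiniteDimensional ℝ E]
  {K : Type*} [TopologicalSpace K] {I : ModelWithCorners ℝ E K} [I.Boundaryless]
  {M : Type*} [TopologicalSpace M] [ChartedSpace K M] [IsManifold I ∞ M]

/-- a smooth path from `x` to `x'` that stays in `W` at all times between `g` and `g'` -/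
def Conn (I : ModelWithCorners ℝ E K) (W : Set (M × ℝ)) (x : M) (g : ℝ) (x' : M) (g' : ℝ) : Prop :=
  ∃ p : ℝ → M, ContMDiff 𝓘(ℝ, ℝ) I ∞ p ∧ (∀ t ≤ 0, p t = x) ∧ (∀ t, 1 ≤ t → p t = x') ∧
    ∀ t, ∀ s ∈ uIcc g g', (p t, s) ∈ W

lemma Conn.symm {W : Set (M × ℝ)} {x : M} {g : ℝ} {x' : M} {g' : ℝ} (h : Conn I W x g x' g') :
    Conn I W x' g' x g := by
  obtain ⟨p, h1, h2, h3, h4⟩ := h
  refine ⟨fun t => p (1 - t), ?_, fun t ht => h3 _ (by linarith), fun t ht => h2 _ (by linarith),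
    fun t s hs => h4 _ s (by rwa [uIcc_comm] at hs)⟩
  have h5 : ContMDiff 𝓘(ℝ, ℝ) 𝓘(ℝ, ℝ) ∞ (fun t : ℝ => 1 - t) := by
    rw [contMDiff_iff_contDiff]
    fun_prop
  exact h1.comp h5

/-- local connections -/
lemma conn_local {F : M × ℝ → ℝ} (hFc : Continuous F) (hFs : ∀ g, Sm I (fun x => F (x, g)))
    {W : Set (M × ℝ)}
    (hW : IsOpen W) {x₀ : M} {g₀ : ℝ} (hxW : (x₀, g₀) ∈ W)
    (hne : dif I (fun x => F (x, g₀)) x₀ ≠ 0) :
    ∃ O : Set M, IsOpen O ∧ x₀ ∈ O ∧ ∃ ε > (0:ℝ), ∀ x ∈ O, ∀ g g' : ℝ, |g - g₀| < ε →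
      |g' - g₀| < ε → ∃ x', F (x', g') = F (x₀, g₀) ∧ Conn I W x g x' g' := by
  obtain ⟨u, hu⟩ : ∃ u, 0 < dif I (fun x => F (x, g₀)) x₀ u := by
    obtain ⟨v, hv⟩ : ∃ v, dif I (fun x => F (x, g₀)) x₀ v ≠ 0 := by
      by_contra hcon
      push Not at hcon
      exact hne (ContinuousLinearMap.ext hcon)
    rcases lt_or_gt_of_ne hv with h | h
    · exact ⟨-v, by rw [map_neg]; linarith⟩
    · exact ⟨v, h⟩
  -- the map
  let f : ℝ × (M × ℝ) → M × ℝ := fun p => (lin I x₀ u (p.1, p.2.1), p.2.2)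
  have hf0 : f (0, (x₀, g₀)) = (x₀, g₀) := by
    simp only [f, lin_zero x₀ u (mem_extChartAt_source x₀)]
  have hfc : ∀ᶠ p in 𝓝 ((0 : ℝ), (x₀, g₀)), ContinuousAt f p := by
    have h1 : Tendsto (fun p : ℝ × (M × ℝ) => (p.1, p.2.1)) (𝓝 (0, (x₀, g₀))) (𝓝 (0, x₀)) :=
      (Continuous.continuousAt (by fun_prop :
        Continuous fun p : ℝ × (M × ℝ) => (p.1, p.2.1))).tendsto
    filter_upwards [h1.eventually (lin_cont (I := I) x₀ u)] with p hp
    have h2 : ContinuousAt (fun p : ℝ × (M × ℝ) => lin I x₀ u (p.1, p.2.1)) p :=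
      ContinuousAt.comp (g := lin I x₀ u) (f := fun p : ℝ × (M × ℝ) => (p.1, p.2.1)) hp
        (Continuous.continuousAt (by fun_prop))
    exact h2.prodMk (Continuous.continuousAt (by fun_prop))
  have hfW : ∀ᶠ p in 𝓝 ((0 : ℝ), (x₀, g₀)), f p ∈ W := by
    apply hfc.self_of_nhds.preimage_mem_nhds
    rw [hf0]
    exact hW.mem_nhds hxW
  have htgt : ∀ᶠ p in 𝓝 ((0 : ℝ), (x₀, g₀)), extChartAt I x₀ p.2.1 + p.1 • u ∈
      (extChartAt I x₀).target ∧ p.2.1 ∈ (extChartAt I x₀).source := by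
    have h0 : ContinuousAt (fun p : ℝ × (M × ℝ) => p.2.1) (0, (x₀, g₀)) :=
      Continuous.continuousAt (by fun_prop)
    have h1 : ContinuousAt (fun p : ℝ × (M × ℝ) => extChartAt I x₀ p.2.1 + p.1 • u)
        (0, (x₀, g₀)) := by
      have h2 : ContinuousAt (fun p : ℝ × (M × ℝ) => extChartAt I x₀ p.2.1) (0, (x₀, g₀)) :=
        ContinuousAt.comp (g := extChartAt I x₀) (f := fun p : ℝ × (M × ℝ) => p.2.1)
          (continuousAt_extChartAt x₀) h0
      exact h2.add (continuousAt_fst.smul continuousAt_const)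
    have e1 : ∀ᶠ p in 𝓝 ((0 : ℝ), (x₀, g₀)), extChartAt I x₀ p.2.1 + p.1 • u ∈
        (extChartAt I x₀).target := by
      apply h1.preimage_mem_nhds
      simp only [zero_smul, add_zero]
      exact (isOpen_extChartAt_target x₀).mem_nhds (mem_extChartAt_target x₀)
    have e2 : ∀ᶠ p in 𝓝 ((0 : ℝ), (x₀, g₀)), p.2.1 ∈ (extChartAt I x₀).source :=
      h0.preimage_mem_nhds
        ((isOpen_extChartAt_source (I := I) x₀).mem_nhds (mem_extChartAt_source x₀))
    exact e1.and e2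
  have hall := hfW.and htgt
  rw [nhds_prod_eq, Filter.eventually_prod_iff] at hall
  obtain ⟨p, hp, q, hq, hpq⟩ := hall
  obtain ⟨δ, hδ, hδ'⟩ := Metric.eventually_nhds_iff.1 hp
  have hd : HasDerivAt (fun s : ℝ => (fun p => F (f p)) (s, (x₀, g₀)))
      (dif I (fun x => F (x, g₀)) x₀ u) 0 := lin_deriv (hFs g₀) x₀ u
  have h1 := ivt_param (f := fun p => F (f p)) (z₀ := (x₀, g₀)) (c := F (x₀, g₀))
    (by
      filter_upwards [hfc] with p hp
      exact ContinuousAt.comp (g := F) (f := f) hFc.continuousAt hp)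
    (by simp only [hf0]) hd hu hδ
  have h2 := h1.and hq
  rw [nhds_prod_eq, Filter.eventually_prod_iff] at h2
  obtain ⟨r, hr, t, ht, hrt⟩ := h2
  obtain ⟨O, hO, hOo, hxO⟩ := _root_.eventually_nhds_iff.1 hr
  obtain ⟨ε, hε, hε'⟩ := Metric.eventually_nhds_iff.1 ht
  refine ⟨O, hOo, hxO, ε, hε, fun x hx g g' hg hg' => ?_⟩
  obtain ⟨⟨s, hs, hsc⟩, hqxg'⟩ := hrt (hO x hx) (hε' (by rwa [Real.dist_eq]) : t g')
  refine ⟨lin I x₀ u (s, x), hsc, ?_⟩
  have hgood : ∀ σ : ℝ, |σ| < δ → ∀ g'' : ℝ, |g'' - g₀| < ε →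
      (lin I x₀ u (σ, x), g'') ∈ W ∧ extChartAt I x₀ x + σ • u ∈ (extChartAt I x₀).target ∧
      x ∈ (extChartAt I x₀).source := by
    intro σ hσ g'' hg''
    have h3 := (hrt (hO x hx) (hε' (by rwa [Real.dist_eq]) : t g'')).2
    exact hpq (hδ' (by rwa [Real.dist_eq, sub_zero])) h3
  have hτ : ∀ t : ℝ, |Real.smoothTransition t * s| < δ := by
    intro t
    rw [abs_mul, abs_of_nonneg (Real.smoothTransition.nonneg t)]
    calc Real.smoothTransition t * |s| ≤ 1 * |s| :=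
          mul_le_mul_of_nonneg_right (Real.smoothTransition.le_one t) (abs_nonneg s)
      _ < δ := by rw [one_mul]; exact hs
  refine ⟨fun t => lin I x₀ u (Real.smoothTransition t * s, x), ?_, ?_, ?_, ?_⟩
  · intro t
    have h3 : ContMDiffAt 𝓘(ℝ, ℝ) 𝓘(ℝ, E) ∞
        (fun t : ℝ => extChartAt I x₀ x + (Real.smoothTransition t * s) • u) t := by
      rw [contMDiffAt_iff_contDiffAt]
      have h4 : ContDiff ℝ ∞ Real.smoothTransition := Real.smoothTransition.contDiff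
      exact (contDiff_const.add ((h4.mul contDiff_const).smul contDiff_const)).contDiffAt
    have h4 := (hgood _ (hτ t) g hg).2.1
    exact ContMDiffAt.comp (g := (extChartAt I x₀).symm)
      (f := fun t : ℝ => extChartAt I x₀ x + (Real.smoothTransition t * s) • u) t
      ((contMDiffOn_extChartAt_symm (n := ∞) x₀).contMDiffAt
        ((isOpen_extChartAt_target x₀).mem_nhds h4)) h3
  · intro t ht
    have h3 := (hgood _ (hτ t) g hg).2.2
    simp only [Real.smoothTransition.zero_of_nonpos ht, zero_mul]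
    exact lin_zero x₀ u h3
  · intro t ht
    simp only [Real.smoothTransition.one_of_one_le ht, one_mul]
  · intro t σ hσ
    refine (hgood _ (hτ t) σ ?_).1
    rw [abs_lt] at hg hg' ⊢
    rcases le_total g g' with h | h
    · rw [uIcc_of_le h] at hσ
      constructor <;> linarith [hσ.1, hσ.2]
    · rw [uIcc_of_ge h] at hσ
      constructor <;> linarith [hσ.1, hσ.2]

/-- a smooth curve over `[a, g]` in `W` ending at `x` -/
def Cur (I : ModelWithCorners ℝ E K) (W : Set (M × ℝ)) (a g : ℝ) (x : M) : Prop :=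
  ∃ q : ℝ → M, ContMDiff 𝓘(ℝ, ℝ) I ∞ q ∧ (∀ s ∈ Icc a g, (q s, s) ∈ W) ∧
    ∃ η > 0, ∀ s, g - η ≤ s → q s = x

lemma Cur.ext {W : Set (M × ℝ)} {a g g' : ℝ} {x x' : M} (h : Cur I W a g x) (hg : g < g')
    (hc : Conn I W x g x' g') : Cur I W a g' x' := by
  obtain ⟨q, h1, h2, η, hη, h3⟩ := h
  obtain ⟨p, h4, h5, h6, h7⟩ := hc
  set r : ℝ → M := fun s => p (2 * (s - g) / (g' - g)) with hr
  have hgg : 0 < g' - g := by linarith
  have hrs : ContMDiff 𝓘(ℝ, ℝ) I ∞ r := by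
    have h8 : ContMDiff 𝓘(ℝ, ℝ) 𝓘(ℝ, ℝ) ∞ (fun s : ℝ => 2 * (s - g) / (g' - g)) := by
      rw [contMDiff_iff_contDiff]
      fun_prop
    exact h4.comp h8
  have hr0 : ∀ s, s ≤ g → r s = x := by
    intro s hs
    apply h5
    apply div_nonpos_of_nonpos_of_nonneg <;> linarith
  have hr1 : ∀ s, (g + g') / 2 ≤ s → r s = x' := by
    intro s hs
    apply h6
    rw [le_div_iff₀ hgg]
    linarith
  refine ⟨fun s => if s ≤ g then q s else r s, ?_, ?_, (g' - g) / 2, by linarith, ?_⟩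
  · intro s
    rcases lt_or_ge s g with hs | hs
    · refine (h1 s).congr_of_eventuallyEq ?_
      filter_upwards [Iio_mem_nhds hs] with σ hσ
      rw [if_pos (le_of_lt hσ)]
    · refine (hrs s).congr_of_eventuallyEq ?_
      filter_upwards [Ioi_mem_nhds (by linarith : g - η < s)] with σ hσ
      have hσ' : g - η < σ := hσ
      by_cases h8 : σ ≤ g
      · rw [if_pos h8, hr0 _ h8, h3 _ hσ'.le]
      · rw [if_neg h8]
  · intro s hs
    beta_reduce
    by_cases h8 : s ≤ g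
    · rw [if_pos h8]
      exact h2 s ⟨hs.1, h8⟩
    · rw [if_neg h8]
      apply h7
      rw [uIcc_of_le hg.le]
      push Not at h8
      exact ⟨h8.le, hs.2⟩
  · intro s hs
    have h8 : ¬ s ≤ g := by push Not; linarith
    beta_reduce
    rw [if_neg h8]
    exact hr1 s (by linarith)

/-- **Existence of a smooth section.** -/
theorem exists_curve [T2Space M] {F : M × ℝ → ℝ} (hFc : Continuous F)
    (hFs : ∀ g, Sm I (fun x => F (x, g))) {W : Set (M × ℝ)}
    (hW : IsOpen W) {a b c : ℝ} (hab : a ≤ b)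
    (hcomp : IsCompact {z : M × ℝ | F z = c ∧ z.2 ∈ Icc a b})
    (hAW : ∀ x, ∀ g ∈ Icc a b, F (x, g) = c → (x, g) ∈ W)
    (hne : ∀ x, ∀ g ∈ Icc a b, F (x, g) = c → dif I (fun x => F (x, g)) x ≠ 0)
    (hex : ∃ x, F (x, b) = c) :
    ∃ q : ℝ → M, ContMDiff 𝓘(ℝ, ℝ) I ∞ q ∧ ∀ s ∈ Icc a b, (q s, s) ∈ W := by
  set R : Set ℝ := {g | ∀ g' ∈ Icc a g, ∀ x, F (x, g') = c → Cur I W a g' x} with hR
  have hbase : ∀ x, F (x, a) = c → Cur I W a a x := by
    intro x hx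
    refine ⟨fun _ => x, contMDiff_const, fun s hs => ?_, 1, one_pos, fun s _ => rfl⟩
    have : s = a := le_antisymm hs.2 hs.1
    subst this
    exact hAW x s ⟨le_rfl, hab⟩ hx
  have ha : a ∈ R := by
    intro g' hg' x hx
    have : g' = a := le_antisymm hg'.2 hg'.1
    subst this
    exact hbase x hx
  have hclosed : IsClosed (R ∩ Icc a b) := by
    rw [← closure_subset_iff_isClosed]
    intro g hg
    have hgI : g ∈ Icc a b :=
      closure_minimal inter_subset_right isClosed_Icc hg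
    refine ⟨?_, hgI⟩
    rw [Metric.mem_closure_iff] at hg
    intro g' hg' x hx
    rcases lt_or_eq_of_le hg'.2 with hlt | heq
    · obtain ⟨g₁, hg₁, hd⟩ := hg (g - g') (by linarith)
      rw [Real.dist_eq, abs_lt] at hd
      exact hg₁.1 g' ⟨hg'.1, by linarith⟩ x hx
    · subst heq
      have hx' := hx
      obtain ⟨O, hO, hxO, ε, hε, hloc⟩ := conn_local hFc hFs hW (hAW x g' hgI hx) (hne x g' hgI hx)
      obtain ⟨g₁, hg₁, hd⟩ := hg ε hε
      rw [Real.dist_eq] at hd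
      rcases le_or_gt g' g₁ with hle | hlt
      · exact hg₁.1 g' ⟨hgI.1, hle⟩ x hx
      · obtain ⟨x', hx1, hx2⟩ := hloc x hxO g' g₁ (by simpa using hε)
          (by rwa [abs_sub_comm] at hd)
        rw [hx] at hx1
        exact (hg₁.1 g₁ ⟨hg₁.2.1, le_rfl⟩ x' hx1).ext hlt hx2.symm
  have hsub := hclosed.Icc_subset_of_forall_mem_nhdsWithin ha ?_
  · obtain ⟨x, hx⟩ := hex
    obtain ⟨q, h1, h2, -⟩ := hsub (right_mem_Icc.2 hab) b ⟨hab, le_rfl⟩ x hx
    exact ⟨q, h1, h2⟩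
  · rintro g ⟨hgR, hg⟩
    have hgI : g ∈ Icc a b := ⟨hg.1, hg.2.le⟩
    -- local data at the points over `g`
    have hex : ∀ x : M, ∃ (O : Set M) (ε : ℝ), F (x, g) = c → IsOpen O ∧ x ∈ O ∧ 0 < ε ∧
        ∀ x₁ ∈ O, ∀ g₁ g₂ : ℝ, |g₁ - g| < ε → |g₂ - g| < ε →
          ∃ x', F (x', g₂) = c ∧ Conn I W x₁ g₁ x' g₂ := by
      intro x
      by_cases hx : F (x, g) = c
      · obtain ⟨O, hO, hxO, ε, hε, hloc⟩ := conn_local hFc hFs hW (hAW x g hgI hx) (hne x g hgI hx)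
        refine ⟨O, ε, fun _ => ⟨hO, hxO, hε, ?_⟩⟩
        rw [hx] at hloc
        exact hloc
      · exact ⟨∅, 0, fun h => absurd h hx⟩
    choose O ε hOε using hex
    set WW : Set (M × ℝ) := ⋃ x ∈ {x | F (x, g) = c}, O x ×ˢ Metric.ball g (ε x) with hWW
    have hWWo : IsOpen WW := by
      apply isOpen_biUnion
      intro x hx
      exact (hOε x hx).1.prod Metric.isOpen_ball
    have hK : IsCompact ({z : M × ℝ | F z = c ∧ z.2 ∈ Icc a b} \ WW) := hcomp.diff hWWo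
    have hKp : IsCompact (Prod.snd '' ({z : M × ℝ | F z = c ∧ z.2 ∈ Icc a b} \ WW)) :=
      hK.image continuous_snd
    have hgn : g ∉ Prod.snd '' ({z : M × ℝ | F z = c ∧ z.2 ∈ Icc a b} \ WW) := by
      rintro ⟨⟨x, g'⟩, ⟨h1, h2⟩, h3⟩
      simp only at h3
      subst h3
      apply h2
      rw [hWW]
      refine mem_biUnion (show x ∈ {x | F (x, g') = c} from h1.1) ?_
      exact ⟨(hOε x h1.1).2.1, Metric.mem_ball_self (hOε x h1.1).2.2.1⟩
    obtain ⟨δ, hδ, hδ'⟩ := Metric.isOpen_iff.1 hKp.isClosed.isOpen_compl g hgn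
    have hmem : Ioo g (min (g + δ) b) ∈ 𝓝[>] g :=
      Ioo_mem_nhdsGT (lt_min (by linarith) hg.2)
    refine mem_of_superset hmem ?_
    intro g' hg' g₁ hg₁ x hx
    rcases le_or_gt g₁ g with hle | hlt
    · exact hgR g₁ ⟨hg₁.1, hle⟩ x hx
    · have hg₁b : g₁ < b := lt_of_le_of_lt hg₁.2 (lt_of_lt_of_le hg'.2 (min_le_right _ _))
      have hg₁δ : g₁ < g + δ := lt_of_le_of_lt hg₁.2 (lt_of_lt_of_le hg'.2 (min_le_left _ _))
      have h1 : g₁ ∈ Metric.ball g δ := by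
        rw [Metric.mem_ball, Real.dist_eq, abs_lt]
        constructor <;> linarith
      have h2 : (x, g₁) ∈ WW := by
        by_contra hcon
        exact hδ' h1 ⟨(x, g₁), ⟨⟨hx, hg₁.1, hg₁b.le⟩, hcon⟩, rfl⟩
      rw [hWW] at h2
      simp only [mem_iUnion] at h2
      obtain ⟨x₀, hx₀, h3, h4⟩ := h2
      have h5 := hOε x₀ hx₀
      obtain ⟨x', hx1, hx2⟩ := h5.2.2.2 x h3 g₁ g (by
        have := Metric.mem_ball.1 h4
        rwa [Real.dist_eq] at this) (by simpa using h5.2.2.1)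
      exact (hgR g ⟨hg.1, le_rfl⟩ x' hx1).ext hlt hx2.symm

end Pool.Agent.J4.H27.Wn
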