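import Mathlib
import Pool.Agent.J4.H27.Wn.Local

open scoped Topology ContDiff Manifold
open Set Filter MeasureTheory

noncomputable section

namespace Pool.Agent.J4.H27.Wn

set_option linter.unusedSectionVars false

variable {E : Type*} [NormedAddCommGroup E] [NormedSpace ℝ E] [FiniteDimensional ℝ E]
  {K : Type*} [TopologicalSpace K] {I : ModelWithCorners ℝ E K} [I.Boundaryless]
  {M : Type*} [TopologicalSpace M] [ChartedSpace K M] [IsManifold I ∞ M]
  {w : M → E →L[ℝ] E →L[ℝ] ℝ}

/-- the two-form in the chart at `x`, as a bilinear form -/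
def Bf (I : ModelWithCorners ℝ E K) (w : M → E →L[ℝ] E →L[ℝ] ℝ) (x : M) (y : E) :
    LinearMap.BilinForm ℝ E :=
  LinearMap.mk₂ ℝ (fun u v => w ((extChartAt I x).symm y) (dSymm I x y u) (dSymm I x y v))
    (by intros; simp) (by intros; simp) (by intros; simp) (by intros; simp)

lemma Bf_apply (x : M) (y u v : E) : Bf I w x y u v =
    w ((extChartAt I x).symm y) (dSymm I x y u) (dSymm I x y v) := rfl

/-- the Gram matrix -/
def gram (I : ModelWithCorners ℝ E K) (w : M → E →L[ℝ] E →L[ℝ] ℝ) (x : M) (y : E) :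
    Matrix (Fin (Module.finrank ℝ E)) (Fin (Module.finrank ℝ E)) ℝ :=
  LinearMap.BilinForm.toMatrix (Module.finBasis ℝ E) (Bf I w x y)

lemma gram_apply (x : M) (y : E) (i j) : gram I w x y i j =
    Bf I w x y (Module.finBasis ℝ E i) (Module.finBasis ℝ E j) := by
  unfold gram
  rw [LinearMap.BilinForm.toMatrix_apply]

lemma dSymm_surj (x : M) {y : E} (hy : y ∈ (extChartAt I x).target) (v : E) :
    ∃ u, dSymm I x y u = v := by
  have : IsManifold I 1 M := IsManifold.of_le (n := ∞) (by simp)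
  have h1 := isInvertible_mfderivWithin_extChartAt_symm (I := I) hy
  rw [I.range_eq_univ, mfderivWithin_univ] at h1
  obtain ⟨e, he⟩ := h1
  refine ⟨e.symm v, ?_⟩
  have h2 : dSymm I x y (e.symm v) = e (e.symm v) := by
    unfold dSymm
    exact (DFunLike.congr_fun he (e.symm v)).symm
  rw [h2]
  exact e.apply_symm_apply v

lemma dSymm_inj (x : M) {y : E} (hy : y ∈ (extChartAt I x).target) {u : E}
    (hu : dSymm I x y u = 0) : u = 0 := by
  have : IsManifold I 1 M := IsManifold.of_le (n := ∞) (by simp)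
  have h1 := isInvertible_mfderivWithin_extChartAt_symm (I := I) hy
  rw [I.range_eq_univ, mfderivWithin_univ] at h1
  obtain ⟨e, he⟩ := h1
  have h2 : dSymm I x y u = e u := by
    unfold dSymm
    exact (DFunLike.congr_fun he u).symm
  rw [h2] at hu
  have h3 := e.map_eq_zero_iff.1 hu
  exact h3

lemma gram_det_ne (hnd : ∀ x v, (∀ u, w x v u = 0) → v = 0) (x : M) {y : E}
    (hy : y ∈ (extChartAt I x).target) : (gram I w x y).det ≠ 0 := by
  intro h0
  obtain ⟨v, hv, hv0⟩ := Matrix.exists_vecMul_eq_zero_iff.2 h0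
  apply hv
  set b := Module.finBasis ℝ E
  set u : E := ∑ i, v i • b i with hu
  have h1 : ∀ j, Bf I w x y u (b j) = 0 := by
    intro j
    have h2 := congrFun hv0 j
    simp only [Matrix.vecMul, dotProduct, Pi.zero_apply, gram_apply] at h2
    rw [hu, map_sum, LinearMap.sum_apply]
    simp only [map_smul, LinearMap.smul_apply, smul_eq_mul]
    exact h2
  have h2 : Bf I w x y u = 0 := b.ext h1
  have h3 : dSymm I x y u = 0 := by
    apply hnd ((extChartAt I x).symm y)
    intro z
    obtain ⟨z', rfl⟩ := dSymm_surj x hy z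
    have := DFunLike.congr_fun h2 z'
    exact this
  have h4 : u = 0 := dSymm_inj x hy h3
  have h5 := b.linearIndependent
  rw [Fintype.linearIndependent_iff] at h5
  funext i
  exact h5 v (by rw [← hu]; exact h4) i

lemma gram_cont (hw : SmoothTwo I w) (x : M) :
    ContinuousOn (fun y => (gram I w x y).det) (extChartAt I x).target := by
  have h1 : ContinuousOn (fun y => gram I w x y) (extChartAt I x).target := by
    refine continuousOn_pi.2 fun i => continuousOn_pi.2 fun j => ?_
    simp only [gram_apply, Bf_apply]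
    exact (hw x _ _).continuousOn
  exact (continuous_id.matrix_det).comp_continuousOn h1

/-- change of the Gram determinant under a map with `w(Au, Av) = Λ w(u, v)` -/
lemma gram_change {x z : M} {y y' : E} {A : E →L[ℝ] E} {Λ : ℝ}
    (h : ∀ u v, Bf I w z y' (A u) (A v) = Λ * Bf I w x y u v) :
    A.det ^ 2 * (gram I w z y').det = Λ ^ (Module.finrank ℝ E) * (gram I w x y).det := by
  set b := Module.finBasis ℝ E
  have h1 : (Bf I w z y').comp (A : E →ₗ[ℝ] E) (A : E →ₗ[ℝ] E) = Λ • Bf I w x y := by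
    ext u v
    exact h u v
  have h2 := congrArg (LinearMap.BilinForm.toMatrix b) h1
  rw [LinearMap.BilinForm.toMatrix_comp b b, map_smul] at h2
  have h3 := congrArg Matrix.det h2
  rw [Matrix.det_mul, Matrix.det_mul, Matrix.det_transpose, LinearMap.det_toMatrix,
    Matrix.det_smul, Fintype.card_fin] at h3
  have h4 : A.det = LinearMap.det (A : E →ₗ[ℝ] E) := rfl
  rw [h4]
  unfold gram
  rw [← h3]
  ring

/-- **A closed manifold has no injective maps expanding a smooth nondegenerate form by arbitrarily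
large factors.** -/
theorem no_expansion [CompactSpace M] [Nonempty M] (hpos : 0 < Module.finrank ℝ E)
    (hw : SmoothTwo I w) (hnd : ∀ x v, (∀ u, w x v u = 0) → v = 0)
    (hT : ∀ Λ₀ : ℝ, ∃ Λ > Λ₀, ∃ T : M → M, ContMDiff I I ∞ T ∧ Function.Injective T ∧
      ∀ (x : M) (u v : E), w (T x) (mfderiv I I T x u) (mfderiv I I T x v) = Λ * w x u v) :
    False := by
  classical
  borelize E
  let μ : Measure E := Measure.addHaar
  -- closed balls in charts
  have hr : ∀ x : M, ∃ r > (0:ℝ), Metric.closedBall (extChartAt I x x) r ⊆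
      (extChartAt I x).target := by
    intro x
    exact Metric.nhds_basis_closedBall.mem_iff.1
      ((isOpen_extChartAt_target x).mem_nhds (mem_extChartAt_target x))
  choose r hr0 hrt using hr
  let L : M → Set E := fun x => Metric.closedBall (extChartAt I x x) (r x)
  let W : M → Set M := fun x => (extChartAt I x).source ∩
    (extChartAt I x) ⁻¹' Metric.ball (extChartAt I x x) (r x)
  have hWo : ∀ x, IsOpen (W x) := fun x => isOpen_extChartAt_preimage' x Metric.isOpen_ball
  have hWx : ∀ x, x ∈ W x := fun x => ⟨mem_extChartAt_source x, Metric.mem_ball_self (hr0 x)⟩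
  obtain ⟨t, ht⟩ := isCompact_univ.elim_finite_subcover W hWo
    (fun x _ => mem_iUnion.2 ⟨x, hWx x⟩)
  have hcov : ∀ x : M, ∃ z ∈ t, x ∈ W z := by
    intro x
    have := ht (mem_univ x)
    simpa using this
  have htne : t.Nonempty := by
    obtain ⟨x⟩ := (inferInstance : Nonempty M)
    obtain ⟨z, hz, -⟩ := hcov x
    exact ⟨z, hz⟩
  -- bounds for the Gram determinants
  have hκ : ∀ x : M, ∃ κ : ℝ, 1 ≤ κ ∧ ∀ y ∈ L x, κ⁻¹ ≤ |(gram I w x y).det| ∧
      |(gram I w x y).det| ≤ κ := by
    intro x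
    have hc : ContinuousOn (fun y => |(gram I w x y).det|) (L x) :=
      ((gram_cont hw x).mono (hrt x)).abs
    have hLc : IsCompact (L x) := isCompact_closedBall _ _
    have hLne : (L x).Nonempty := ⟨_, Metric.mem_closedBall_self (hr0 x).le⟩
    obtain ⟨y₁, hy₁, hmin⟩ := hLc.exists_isMinOn hLne hc
    obtain ⟨y₂, hy₂, hmax⟩ := hLc.exists_isMaxOn hLne hc
    have hm : 0 < |(gram I w x y₁).det| := abs_pos.2 (gram_det_ne hnd x (hrt x hy₁))
    refine ⟨max 1 (max |(gram I w x y₁).det|⁻¹ |(gram I w x y₂).det|), le_max_left _ _,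
      fun y hy => ⟨?_, ?_⟩⟩
    · have h1 : |(gram I w x y₁).det|⁻¹ ≤
          max 1 (max |(gram I w x y₁).det|⁻¹ |(gram I w x y₂).det|) :=
        (le_max_left _ _).trans (le_max_right _ _)
      have h2 : |(gram I w x y₁).det| ≤ |(gram I w x y).det| := hmin hy
      refine le_trans ?_ h2
      rw [inv_le_comm₀ (by positivity) hm]
      exact h1
    · exact (show |(gram I w x y).det| ≤ |(gram I w x y₂).det| from hmax hy).trans
        ((le_max_right _ _).trans (le_max_right _ _))
  choose κ hκ1 hκ2 using hκ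
  set κ₀ : ℝ := ∑ x ∈ t, κ x with hκ₀
  have hκle : ∀ x ∈ t, κ x ≤ κ₀ := fun x hx =>
    Finset.single_le_sum (f := κ) (fun i _ => zero_le_one.trans (hκ1 i)) hx
  have hκ₀1 : 1 ≤ κ₀ := by
    obtain ⟨x, hx⟩ := htne
    exact (hκ1 x).trans (hκle x hx)
  set ρ : ℝ := t.card + 1 with hρ
  have hρ1 : 1 ≤ ρ := by
    rw [hρ]; linarith [(Nat.cast_nonneg t.card : (0:ℝ) ≤ t.card)]
  obtain ⟨Λ, hΛ, T, hTs, hTi, hTw⟩ := hT (κ₀ ^ 2 * ρ ^ 2)
  have hΛ1 : 1 ≤ Λ := by
    have : (1:ℝ) ≤ κ₀ ^ 2 * ρ ^ 2 := by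
      have h1 : (1:ℝ) ≤ κ₀ ^ 2 := one_le_pow₀ hκ₀1
      have h2 : (1:ℝ) ≤ ρ ^ 2 := one_le_pow₀ hρ1
      nlinarith
    linarith
  -- the pieces
  let B : M → M → Set E := fun x z => L x ∩ ((extChartAt I x).target ∩
    (T ∘ (extChartAt I x).symm) ⁻¹' W z)
  have hBm : ∀ x z, MeasurableSet (B x z) := by
    intro x z
    have h1 : IsOpen ((extChartAt I x).target ∩ (T ∘ (extChartAt I x).symm) ⁻¹' W z) :=
      (hTs.continuous.comp_continuousOn (continuousOn_extChartAt_symm x)).isOpen_inter_preimage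
        (isOpen_extChartAt_target x) (hWo z)
    exact Metric.isClosed_closedBall.measurableSet.inter h1.measurableSet
  have hkey : ∀ x ∈ t, ∀ z ∈ t, ENNReal.ofReal ρ * μ (B x z) ≤ μ (L z) := by
    intro x hx z hz
    set τ : E → E := fun y => extChartAt I z (T ((extChartAt I x).symm y)) with hτ
    -- differentiability
    have hτd : ∀ y ∈ B x z, HasFDerivAt τ (fderiv ℝ τ y) y := by
      rintro y ⟨hyL, hyt, hyW⟩
      have h1 : ContMDiffAt 𝓘(ℝ, E) I ∞ (T ∘ (extChartAt I x).symm) y :=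
        (hTs _).comp y ((contMDiffOn_extChartAt_symm (n := ∞) x).contMDiffAt
          ((isOpen_extChartAt_target x).mem_nhds hyt))
      have h2 : ContMDiffAt I 𝓘(ℝ, E) ∞ (extChartAt I z) (T ((extChartAt I x).symm y)) := by
        apply contMDiffAt_extChartAt'
        have := hyW.1
        rwa [extChartAt_source] at this
      have h3 : ContMDiffAt 𝓘(ℝ, E) 𝓘(ℝ, E) ∞ τ y := ContMDiffAt.comp y h2 h1
      exact (h3.contDiffAt.differentiableAt (by simp)).hasFDerivAt
    have hinj : InjOn τ (B x z) := by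
      rintro y ⟨hyL, hyt, hyW⟩ y' ⟨hyL', hyt', hyW'⟩ h
      have h1 := (extChartAt I z).injOn hyW.1 hyW'.1 h
      have h2 := hTi h1
      exact (extChartAt I x).symm.injOn hyt hyt' h2
    have himg : τ '' B x z ⊆ L z := by
      rintro _ ⟨y, ⟨hyL, hyt, hyW⟩, rfl⟩
      exact Metric.ball_subset_closedBall hyW.2
    -- the determinant
    have hdet : ∀ y ∈ B x z, ρ ≤ |(fderiv ℝ τ y).det| := by
      intro y hyB
      have hfd := hτd y hyB
      obtain ⟨hyL, hyt, hyW⟩ := hyB
      have hyz : τ y ∈ (extChartAt I z).target := (extChartAt I z).map_source hyW.1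
      have hbase : (extChartAt I z).symm (τ y) = T ((extChartAt I x).symm y) :=
        (extChartAt I z).left_inv hyW.1
      have hder : ∀ u : E, dSymm I z (τ y) (fderiv ℝ τ y u) =
          (show E from mfderiv I I T ((extChartAt I x).symm y) (dSymm I x y u)) := by
        intro u
        have hfd' : HasMFDerivAt 𝓘(ℝ, E) 𝓘(ℝ, E) τ y (fderiv ℝ τ y) := hfd.hasMFDerivAt
        let Dz : E →L[ℝ] E := dSymm I z (τ y)
        let Dx : E →L[ℝ] E := dSymm I x y
        have hfz : HasMFDerivAt 𝓘(ℝ, E) I (extChartAt I z).symm (τ y) Dz :=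
          (mdiff_symm hyz).hasMFDerivAt
        have h1 : HasMFDerivAt 𝓘(ℝ, E) I ((extChartAt I z).symm ∘ τ) y
            (show E →L[ℝ] E from Dz.comp (fderiv ℝ τ y)) :=
          HasMFDerivAt.comp y hfz hfd'
        have hfT : HasMFDerivAt I I T ((extChartAt I x).symm y)
            (mfderiv I I T ((extChartAt I x).symm y)) :=
          (hTs.mdifferentiableAt (by simp)).hasMFDerivAt
        have hfx : HasMFDerivAt 𝓘(ℝ, E) I (extChartAt I x).symm y Dx :=
          (mdiff_symm hyt).hasMFDerivAt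
        have h2 : HasMFDerivAt 𝓘(ℝ, E) I (T ∘ (extChartAt I x).symm) y
            (show E →L[ℝ] E from (show E →L[ℝ] E from
              mfderiv I I T ((extChartAt I x).symm y)).comp Dx) :=
          HasMFDerivAt.comp y hfT hfx
        have h3 : (extChartAt I z).symm ∘ τ =ᶠ[𝓝 y] T ∘ (extChartAt I x).symm := by
          have h4 : ∀ᶠ y' in 𝓝 y, T ((extChartAt I x).symm y') ∈ (extChartAt I z).source := by
            have h5 : ContinuousAt (T ∘ (extChartAt I x).symm) y :=
              (hTs.continuous.continuousAt).comp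
                ((continuousOn_extChartAt_symm x).continuousAt
                  ((isOpen_extChartAt_target x).mem_nhds hyt))
            exact h5.preimage_mem_nhds ((isOpen_extChartAt_source z).mem_nhds hyW.1)
          filter_upwards [h4] with y' hy'
          exact (extChartAt I z).left_inv hy'
        have h4 := h1.mfderiv
        have h5 := h2.mfderiv
        rw [h3.mfderiv_eq] at h4
        have h6 : ((dSymm I z (τ y)).comp (fderiv ℝ τ y) : E →L[ℝ] E) =
          (show E →L[ℝ] E from mfderiv I I T ((extChartAt I x).symm y)).comp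
              (dSymm I x y) := h4.symm.trans h5
        exact DFunLike.congr_fun h6 u
      have hrel : ∀ u v, Bf I w z (τ y) (fderiv ℝ τ y u) (fderiv ℝ τ y v) =
          Λ * Bf I w x y u v := by
        intro u v
        rw [Bf_apply, Bf_apply, hder, hder, hbase]
        exact hTw _ _ _
      have hch := gram_change hrel
      have habs := congrArg abs hch
      rw [abs_mul, abs_mul, abs_of_nonneg (sq_nonneg _),
        abs_of_nonneg (pow_nonneg (zero_le_one.trans hΛ1) _)] at habs
      obtain ⟨h1, -⟩ := hκ2 x y hyL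
      have hzL : τ y ∈ L z := himg ⟨y, ⟨hyL, hyt, hyW⟩, rfl⟩
      obtain ⟨-, h2⟩ := hκ2 z (τ y) hzL
      have h3 : κ₀⁻¹ ≤ |(gram I w x y).det| :=
        (inv_anti₀ (by linarith [hκ1 x]) (hκle x hx)).trans h1
      have h4 : |(gram I w z (τ y)).det| ≤ κ₀ := h2.trans (hκle z hz)
      have h5 : Λ ≤ Λ ^ Module.finrank ℝ E := by
        calc Λ = Λ ^ 1 := (pow_one Λ).symm
          _ ≤ _ := pow_le_pow_right₀ hΛ1 hpos
      have h6 : κ₀ ^ 2 * ρ ^ 2 * κ₀⁻¹ ≤ (fderiv ℝ τ y).det ^ 2 * κ₀ := by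
        calc κ₀ ^ 2 * ρ ^ 2 * κ₀⁻¹ ≤ Λ ^ Module.finrank ℝ E * |(gram I w x y).det| := by
              apply mul_le_mul (hΛ.le.trans h5) h3 (by positivity) (by positivity)
          _ = (fderiv ℝ τ y).det ^ 2 * |(gram I w z (τ y)).det| := habs.symm
          _ ≤ _ := mul_le_mul_of_nonneg_left h4 (sq_nonneg _)
      have h7 : κ₀ ^ 2 * ρ ^ 2 * κ₀⁻¹ = ρ ^ 2 * κ₀ := by
        field_simp
      rw [h7] at h6
      have h8 : ρ ^ 2 ≤ (fderiv ℝ τ y).det ^ 2 :=
        le_of_mul_le_mul_right h6 (by linarith)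
      have h9 := sq_le_sq.1 h8
      rwa [abs_of_nonneg (by linarith)] at h9
    calc ENNReal.ofReal ρ * μ (B x z) = ∫⁻ _ in B x z, ENNReal.ofReal ρ ∂μ := by
          rw [setLIntegral_const]
      _ ≤ ∫⁻ y in B x z, ENNReal.ofReal |(fderiv ℝ τ y).det| ∂μ :=
          setLIntegral_mono' (hBm x z) fun y hy => ENNReal.ofReal_le_ofReal (hdet y hy)
      _ = μ (τ '' B x z) := lintegral_abs_det_fderiv_eq_addHaar_image μ (hBm x z)
          (fun y hy => (hτd y hy).hasFDerivWithinAt) hinj
      _ ≤ μ (L z) := measure_mono himg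
  -- summation
  set A : ENNReal := ∑ x ∈ t, μ (L x) with hA
  have hA0 : A ≠ 0 := by
    obtain ⟨x, hx⟩ := htne
    have h1 : 0 < μ (L x) := Metric.measure_closedBall_pos μ _ (hr0 x)
    have h2 : μ (L x) ≤ A := Finset.single_le_sum (f := fun x => μ (L x))
      (fun _ _ => zero_le) hx
    exact (lt_of_lt_of_le h1 h2).ne'
  have hAtop : A ≠ ⊤ := by
    rw [hA]
    refine (ENNReal.sum_lt_top.2 fun x _ => ?_).ne
    exact (isCompact_closedBall _ _).measure_lt_top
  have hLx : ∀ x ∈ t, ENNReal.ofReal ρ * μ (L x) ≤ A := by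
    intro x hx
    have h1 : L x ⊆ ⋃ z ∈ t, B x z := by
      intro y hy
      obtain ⟨z, hz, hzW⟩ := hcov (T ((extChartAt I x).symm y))
      exact mem_biUnion hz ⟨hy, hrt x hy, hzW⟩
    calc ENNReal.ofReal ρ * μ (L x) ≤ ENNReal.ofReal ρ * ∑ z ∈ t, μ (B x z) := by
          gcongr
          exact (measure_mono h1).trans (measure_biUnion_finset_le t _)
      _ = ∑ z ∈ t, ENNReal.ofReal ρ * μ (B x z) := Finset.mul_sum _ _ _
      _ ≤ ∑ z ∈ t, μ (L z) := Finset.sum_le_sum fun z hz => hkey x hx z hz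
  have hfin : ENNReal.ofReal ρ * A ≤ (t.card : ENNReal) * A := by
    calc ENNReal.ofReal ρ * A = ∑ x ∈ t, ENNReal.ofReal ρ * μ (L x) := Finset.mul_sum _ _ _
      _ ≤ ∑ _x ∈ t, A := Finset.sum_le_sum hLx
      _ = (t.card : ENNReal) * A := by rw [Finset.sum_const, nsmul_eq_mul]
  have h1 : ENNReal.ofReal ρ ≤ (t.card : ENNReal) :=
    (ENNReal.mul_le_mul_iff_left hA0 hAtop).1 hfin
  have h2 : (t.card : ENNReal) = ENNReal.ofReal (t.card : ℝ) := (ENNReal.ofReal_natCast _).symm
  rw [h2, ENNReal.ofReal_le_ofReal_iff (by positivity)] at h1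
  linarith

end Pool.Agent.J4.H27.Wn
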