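import Mathlib
import Pool.Agent.J4.H27.Wn.Step
import Pool.Agent.Helper186.Sharp
import Pool.Agent.Helper186.TimeFlow
import Pool.Agent.Helper186.Cutoff
import Pool.Agent.Helper186.DForms
import Pool.Agent.Helper186.Hamiltonian

open scoped Topology ContDiff Manifold
open Set Filter Pool.Agent.Helper186

noncomputable section

namespace Pool.Agent.J4.H27.Wn

set_option linter.unusedSectionVars false

universe u

variable {E : Type u} [NormedAddCommGroup E] [NormedSpace ℝ E] [FiniteDimensional ℝ E]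
  {K : Type*} [TopologicalSpace K] {I : ModelWithCorners ℝ E K} [I.Boundaryless]
  {M : Type*} [TopologicalSpace M] [ChartedSpace K M] [IsManifold I ∞ M]
  {w : M → E →L[ℝ] E →L[ℝ] ℝ}

/-- the two-form as a family of bilinear forms on tangent spaces -/
def asB (w : M → E →L[ℝ] E →L[ℝ] ℝ) (x : M) :
    TangentSpace I x →L[ℝ] TangentSpace I x →L[ℝ] ℝ := w x

lemma dSymm_eq_symmL (x₀ : M) {x : M} (hx : x ∈ (extChartAt I x₀).source) (a : E) :
    dSymm I x₀ (extChartAt I x₀ x) a =
      (trivializationAt E (TangentSpace I) x₀).symmL ℝ x a := by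
  have : IsManifold I 1 M := IsManifold.of_le (n := ∞) (by simp)
  have hx' : x ∈ (chartAt K x₀).source := by rwa [extChartAt_source] at hx
  rw [TangentBundle.symmL_trivializationAt hx']
  have h1 : range I = univ := I.range_eq_univ
  unfold dSymm
  rw [h1, mfderivWithin_univ]
  rfl

/-- The two-form is smooth when tested on smooth vector fields. -/
lemma smoothBilin (hw : SmoothTwo I w) (x₀ : M) :
    SmoothBilinAt (I := I) I (fun x : M => x) (asB (I := I) w) x₀ := by
  intro u v hu hv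
  set φ := extChartAt I x₀ with hφ
  have hu' := contMDiffAt_coord hu
  have hv' := contMDiffAt_coord hv
  let W : E → (E →L[ℝ] E →L[ℝ] ℝ) := fun y =>
    (w (φ.symm y)).bilinearComp (dSymm I x₀ y) (dSymm I x₀ y)
  have hW : ContDiffOn ℝ ∞ W φ.target := by
    rw [contDiffOn_clm_apply]
    intro a
    rw [contDiffOn_clm_apply]
    intro b
    exact hw x₀ a b
  have hWc : ContMDiffAt I 𝓘(ℝ, E →L[ℝ] E →L[ℝ] ℝ) ∞ (fun p => W (φ p)) x₀ := by
    have h1 : ContMDiffAt 𝓘(ℝ, E) 𝓘(ℝ, E →L[ℝ] E →L[ℝ] ℝ) ∞ W (φ x₀) :=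
      (hW.contDiffAt ((isOpen_extChartAt_target x₀).mem_nhds
        (mem_extChartAt_target x₀))).contMDiffAt
    exact ContMDiffAt.comp (g := W) (f := φ) x₀ h1 contMDiffAt_extChartAt
  have h1 := (hWc.clm_apply hu').clm_apply hv'
  refine h1.congr_of_eventuallyEq ?_
  filter_upwards [(isOpen_extChartAt_source (I := I) x₀).mem_nhds (mem_extChartAt_source x₀)]
    with p hp
  have hp' : p ∈ (trivializationAt E (TangentSpace I) x₀).baseSet := by
    rw [TangentBundle.trivializationAt_baseSet]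
    rwa [extChartAt_source] at hp
  have key : ∀ u : TangentSpace I p, dSymm I x₀ (φ p)
      ((trivializationAt E (TangentSpace I) x₀) (⟨p, u⟩ : TangentBundle I M)).2 = (u : E) := by
    intro u
    rw [hφ, dSymm_eq_symmL x₀ hp]
    have h2 := (trivializationAt E (TangentSpace I) x₀).symmL_continuousLinearMapAt
      (R := ℝ) hp' u
    rw [Bundle.Trivialization.continuousLinearMapAt_apply,
      Bundle.Trivialization.coe_linearMapAt_of_mem (R := ℝ) _ hp'] at h2
    exact h2
  show w p (u p) (v p) = w (φ.symm (φ p)) (dSymm I x₀ (φ p) _) (dSymm I x₀ (φ p) _)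
  rw [key, key, show φ.symm (φ p) = p from φ.left_inv hp]

/-- Existence and smoothness of the Hamiltonian vector field. -/
lemma exists_hamX (hw : SmoothTwo I w) (hnd : ∀ x v, (∀ u, w x v u = 0) → v = 0)
    {h : M → ℝ} (hh : Sm I h) :
    ∃ X : (x : M) → TangentSpace I x,
      ContMDiff I I.tangent ∞ (fun x => (⟨x, X x⟩ : TangentBundle I M)) ∧
      ∀ (x : M) (v : E), w x (X x) v = - dif I h x v := by
  have h1 : ∀ x : M, ∃ u : TangentSpace I x, ∀ v : TangentSpace I x,
      asB (I := I) w x u v = (- dForm I h x : TangentSpace I x →L[ℝ] ℝ) v := fun x =>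
    exists_sharp (I := I) (asB w x) (fun u hu => hnd x u hu) _
  choose X hX using h1
  refine ⟨X, fun x => ?_, hX⟩
  refine contMDiffAt_of_pairing (J := I) (f := fun x : M => x) contMDiffAt_id
    (smoothBilin hw x) (fun u hu => hnd x u hu) ?_
  intro v hv
  have h1 : ContMDiffAt I 𝓘(ℝ, ℝ) ∞ (fun x => dForm I h x (v x)) x :=
    (smoothForm_dForm hh).comp hv le_rfl
  refine h1.neg.congr_of_eventuallyEq (Filter.Eventually.of_forall fun p => ?_)
  exact hX p (v p)

/-- Compactly supported smooth vector fields are complete. -/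
lemma complete_of_compact [T2Space M] {W : (x : M) → TangentSpace I x}
    (hW : ContMDiff I I.tangent ∞ (fun x => (⟨x, W x⟩ : TangentBundle I M)))
    {C : Set M} (hC : IsCompact C) (hWC : ∀ x ∉ C, W x = 0) (x : M) :
    ∃ c : ℝ → M, c 0 = x ∧ IsMIntegralCurve c W := by
  have : IsManifold I 1 M := IsManifold.of_le (n := ∞) (by simp)
  obtain ⟨ε, hε, h⟩ := exists_uniform_time_compact hW hC
  refine exists_isMIntegralCurve_of_isMIntegralCurveOn (hW.of_le (by simp)) hε ?_ x
  intro y
  by_cases hy : y ∈ C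
  · exact h y hy
  · refine ⟨fun _ => y, rfl, ?_⟩
    intro t _
    have h1 : HasMFDerivAt 𝓘(ℝ, ℝ) I (fun _ : ℝ => y) t (0 : ℝ →L[ℝ] E) :=
      hasMFDerivAt_const y t
    refine (h1.congr_mfderiv ?_).hasMFDerivWithinAt
    rw [hWC y hy]
    refine ContinuousLinearMap.ext fun (r : ℝ) => ?_
    show (0:E) = r • (0:E)
    rw [smul_zero]

/-- derivative of a function along a curve -/
lemma hasDerivAt_along {c : ℝ → M} {t : ℝ} {v : E}
    (hc : HasMFDerivAt 𝓘(ℝ, ℝ) I c t ((1 : ℝ →L[ℝ] ℝ).smulRight v))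
    {f : M → ℝ} (hf : Sm I f) : HasDerivAt (fun s => f (c s)) (dif I f (c t) v) t := by
  have h1 := HasMFDerivAt.comp t (g := f) (f := c)
    (hf.mdifferentiableAt (by simp)).hasMFDerivAt hc
  have h2 : HasFDerivAt (fun s => f (c s)) (show ℝ →L[ℝ] ℝ from
      (mfderiv I 𝓘(ℝ, ℝ) f (c t)).comp ((1 : ℝ →L[ℝ] ℝ).smulRight v)) t :=
    hasMFDerivAt_iff_hasFDerivAt.1 h1
  have h3 := h2.hasDerivAt
  refine h3.congr_deriv ?_
  show (mfderiv I 𝓘(ℝ, ℝ) f (c t)) ((1:ℝ) • v) = _
  rw [one_smul]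
  rfl

end Pool.Agent.J4.H27.Wn
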