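import Mathlib
import Pool.Agent.J4.H27.Wn.Ham
import Pool.Agent.J4.H27.Wn.Expand
import Pool.Agent.Helper186.Variation

open scoped Topology ContDiff Manifold
open Set Filter Pool.Agent.Helper186

noncomputable section

namespace Pool.Agent.J4.H27.Wn

set_option linter.unusedSectionVars false

universe u

variable {E : Type u} [NormedAddCommGroup E] [NormedSpace ℝ E] [FiniteDimensional ℝ E]
  {K : Type*} [TopologicalSpace K] {I : ModelWithCorners ℝ E K} [I.Boundaryless]
  {M : Type*} [TopologicalSpace M] [ChartedSpace K M] [IsManifold I ∞ M]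
  {w : M → E →L[ℝ] E →L[ℝ] ℝ}

/-- The vector field dual to a one-form. -/
lemma exists_dual (hw : SmoothTwo I w) (hnd : ∀ x v, (∀ u, w x v u = 0) → v = 0)
    {β : (x : M) → TangentSpace I x →L[ℝ] ℝ} (hβ : SmoothForm β) :
    ∃ X : (x : M) → TangentSpace I x,
      ContMDiff I I.tangent ∞ (fun x => (⟨x, X x⟩ : TangentBundle I M)) ∧
      ∀ (x : M) (v : TangentSpace I x), w x (X x) v = β x v := by
  have h1 : ∀ x : M, ∃ u : TangentSpace I x, ∀ v : TangentSpace I x,
      asB (I := I) w x u v = β x v := fun x =>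
    exists_sharp (I := I) (asB w x) (fun u hu => hnd x u hu) _
  choose X hX using h1
  refine ⟨X, fun x => ?_, hX⟩
  refine contMDiffAt_of_pairing (J := I) (f := fun x : M => x) contMDiffAt_id
    (smoothBilin hw x) (fun u hu => hnd x u hu) ?_
  intro v hv
  have h1 : ContMDiffAt I 𝓘(ℝ, ℝ) ∞ (fun x => β x (v x)) x := hβ.comp hv le_rfl
  refine h1.congr_of_eventuallyEq (Filter.Eventually.of_forall fun p => ?_)
  exact hX p (v p)

lemma extDer_smul {β : (x : M) → TangentSpace I x →L[ℝ] ℝ} (hβ : SmoothForm β) (a : ℝ) (x : M)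
    (u v : TangentSpace I x) :
    extDer I (fun x => a • β x) x u v = a * extDer I β x u v := by
  have h1 : chartForm I (fun x => a • β x) x = fun y => a • chartForm I β x y := by
    funext y
    ext z
    rfl
  have h2 : DifferentiableAt ℝ (chartForm I β x) (extChartAt I x x) :=
    ((contDiffOn_chartForm hβ x).contDiffAt ((isOpen_extChartAt_target x).mem_nhds
      (mem_extChartAt_target x))).differentiableAt (by simp)
  unfold extDer
  rw [h1, fderiv_fun_const_smul h2]
  show a * _ - a * _ = _
  rw [← mul_sub]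
  rfl

/-- **A nondegenerate two-form on a closed manifold of positive dimension is not exact.** -/
theorem closed_not_exact [T2Space M] [CompactSpace M] [Nonempty M]
    (hpos : 0 < Module.finrank ℝ E)
    (hw : SmoothTwo I w) (halt : ∀ x v, w x v v = 0) (hnd : ∀ x v, (∀ u, w x v u = 0) → v = 0)
    {β : (x : M) → TangentSpace I x →L[ℝ] ℝ} (hβ : SmoothForm β)
    (hd : ∀ (x : M) (u v : TangentSpace I x), extDer I β x u v = w x u v) : False := by
  have : IsManifold I 1 M := IsManifold.of_le (n := ∞) (by simp)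
  obtain ⟨V, hVs, hV⟩ := exists_dual hw hnd hβ
  choose Fl h0 hFl using complete_of_compact hVs isCompact_univ
    (fun x hx => absurd (mem_univ x) hx)
  have hsm := contMDiff_flow hVs h0 hFl
  have hadd := flow_add hVs h0 hFl
  let i : ℝ × M → M := fun p => Fl p.2 p.1
  have hi : ContMDiff (𝓘(ℝ, ℝ).prod I) I ∞ i := hsm.comp (contMDiff_snd.prodMk contMDiff_fst)
  have hT : ∀ t, ContMDiff I I ∞ (fun x => Fl x t) := fun t =>
    hsm.comp (contMDiff_id.prodMk contMDiff_const)
  have hdS : ∀ (s : ℝ) (x : M), dS I i s x = V (Fl x s) := by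
    intro s x
    have h := (hFl x s).mfderiv
    unfold dS
    show (mfderiv 𝓘(ℝ, ℝ) I (fun σ => Fl x σ) s) (1:ℝ) = _
    have h2 : (fun σ => Fl x σ) = Fl x := rfl
    rw [h2, h]
    show (1 : ℝ →L[ℝ] ℝ) 1 • V (Fl x s) = _
    simp
  have hβV : ∀ x, β x (V x) = 0 := by
    intro x
    rw [← hV]
    exact halt x (show E from V x)
  have hexp : ∀ (t : ℝ) (x : M) (u : TangentSpace I x),
      β (Fl x t) (mfderiv I I (fun x => Fl x t) x u) = Real.exp t * β x u := by
    intro t x u
    have hder : ∀ s, HasDerivAt (fun σ => β (i (σ, x)) (dX I I i σ x u))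
        (β (i (s, x)) (dX I I i s x u)) s := by
      intro s
      have h1 := hasDerivAt_variation (I := I) (J := I) hβ isOpen_univ
        hi.contMDiffOn (mem_univ (s, x)) u
      refine h1.congr_deriv ?_
      have h2 : (fun x' : M => β (i (s, x')) (dS I i s x')) = fun _ => (0:ℝ) := by
        ext1 x'
        rw [hdS]
        exact hβV _
      rw [h2, mfderiv_const]
      rw [hd, hdS]
      have h3 : w (i (s, x)) (V (Fl x s)) (dX I I i s x u) = β (Fl x s) (dX I I i s x u) :=
        hV (Fl x s) _
      rw [h3]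
      show _ + (0:ℝ) = _
      rw [add_zero]
    have hder2 : ∀ s, HasDerivAt (fun σ => Real.exp (-σ) * β (i (σ, x)) (dX I I i σ x u)) 0 s := by
      intro s
      have h1 : HasDerivAt (fun σ : ℝ => Real.exp (-σ)) (Real.exp (-s) * (-1)) s :=
        (hasDerivAt_neg s).exp
      have h2 := h1.mul (hder s)
      refine h2.congr_deriv ?_
      ring
    have hconst := is_const_of_deriv_eq_zero (fun s => (hder2 s).differentiableAt)
      (fun s => (hder2 s).deriv) t 0
    have h5 : β (i (0, x)) (dX I I i 0 x u) = β x u := by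
      have e0 : (fun x' : M => i (0, x')) = id := by ext1 y; exact h0 y
      have e1 : (dX I I i 0 x u : E) = u := by
        unfold dX
        rw [e0, mfderiv_id]
        rfl
      have e2 : ∀ (z : M) (w : E), z = x → w = u → β z w = β x u := by
        rintro _ _ rfl rfl; rfl
      exact e2 _ _ (h0 x) e1
    rw [h5, neg_zero, Real.exp_zero, one_mul] at hconst
    have h6 : Real.exp t * (Real.exp (-t) * β (i (t, x)) (dX I I i t x u)) =
        Real.exp t * β x u := by rw [hconst]
    rw [← mul_assoc, ← Real.exp_add, add_neg_cancel, Real.exp_zero, one_mul] at h6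
    exact h6
  refine no_expansion hpos hw hnd ?_
  intro Λ₀
  refine ⟨Real.exp Λ₀, by linarith [Real.add_one_le_exp Λ₀], fun x => Fl x Λ₀, hT Λ₀, ?_, ?_⟩
  · intro x y hxy
    have h1 := congrArg (fun z => Fl z (-Λ₀)) hxy
    simp only [← hadd, add_neg_cancel, h0] at h1
    exact h1
  · intro x u v
    have h1 := extDer_pull (I := I) (J := I) (hT Λ₀) hβ x u v
    have h2 : pullForm I I (fun x => Fl x Λ₀) β = fun x => Real.exp Λ₀ • β x := by
      funext x
      ext u
      rw [pullForm_apply]
      exact hexp Λ₀ x u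
    rw [h2] at h1
    have h3 := (extDer_smul hβ (Real.exp Λ₀) x u v).symm.trans h1
    have h4 := hd x u v
    have h5 := hd (Fl x Λ₀) (mfderiv I I (fun x => Fl x Λ₀) x u)
      (mfderiv I I (fun x => Fl x Λ₀) x v)
    exact (h5.symm.trans h3.symm).trans (congrArg (fun r => Real.exp Λ₀ * r) h4)

end Pool.Agent.J4.H27.Wn
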