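import Mathlib
import Pool.Agent.J4.H27.Wn.Curve
import Pool.Agent.J4.H27.Wn.Exact

open scoped Topology ContDiff Manifold
open Set Filter Pool.Agent.Helper186

noncomputable section

namespace Pool.Agent.J4.H27.Wn

set_option linter.unusedSectionVars false

universe u

section forms

variable {E : Type*} [NormedAddCommGroup E] [NormedSpace ℝ E] [FiniteDimensional ℝ E]
  {K : Type*} [TopologicalSpace K] {I : ModelWithCorners ℝ E K} [I.Boundaryless]
  {M : Type*} [TopologicalSpace M] [ChartedSpace K M] [IsManifold I ∞ M]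

lemma dSymm_coord (x₀ : M) {p : M} (hp : p ∈ (extChartAt I x₀).source) (u : TangentSpace I p) :
    dSymm I x₀ (extChartAt I x₀ p)
      ((trivializationAt E (TangentSpace I) x₀) (⟨p, u⟩ : TangentBundle I M)).2 = (u : E) := by
  have : IsManifold I 1 M := IsManifold.of_le (n := ∞) (by simp)
  have hx' : p ∈ (chartAt K x₀).source := by rwa [extChartAt_source] at hp
  have hp' : p ∈ (trivializationAt E (TangentSpace I) x₀).baseSet := by
    rw [TangentBundle.trivializationAt_baseSet]
    exact hx'
  have h3 : ∀ a : E, dSymm I x₀ (extChartAt I x₀ p) a =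
      (trivializationAt E (TangentSpace I) x₀).symmL ℝ p a := by
    intro a
    rw [TangentBundle.symmL_trivializationAt hx']
    unfold dSymm
    rw [I.range_eq_univ, mfderivWithin_univ]
    rfl
  rw [h3]
  have h2 := (trivializationAt E (TangentSpace I) x₀).symmL_continuousLinearMapAt
    (R := ℝ) hp' u
  rw [Bundle.Trivialization.continuousLinearMapAt_apply,
    Bundle.Trivialization.coe_linearMapAt_of_mem (R := ℝ) _ hp'] at h2
  exact h2

/-- smoothness of forms from smoothness in charts -/
lemma smoothForm_of_chart {α : (x : M) → TangentSpace I x →L[ℝ] ℝ}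
    (h : ∀ x, ContDiffAt ℝ ∞ (formC I (fun z => (show E →L[ℝ] ℝ from α z)) x)
      (extChartAt I x x)) : SmoothForm α := by
  intro V
  set x₀ := V.1 with hx₀
  have hcoord : ContMDiffAt I.tangent 𝓘(ℝ, E) ∞ (fun p : TangentBundle I M =>
      (trivializationAt E (TangentSpace I) x₀ (⟨p.1, p.2⟩ : TangentBundle I M)).2) V :=
    contMDiffAt_coord (P := TangentBundle I M) (J := I.tangent) (f := fun p => p.1)
      (w := fun p => p.2) (p₀ := V) contMDiffAt_id
  have hproj : ContMDiffAt I.tangent I ∞ (fun p : TangentBundle I M => p.1) V :=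
    (Bundle.contMDiff_proj (TangentSpace I)) V
  have h1 : ContMDiffAt I.tangent 𝓘(ℝ, E) ∞ (fun p : TangentBundle I M => extChartAt I x₀ p.1) V :=
    ContMDiffAt.comp (g := extChartAt I x₀) (f := fun p : TangentBundle I M => p.1) V
      contMDiffAt_extChartAt hproj
  have h2 : ContMDiffAt I.tangent 𝓘(ℝ, E →L[ℝ] ℝ) ∞ (fun p : TangentBundle I M =>
      formC I (fun z => (show E →L[ℝ] ℝ from α z)) x₀ (extChartAt I x₀ p.1)) V :=
    ContMDiffAt.comp (g := formC I (fun z => (show E →L[ℝ] ℝ from α z)) x₀)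
      (f := fun p : TangentBundle I M => extChartAt I x₀ p.1) V (h x₀).contMDiffAt h1
  have h3 := h2.clm_apply hcoord
  refine h3.congr_of_eventuallyEq ?_
  have h4 : ∀ᶠ p in 𝓝 V, p.1 ∈ (extChartAt I x₀).source :=
    hproj.continuousAt.preimage_mem_nhds ((isOpen_extChartAt_source (I := I) x₀).mem_nhds
      (mem_extChartAt_source x₀))
  filter_upwards [h4] with p hp
  show α p.1 p.2 = (α ((extChartAt I x₀).symm (extChartAt I x₀ p.1)) : E →L[ℝ] ℝ)
    (dSymm I x₀ (extChartAt I x₀ p.1) _)
  rw [dSymm_coord x₀ hp]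
  have h5 : ∀ z : M, z = p.1 → α p.1 p.2 = (show E →L[ℝ] ℝ from α z) p.2 := by
    rintro _ rfl; rfl
  exact h5 _ ((extChartAt I x₀).left_inv hp)

end forms

variable {E : Type*} [NormedAddCommGroup E] [NormedSpace ℝ E] [FiniteDimensional ℝ E]
  {K : Type*} [TopologicalSpace K] {I : ModelWithCorners ℝ E K} [I.Boundaryless]
  {M : Type*} [TopologicalSpace M] [ChartedSpace K M] [IsManifold I ∞ M]
  {E' : Type u} [NormedAddCommGroup E'] [NormedSpace ℝ E'] [FiniteDimensional ℝ E']
  {K' : Type*} [TopologicalSpace K'] {J : ModelWithCorners ℝ E' K'} [J.Boundaryless]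
  {N : Type*} [TopologicalSpace N] [ChartedSpace K' N] [IsManifold J ∞ N]
  {w : M → E →L[ℝ] E →L[ℝ] ℝ} {w' : N → E' →L[ℝ] E' →L[ℝ] ℝ}

/-- A section of `M × N → N` over a closed `N` along which `w ⊕ w'` is exact and which factors
through a function in the first component is impossible. -/
theorem no_section [T2Space M] [SigmaCompactSpace M] [T2Space N] [CompactSpace N] [Nonempty N]
    (hpos : 0 < Module.finrank ℝ E')
    (halt : ∀ x v, w x v v = 0)
    (hw' : SmoothTwo J w') (halt' : ∀ x v, w' x v v = 0)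
    (hnd' : ∀ x v, (∀ u, w' x v u = 0) → v = 0)
    {U : Set (M × N)} (hU : IsOpen U) {Z : M × N → E × E'}
    (hZ : IsLiouville (I.prod J) (prodForm w w') U Z) {G : N → ℝ} (hG : Sm J G) {q : ℝ → M}
    (hq : ContMDiff 𝓘(ℝ, ℝ) I ∞ q) (hqU : ∀ y, (q (G y), y) ∈ U) : False := by
  -- the section
  set s : N → M × N := fun y => (q (G y), y) with hs
  have hss : ContMDiff J (I.prod J) ∞ s := (hq.comp hG).prodMk contMDiff_id
  have hsK : IsCompact (s '' univ) := isCompact_univ.image hss.continuous
  have hsU : s '' univ ⊆ U := by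
    rintro _ ⟨y, -, rfl⟩
    exact hqU y
  obtain ⟨χ, C, hχ, hC, hCU, hχ1, hχ0⟩ := exists_cutoff (I.prod J) hsK hU hsU
  let α : (z : M × N) → TangentSpace (I.prod J) z →L[ℝ] ℝ := fun z =>
    χ z • (prodForm w w' z (Z z))
  let α₀ : M × N → (E × E') →L[ℝ] ℝ := fun z => prodForm w w' z (Z z)
  have hformC : ∀ (z : M × N) (y : E × E'),
      formC (I.prod J) (fun z => (show (E × E') →L[ℝ] ℝ from α z)) z y =
      χ ((extChartAt (I.prod J) z).symm y) • formC (I.prod J) α₀ z y := by
    intro z y
    ext u <;> rfl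
  have hα : SmoothForm α := by
    apply smoothForm_of_chart
    intro z
    have h1 : ContDiffAt ℝ ∞ (fun y => χ ((extChartAt (I.prod J) z).symm y))
        (extChartAt (I.prod J) z z) :=
      (contDiffOn_chart hχ z).contDiffAt ((isOpen_extChartAt_target z).mem_nhds
        (mem_extChartAt_target z))
    by_cases hz : z ∈ U
    · have h2 := h1.smul (hZ z hz).1
      refine h2.congr_of_eventuallyEq (Filter.Eventually.of_forall fun y => ?_)
      exact hformC z y
    · have hz' : z ∈ Cᶜ := fun h => hz (hCU h)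
      refine (contDiffAt_const (c := (0 : (E × E') →L[ℝ] ℝ))).congr_of_eventuallyEq ?_
      have h3 : ContinuousAt (extChartAt (I.prod J) z).symm (extChartAt (I.prod J) z z) :=
        continuousAt_extChartAt_symm z
      have h4 : Cᶜ ∈ 𝓝 ((extChartAt (I.prod J) z).symm (extChartAt (I.prod J) z z)) := by
        rw [(extChartAt (I.prod J) z).left_inv (mem_extChartAt_source z)]
        exact hC.isClosed.isOpen_compl.mem_nhds hz'
      filter_upwards [h3.preimage_mem_nhds h4] with y hy
      rw [hformC, hχ0 _ hy, zero_smul]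
  -- the exterior derivative along the section
  have hext : ∀ (y : N) (a b : E × E'), extDer (I.prod J) α (s y) a b =
      prodForm w w' (s y) a b := by
    intro y a b
    have h1 : formC (I.prod J) (fun z => (show (E × E') →L[ℝ] ℝ from α z)) (s y) =ᶠ[
        𝓝 (extChartAt (I.prod J) (s y) (s y))] formC (I.prod J) α₀ (s y) := by
      have h3 : ContinuousAt (extChartAt (I.prod J) (s y)).symm
          (extChartAt (I.prod J) (s y) (s y)) := continuousAt_extChartAt_symm (s y)
      have h4 : ∀ᶠ z in 𝓝 ((extChartAt (I.prod J) (s y)).symm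
          (extChartAt (I.prod J) (s y) (s y))), χ z = 1 := by
        rw [(extChartAt (I.prod J) (s y)).left_inv (mem_extChartAt_source (s y))]
        exact hχ1.filter_mono (nhds_le_nhdsSet (mem_image_of_mem s (mem_univ y)))
      filter_upwards [h3.eventually h4] with z hz
      rw [hformC, hz, one_smul]
    have h2 := (hZ (s y) (hqU y)).2 a b
    rw [← h2]
    unfold extD
    have h5 : formC (I.prod J) (fun z => prodForm w w' z (Z z)) (s y) =
      formC (I.prod J) α₀ (s y) := rfl
    rw [h5, ← h1.fderiv_eq]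
    rfl
  -- pull back
  refine closed_not_exact hpos hw' halt' hnd' (smoothForm_pull hss hα) ?_
  intro y u v
  have h1 := extDer_pull (I := I.prod J) (J := J) hss hα y u v
  refine h1.trans ?_
  -- derivative of the section
  obtain ⟨e, he⟩ : ∃ e : E, ∀ u : E', (show E × E' from mfderiv J (I.prod J) s y u) =
      (dif J G y u • e, u) := by
    have h2 : HasMFDerivAt 𝓘(ℝ, ℝ) I q (G y) (mfderiv 𝓘(ℝ, ℝ) I q (G y)) :=
      (hq.mdifferentiableAt (by simp)).hasMFDerivAt
    have h3 : HasMFDerivAt J 𝓘(ℝ, ℝ) G y (mfderiv J 𝓘(ℝ, ℝ) G y) :=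
      (hG.mdifferentiableAt (by simp)).hasMFDerivAt
    have h4 := HasMFDerivAt.comp y h2 h3
    have h5 := h4.prodMk (hasMFDerivAt_id (I := J) y)
    refine ⟨(show ℝ →L[ℝ] E from mfderiv 𝓘(ℝ, ℝ) I q (G y)) 1, fun u => ?_⟩
    have h6 := h5.mfderiv
    have h7 : (fun y => ((q ∘ G) y, id y)) = s := rfl
    rw [h7] at h6
    have h8 := DFunLike.congr_fun h6 u
    refine h8.trans ?_
    refine Prod.ext ?_ rfl
    show (show ℝ →L[ℝ] E from mfderiv 𝓘(ℝ, ℝ) I q (G y)) (dif J G y u) = _
    have h9 : dif J G y u = dif J G y u • (1:ℝ) := by simp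
    rw [h9, map_smul]
    simp
  have gen : ∀ (a b : E × E') (c d : ℝ) (u v : E'), a = (c • e, u) → b = (d • e, v) →
      prodForm w w' (s y) a b = w' y u v := by
    rintro _ _ c d u v rfl rfl
    rw [prodForm_apply]
    simp only [map_smul, smul_apply, halt, smul_zero, zero_add]
    rfl
  exact (hext y _ _).trans (gen _ _ _ _ _ _ (he u) (he v))

end Pool.Agent.J4.H27.Wn
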