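import Mathlib
import Pool.Agent.J4.H27.Wn.Ham

open scoped Topology ContDiff Manifold
open Set Filter Pool.Agent.Helper186

noncomputable section

namespace Pool.Agent.J4.H27.Wn

set_option linter.unusedSectionVars false

universe u

variable {E : Type u} [NormedAddCommGroup E] [NormedSpace ℝ E] [FiniteDimensional ℝ E]
  {K : Type*} [TopologicalSpace K] {I : ModelWithCorners ℝ E K} [I.Boundaryless]
  {M : Type*} [TopologicalSpace M] [ChartedSpace K M] [IsManifold I ∞ M]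
  {w : M → E →L[ℝ] E →L[ℝ] ℝ}

/-- **Flow box on a surface.** -/
lemma flow_box (hdim : Module.finrank ℝ E = 2) {h : M → ℝ} (hh : Sm I h) {q : M}
    {α : ℝ → M} (hα0 : α 0 = q) (hα : ContMDiff 𝓘(ℝ, ℝ) I ∞ α) {v : E}
    (hαv : HasMFDerivAt 𝓘(ℝ, ℝ) I α 0 ((1 : ℝ →L[ℝ] ℝ).smulRight v))
    (hc : ∀ t, h (α t) = h q) (hv : v ≠ 0) (hreg : dif I h q ≠ 0) :
    ∀ᶠ z in 𝓝 q, h z = h q → ∃ t : ℝ, |t| < 1 ∧ z = α t := by
  have : IsManifold I 1 M := IsManifold.of_le (n := ∞) (by simp)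
  subst hα0
  set q := α 0 with hq
  set φ := extChartAt I q with hφ
  set L : E →L[ℝ] ℝ := dif I h q with hL
  -- derivative of `h` along `v`
  have hLv : L v = 0 := by
    have h1 := hasDerivAt_along hαv hh
    have h2 : (fun s => h (α s)) = fun _ => h q := by funext t; exact hc t
    rw [h2] at h1
    exact (h1.unique (hasDerivAt_const _ _))
  obtain ⟨e, he1⟩ : ∃ e, L e = 1 := by
    obtain ⟨u, hu⟩ : ∃ u, L u ≠ 0 := by
      by_contra hcon
      push Not at hcon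
      exact hreg (ContinuousLinearMap.ext hcon)
    exact ⟨(L u)⁻¹ • u, by rw [map_smul, smul_eq_mul, inv_mul_cancel₀ hu]⟩
  -- the curve in the chart
  have hsrc : q ∈ φ.source := mem_extChartAt_source q
  have hαc : ContDiffAt ℝ ∞ (fun t => φ (α t)) 0 := by
    rw [← contMDiffAt_iff_contDiffAt]
    exact ContMDiffAt.comp (g := φ) (f := α) 0 contMDiffAt_extChartAt (hα 0)
  have hαd : HasDerivAt (fun t => φ (α t)) v 0 := by
    have h1 : HasMFDerivAt I 𝓘(ℝ, E) φ (α 0) (ContinuousLinearMap.id ℝ E) := by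
      have h2 : MDifferentiableAt I 𝓘(ℝ, E) φ (α 0) :=
        mdifferentiableAt_extChartAt (mem_chart_source K q)
      have h3 := h2.hasMFDerivAt
      have h4 : mfderiv I 𝓘(ℝ, E) φ (α 0) = ContinuousLinearMap.id ℝ _ := mfderiv_extChartAt_self
      rw [h4] at h3
      exact h3
    have h5 := HasMFDerivAt.comp 0 (g := φ) (f := α) h1 hαv
    have h6 : HasFDerivAt (fun s => φ (α s)) (show ℝ →L[ℝ] E from
      (ContinuousLinearMap.id ℝ E).comp ((1 : ℝ →L[ℝ] ℝ).smulRight v)) 0 :=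
      hasMFDerivAt_iff_hasFDerivAt.1 h5
    refine h6.hasDerivAt.congr_deriv ?_
    show (1:ℝ) • v = v
    rw [one_smul]
  have hstr : HasStrictDerivAt (fun t => φ (α t)) v 0 := by
    have h1 := hαc.hasStrictDerivAt (by simp)
    rwa [hαd.deriv] at h1
  -- the box map
  let Φ : ℝ × ℝ → E := fun p => φ (α p.1) + p.2 • e
  let A : ℝ × ℝ →L[ℝ] E := ((1 : ℝ →L[ℝ] ℝ).smulRight v).comp (ContinuousLinearMap.fst ℝ ℝ ℝ) +
    (ContinuousLinearMap.snd ℝ ℝ ℝ).smulRight e
  have hA : ∀ p : ℝ × ℝ, A p = p.1 • v + p.2 • e := fun p => rfl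
  have hinj : Function.Injective A := by
    rw [injective_iff_map_eq_zero]
    rintro ⟨t, s⟩ hts
    rw [hA] at hts
    simp only at hts
    have hs : s = 0 := by
      have h1 := congrArg L hts
      rw [map_add, map_smul, map_smul, hLv, he1] at h1
      simpa using h1
    subst hs
    rw [zero_smul, add_zero] at hts
    rw [(smul_eq_zero.1 hts).resolve_right hv]
    rfl
  have hfr : Module.finrank ℝ (ℝ × ℝ) = Module.finrank ℝ E := by
    rw [hdim, Module.finrank_prod]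
    simp
  let l : (ℝ × ℝ) ≃ₗ[ℝ] E := LinearEquiv.ofInjectiveOfFinrankEq (A : ℝ × ℝ →ₗ[ℝ] E) hinj hfr
  let lc : (ℝ × ℝ) ≃L[ℝ] E := l.toContinuousLinearEquiv
  have hlc : (lc : ℝ × ℝ →L[ℝ] E) = A := by
    ext <;> rfl
  have hΦ : HasStrictFDerivAt Φ (lc : ℝ × ℝ →L[ℝ] E) (0, 0) := by
    rw [hlc]
    have h1 : HasStrictFDerivAt (fun p : ℝ × ℝ => φ (α p.1))
        (((1 : ℝ →L[ℝ] ℝ).smulRight v).comp (ContinuousLinearMap.fst ℝ ℝ ℝ)) (0, 0) := by
      have h2 : HasStrictFDerivAt (fun t => φ (α t)) ((1 : ℝ →L[ℝ] ℝ).smulRight v)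
          ((0, 0) : ℝ × ℝ).1 := hstr.hasStrictFDerivAt
      exact h2.comp (0, 0) hasStrictFDerivAt_fst
    have h2 : HasStrictFDerivAt (fun p : ℝ × ℝ => p.2 • e)
        ((ContinuousLinearMap.snd ℝ ℝ ℝ).smulRight e) (0, 0) :=
      hasStrictFDerivAt_snd.smul_const e
    exact h1.add h2
  have hΦ0 : Φ (0, 0) = φ q := by simp [Φ, hq]
  have hmap : map Φ (𝓝 (0, 0)) = 𝓝 (φ q) := by
    rw [← hΦ0]
    exact hΦ.map_nhds_eq_of_equiv
  -- the strict estimate
  have hhs : HasStrictFDerivAt (fun y => h (φ.symm y)) L (φ q) := by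
    have h1 := ((contDiffOn_chart hh q).contDiffAt ((isOpen_extChartAt_target q).mem_nhds
      (mem_extChartAt_target q))).hasStrictFDerivAt (by simp)
    rw [hL, dif_self hh]
    exact h1
  set c₀ : ℝ := 1 / (2 * (‖e‖ + 1)) with hc₀
  have hc₀pos : 0 < c₀ := by positivity
  have hest : ∀ᶠ p : E × E in 𝓝 (φ q, φ q),
      ‖h (φ.symm p.1) - h (φ.symm p.2) - L (p.1 - p.2)‖ ≤ c₀ * ‖p.1 - p.2‖ :=
    (hhs.isLittleO.def hc₀pos)
  have hcontΦ : ContinuousAt Φ (0, 0) := hΦ.continuousAt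
  have hcontα : ContinuousAt (fun p : ℝ × ℝ => φ (α p.1)) (0, 0) := by
    have h1 : ContinuousAt (fun t => φ (α t)) ((0, 0) : ℝ × ℝ).1 := hαd.continuousAt
    exact ContinuousAt.comp (g := fun t => φ (α t)) (f := fun p : ℝ × ℝ => p.1) h1
      continuousAt_fst
  have hgood : ∀ᶠ p : ℝ × ℝ in 𝓝 (0, 0), |p.1| < 1 ∧ α p.1 ∈ φ.source ∧
      ‖h (φ.symm (Φ p)) - h (φ.symm (φ (α p.1))) - L (Φ p - φ (α p.1))‖ ≤
        c₀ * ‖Φ p - φ (α p.1)‖ := by
    have h1 : ∀ᶠ p : ℝ × ℝ in 𝓝 (0, 0), |p.1| < 1 := by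
      have h2 : Continuous (fun p : ℝ × ℝ => |p.1|) := by fun_prop
      exact (isOpen_Iio.preimage h2).mem_nhds (by simp)
    have h2 : ∀ᶠ p : ℝ × ℝ in 𝓝 (0, 0), α p.1 ∈ φ.source := by
      have h3 : Continuous (fun p : ℝ × ℝ => α p.1) := hα.continuous.comp continuous_fst
      exact ((isOpen_extChartAt_source q).preimage h3).mem_nhds hsrc
    have h3 : Tendsto (fun p : ℝ × ℝ => (Φ p, φ (α p.1))) (𝓝 (0, 0)) (𝓝 (φ q, φ q)) := by
      have h4 := (hcontΦ.prodMk hcontα).tendsto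
      rw [hΦ0] at h4
      exact h4
    exact h1.and (h2.and (h3.eventually hest))
  have himg : Φ '' {p | |p.1| < 1 ∧ α p.1 ∈ φ.source ∧
      ‖h (φ.symm (Φ p)) - h (φ.symm (φ (α p.1))) - L (Φ p - φ (α p.1))‖ ≤
        c₀ * ‖Φ p - φ (α p.1)‖} ∈ 𝓝 (φ q) := by
    rw [← hmap]
    exact image_mem_map hgood
  have hφc : Tendsto φ (𝓝 q) (𝓝 (φ q)) := (continuousAt_extChartAt q).tendsto
  filter_upwards [hφc himg, (isOpen_extChartAt_source (I := I) q).mem_nhds hsrc]
    with z hz hzs hzc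
  obtain ⟨⟨t, s⟩, ⟨h1, h2, h3⟩, h4⟩ := hz
  simp only at h1 h2 h3
  have h5 : Φ (t, s) - φ (α t) = s • e := by simp [Φ]
  have hs : s = 0 := by
    rw [h5, h4, show φ.symm (φ z) = z from φ.left_inv hzs,
      show φ.symm (φ (α t)) = α t from φ.left_inv h2, hzc, hc t, sub_self, zero_sub, norm_neg,
      map_smul, he1, norm_smul, norm_smul, norm_one, mul_one, Real.norm_eq_abs] at h3
    by_contra hs0
    have hspos : 0 < |s| := abs_pos.2 hs0
    have h6 : c₀ * (|s| * ‖e‖) < |s| := by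
      rw [hc₀, div_mul_eq_mul_div, div_lt_iff₀ (by positivity)]
      nlinarith [norm_nonneg e]
    linarith
  subst hs
  refine ⟨t, h1, ?_⟩
  have h6 : φ (α t) = φ z := by
    rw [← h4]
    simp [Φ]
  exact (φ.injOn h2 hzs h6).symm

variable [T2Space M] [SigmaCompactSpace M]

/-- **On a surface every compact regular piece of a level set contains a periodic orbit.** -/
theorem wein_surface (hdim : Module.finrank ℝ E = 2)
    (hw : SmoothTwo I w) (halt : ∀ x v, w x v v = 0) (hnd : ∀ x v, (∀ u, w x v u = 0) → v = 0)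
    {h : M → ℝ} (hh : Sm I h) (b : Prop) : Wein I b w h := by
  intro P hP
  obtain ⟨c, V, hV, hPV⟩ := hP.piece
  have : IsManifold I 1 M := IsManifold.of_le (n := ∞) (by simp)
  obtain ⟨χ, C, hχ, hC, -, hχ1, hχ0⟩ := exists_cutoff I hP.compact isOpen_univ (subset_univ P)
  set f : M → ℝ := fun x => χ x * (h x - c) with hfdef
  have hf : Sm I f := hχ.mul (hh.sub contMDiff_const)
  obtain ⟨X, hXs, hX⟩ := exists_hamX hw hnd hf
  have hX0 : ∀ x ∉ C, X x = 0 := by
    intro x hx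
    apply hnd x
    intro u
    rw [hX]
    have h1 : f =ᶠ[𝓝 x] fun _ => 0 := by
      filter_upwards [hC.isClosed.isOpen_compl.mem_nhds hx] with y hy
      simp [hfdef, hχ0 y hy]
    have h2 : dif I f x = 0 := by
      unfold dif
      rw [h1.mfderiv_eq, mfderiv_const]
      rfl
    rw [h2]
    simp
  choose Fl h0 hFl using complete_of_compact hXs hC hX0
  have hPc : ∀ x ∈ P, h x = c ∧ x ∈ V := by
    intro x hx
    rw [hPV] at hx
    exact hx
  have hfh : ∀ x ∈ P, ∀ᶠ y in 𝓝 x, f y = h y - c := by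
    intro x hx
    filter_upwards [hχ1.filter_mono (nhds_le_nhdsSet hx)] with y hy
    simp [hfdef, hy]
  have hdf : ∀ x ∈ P, dif I f x = dif I h x := by
    intro x hx
    have h1 : f =ᶠ[𝓝 x] fun y => h y - c := hfh x hx
    have h2 : HasMFDerivAt I 𝓘(ℝ, ℝ) h x (mfderiv I 𝓘(ℝ, ℝ) h x) :=
      (hh.mdifferentiableAt (by simp)).hasMFDerivAt
    have h3 := h2.sub (hasMFDerivAt_const (I := I) (I' := 𝓘(ℝ, ℝ)) c x)
    unfold dif
    rw [h1.mfderiv_eq]
    refine Eq.trans h3.mfderiv ?_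
    exact sub_zero _
  have hf0 : ∀ x ∈ P, f x = 0 := by
    intro x hx
    rw [(hfh x hx).self_of_nhds, (hPc x hx).1, sub_self]
  -- the function is constant along the flow
  have hfc : ∀ x t, f (Fl x t) = f x := by
    intro x t
    have hd : ∀ s, HasDerivAt (fun s => f (Fl x s)) 0 s := by
      intro s
      have h1 := hasDerivAt_along (v := (show E from X (Fl x s))) (hFl x s) hf
      have h2 : dif I f (Fl x s) (X (Fl x s)) = 0 := by
        have h3 := hX (Fl x s) (X (Fl x s))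
        have h4 : w (Fl x s) (X (Fl x s)) (X (Fl x s)) = 0 := halt (Fl x s) (show E from X (Fl x s))
        rw [h4] at h3
        linarith
      rwa [h2] at h1
    have := is_const_of_deriv_eq_zero (fun s => (hd s).differentiableAt)
      (fun s => (hd s).deriv) t 0
    simpa [h0] using this
  have hFc : ∀ x, Continuous (Fl x) := fun x => (hFl x).continuous
  -- the flow preserves `P`
  have hinv : ∀ x ∈ P, ∀ t, Fl x t ∈ P := by
    intro x hx
    have hcl : IsClopen {t | Fl x t ∈ P} := by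
      constructor
      · exact hP.compact.isClosed.preimage (hFc x)
      · rw [isOpen_iff_mem_nhds]
        intro t ht
        have h1 : ∀ᶠ y in 𝓝 (Fl x t), f y = h y - c := hfh _ ht
        have h2 : ∀ᶠ y in 𝓝 (Fl x t), y ∈ V := hV.mem_nhds (hPc _ ht).2
        filter_upwards [(hFc x).continuousAt.eventually h1, (hFc x).continuousAt.eventually h2]
          with s hs1 hs2
        show Fl x s ∈ P
        rw [hPV]
        refine ⟨?_, hs2⟩
        show h (Fl x s) = c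
        rw [hfc, hf0 x hx] at hs1
        linarith
    have huniv : {t | Fl x t ∈ P} = univ := hcl.eq_univ ⟨0, by
      show Fl x 0 ∈ P
      rw [h0]; exact hx⟩
    intro t
    have : t ∈ {t | Fl x t ∈ P} := by rw [huniv]; trivial
    exact this
  have hsm := contMDiff_flow hXs h0 hFl
  have hadd := flow_add hXs h0 hFl
  have hbox : ∀ q ∈ P, ∀ᶠ z in 𝓝 q, z ∈ P → ∃ t : ℝ, |t| < 1 ∧ z = Fl q t := by
    intro q hq
    have hα : ContMDiff 𝓘(ℝ, ℝ) I ∞ (Fl q) := by
      have h1 : ContMDiff 𝓘(ℝ, ℝ) (I.prod 𝓘(ℝ, ℝ)) ∞ (fun t : ℝ => (q, t)) :=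
        contMDiff_const.prodMk contMDiff_id
      exact hsm.comp h1
    have hv : (X (Fl q 0) : E) ≠ 0 := by
      intro hz
      apply hP.regular _ (hinv q hq 0)
      rw [← hdf _ (hinv q hq 0)]
      refine ContinuousLinearMap.ext fun u => ?_
      have h1 := hX (Fl q 0) u
      have h2 : w (Fl q 0) (X (Fl q 0)) = 0 := by
        have h3 : w (Fl q 0) (X (Fl q 0)) = w (Fl q 0) (0 : E) := congrArg _ hz
        rw [h3, map_zero]
      rw [h2] at h1
      simpa using h1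
    have hev := flow_box hdim hh (h0 q) hα (hFl q 0) (fun t => by
      rw [(hPc _ (hinv q hq t)).1, (hPc _ hq).1]) hv (hP.regular q hq)
    filter_upwards [hev] with z hz hzP
    exact hz (by rw [(hPc _ hzP).1, (hPc _ hq).1])
  -- recurrence
  obtain ⟨x₀, hx₀⟩ := hP.nonempty
  obtain ⟨q, hq, hcl⟩ := hP.compact.exists_mapClusterPt_of_frequently
    (l := (atTop : Filter ℕ)) (f := fun n : ℕ => Fl x₀ (n : ℝ))
    (Filter.Frequently.of_forall fun n => hinv x₀ hx₀ n)
  have hfreq : ∃ᶠ n : ℕ in atTop, ∃ t : ℝ, |t| < 1 ∧ Fl x₀ (n : ℝ) = Fl q t := by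
    have h1 := hcl.frequently (hbox q hq)
    exact h1.mono fun n hn => hn (hinv x₀ hx₀ n)
  rw [Filter.frequently_atTop] at hfreq
  obtain ⟨n, -, s, hs, hns⟩ := hfreq 0
  obtain ⟨m, hm, s', hs', hms⟩ := hfreq (n + 2)
  have hm' : (n : ℝ) + 2 ≤ m := by exact_mod_cast hm
  have e1 : ∀ t, Fl x₀ (n + (t - s)) = Fl q t := by
    intro t
    rw [hadd x₀ n (t - s), hns, ← hadd]
    congr 1; ring
  have e2 : ∀ t, Fl x₀ (m + (t - s')) = Fl q t := by
    intro t
    rw [hadd x₀ m (t - s'), hms, ← hadd]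
    congr 1; ring
  rw [abs_lt] at hs hs'
  refine ⟨Fl x₀, fun t => ⟨X (Fl x₀ t), hFl x₀ t, fun u => ?_⟩,
    ⟨(m - s') - (n - s), by linarith, fun t => ?_⟩, hinv x₀ hx₀⟩
  · rw [← hdf _ (hinv x₀ hx₀ t)]
    exact hX _ u
  · have h1 := e1 (t - n + s)
    have h2 := e2 (t - n + s)
    have h3 : (n : ℝ) + (t - n + s - s) = t := by ring
    have h4 : (m : ℝ) + (t - n + s - s') = t + ((m - s') - (n - s)) := by ring
    rw [h3] at h1
    rw [h4] at h2
    rw [h1, h2]

end Pool.Agent.J4.H27.Wn
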