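import Mathlib
import Pool.Agent.J4.H27.Wn.PartB
import Pool.Agent.J4.H27.Wn.Surface

open scoped Topology ContDiff Manifold
open Set Filter Pool.Agent.Helper186

noncomputable section

namespace Pool.Agent.J4.H27.Wn

set_option linter.unusedSectionVars false

universe u

variable {E : Type*} [NormedAddCommGroup E] [NormedSpace ℝ E] [FiniteDimensional ℝ E]
  {K : Type*} [TopologicalSpace K] {I : ModelWithCorners ℝ E K} [I.Boundaryless]
  {M : Type*} [TopologicalSpace M] [ChartedSpace K M] [IsManifold I ∞ M]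
  {E' : Type u} [NormedAddCommGroup E'] [NormedSpace ℝ E'] [FiniteDimensional ℝ E']
  {K' : Type*} [TopologicalSpace K'] {J : ModelWithCorners ℝ E' K'} [J.Boundaryless]
  {N : Type*} [TopologicalSpace N] [ChartedSpace K' N] [IsManifold J ∞ N]
  {w : M → E →L[ℝ] E →L[ℝ] ℝ} {w' : N → E' →L[ℝ] E' →L[ℝ] ℝ}

/-- **Closed second factor.** -/
theorem wein_closed [T2Space M] [SigmaCompactSpace M] [T2Space N] [ConnectedSpace N]
    [CompactSpace N]
    (hpos : 0 < Module.finrank ℝ E')
    (halt : ∀ x v, w x v v = 0)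
    (hw' : SmoothTwo J w') (halt' : ∀ x v, w' x v v = 0)
    (hnd' : ∀ x v, (∀ u, w' x v u = 0) → v = 0)
    {b : Prop} {H : M × N → ℝ} (hH : Sm (I.prod J) H) {G : N → ℝ}
    (hG : Sm J G) (hdep : ∀ x y v, dif J G y v = 0 → dif J (fun y => H (x, y)) y v = 0)
    (hfac : ∀ x y y', G y = G y' → H (x, y) = H (x, y'))
    (hWG : Wein J b w' G) {c : ℝ}
    (hP : IsPiece (I.prod J) b (prodForm w w') H {p | H p = c})
    {U : Set (M × N)} {Z : M × N → E × E'} (hU : IsOpen U) (hPU : {p : M × N | H p = c} ⊆ U)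
    (hZ : IsLiouville (I.prod J) (prodForm w w') U Z) :
    ∃ (x₀ : M) (γ : ℝ → M × N), IsPeriodicIn (I.prod J) (prodForm w w') H {p | H p = c} γ ∧
      ∀ t, (γ t).1 = x₀ := by
  by_contra hcon
  have hne : ∀ x y, H (x, y) = c → dif I (fun x => H (x, y)) x ≠ 0 := by
    intro x y hxy h0
    exact hcon ⟨x, slice_right hH hG hdep hWG hP hxy h0⟩
  set P : Set (M × N) := {p | H p = c} with hPdef
  have hcomp : IsCompact (Prod.snd '' P) := hP.compact.image continuous_snd
  have hopen : IsOpen (Prod.snd '' P) := by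
    rw [isOpen_iff_mem_nhds]
    rintro y₀ ⟨⟨x₀, y⟩, hp, rfl⟩
    have hp' : H (x₀, y) = c := hp
    filter_upwards [open_image (V := univ) hH isOpen_univ (mem_univ (x₀, y)) (hne x₀ y hp')]
      with y' hy'
    obtain ⟨x, h1, -⟩ := hy'
    refine ⟨(x, y'), ?_, rfl⟩
    exact h1.trans hp'
  have huniv : Prod.snd '' P = univ :=
    IsClopen.eq_univ ⟨hcomp.isClosed, hopen⟩ (hP.nonempty.image _)
  have hsec : ∀ y : N, ∃ x, H (x, y) = c := by
    intro y
    have : y ∈ Prod.snd '' P := by rw [huniv]; trivial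
    obtain ⟨⟨x, y'⟩, h1, rfl⟩ := this
    exact ⟨x, h1⟩
  -- extrema of `G`
  obtain ⟨ya, -, hya⟩ := isCompact_univ.exists_isMinOn (univ_nonempty (α := N))
    hG.continuous.continuousOn
  obtain ⟨yb, -, hyb⟩ := isCompact_univ.exists_isMaxOn (univ_nonempty (α := N))
    hG.continuous.continuousOn
  have hab : ∀ y, G y ∈ Icc (G ya) (G yb) := fun y => ⟨hya (mem_univ y), hyb (mem_univ y)⟩
  have hle : G ya ≤ G yb := (hab ya).2
  have hsurj : ∀ g ∈ Icc (G ya) (G yb), ∃ y, G y = g := by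
    intro g hg
    have := intermediate_value_univ ya yb hG.continuous hg
    exact this
  -- a set-theoretic section of `G`
  have hσ : ∀ g : ℝ, ∃ y, G y = (projIcc (G ya) (G yb) hle g : ℝ) := fun g =>
    hsurj _ (projIcc (G ya) (G yb) hle g).2
  choose σ hσG using hσ
  have hσI : ∀ g ∈ Icc (G ya) (G yb), G (σ g) = g := by
    intro g hg
    rw [hσG, projIcc_of_mem hle hg]
  let F : M × ℝ → ℝ := fun z => H (z.1, σ z.2)
  have hFc : Continuous F := by
    rw [continuous_iff_isClosed]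
    intro C hC
    have h1 : F ⁻¹' C = Prod.fst '' {q : (M × ℝ) × N |
        G q.2 = (projIcc (G ya) (G yb) hle q.1.2 : ℝ) ∧ H (q.1.1, q.2) ∈ C} := by
      ext z
      constructor
      · intro hz
        exact ⟨(z, σ z.2), ⟨hσG z.2, hz⟩, rfl⟩
      · rintro ⟨⟨z', y⟩, ⟨h1, h2⟩, rfl⟩
        show H (z'.1, σ z'.2) ∈ C
        rw [hfac z'.1 (σ z'.2) y ((hσG _).trans h1.symm)]
        exact h2
    rw [h1]
    apply isClosedMap_fst_of_compactSpace
    have h2 : IsClosed {q : (M × ℝ) × N | G q.2 = (projIcc (G ya) (G yb) hle q.1.2 : ℝ)} := by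
      refine isClosed_eq (hG.continuous.comp continuous_snd) ?_
      exact continuous_subtype_val.comp (continuous_projIcc.comp (by fun_prop))
    have h3 : IsClosed {q : (M × ℝ) × N | H (q.1.1, q.2) ∈ C} :=
      hC.preimage (f := fun q : (M × ℝ) × N => H (q.1.1, q.2))
        (hH.continuous.comp (by fun_prop))
    exact h2.inter h3
  have hFs : ∀ g, Sm I (fun x => F (x, g)) := fun g => sm_left hH (σ g)
  have hFG : ∀ x y, F (x, G y) = H (x, y) := by
    intro x y
    exact hfac x _ _ (hσI _ (hab y))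
  -- the open set of admissible pairs
  set W : Set (M × ℝ) := {z | ∀ y, G y = z.2 → (z.1, y) ∈ U} with hWdef
  have hWo : IsOpen W := by
    rw [← isClosed_compl_iff]
    have h1 : Wᶜ = Prod.fst '' {q : (M × ℝ) × N | G q.2 = q.1.2 ∧ (q.1.1, q.2) ∉ U} := by
      ext z
      simp only [hWdef, mem_compl_iff, mem_image]
      constructor
      · intro h
        have h' : ¬ ∀ y, G y = z.2 → (z.1, y) ∈ U := h
        push Not at h'
        obtain ⟨y, h1, h2⟩ := h'
        exact ⟨(z, y), ⟨h1, h2⟩, rfl⟩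
      · rintro ⟨⟨z', y⟩, ⟨h1, h2⟩, rfl⟩ h
        exact h2 (h y h1)
    rw [h1]
    apply isClosedMap_fst_of_compactSpace
    have h2 : IsClosed {q : (M × ℝ) × N | G q.2 = q.1.2} :=
      isClosed_eq (hG.continuous.comp continuous_snd) (by fun_prop)
    have h3 : IsClosed {q : (M × ℝ) × N | (q.1.1, q.2) ∉ U} :=
      hU.isClosed_compl.preimage (f := fun q : (M × ℝ) × N => (q.1.1, q.2)) (by fun_prop)
    exact h2.inter h3
  have hcur := exists_curve (I := I) hFc hFs hWo (a := G ya) (b := G yb) (c := c) hle ?_ ?_ ?_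
    (by
      obtain ⟨x, hx⟩ := hsec yb
      exact ⟨x, (hFG x yb).trans hx⟩)
  · obtain ⟨q, hq, hqW⟩ := hcur
    have hqU : ∀ y, (q (G y), y) ∈ U := fun y => hqW (G y) (hab y) y rfl
    have : Nonempty N := ⟨ya⟩
    exact no_section hpos halt hw' halt' hnd' hU hZ hG hq hqU
  · have h1 : {z : M × ℝ | F z = c ∧ z.2 ∈ Icc (G ya) (G yb)} =
        (fun p : M × N => (p.1, G p.2)) '' P := by
      ext z
      constructor
      · rintro ⟨h1, h2⟩
        obtain ⟨y, hy⟩ := hsurj z.2 h2
        refine ⟨(z.1, y), ?_, ?_⟩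
        · show H (z.1, y) = c
          rw [← hFG, hy]; exact h1
        · exact Prod.ext rfl hy
      · rintro ⟨p, hp, rfl⟩
        exact ⟨(hFG p.1 p.2).trans hp, hab p.2⟩
    rw [h1]
    exact hP.compact.image (continuous_fst.prodMk (hG.continuous.comp continuous_snd))
  · intro x g hg hx y hy
    refine hPU (show H (x, y) = c from ?_)
    have hy' : G y = g := hy
    rw [← hFG, hy']; exact hx
  · intro x g hg hx
    exact hne x (σ g) hx

end Pool.Agent.J4.H27.Wn
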