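import Mathlib
import Pool.Agent.J4.H27.Wn.Defs

/-! One-parameter subgroups and momentum maps of actions of topological groups. -/

open scoped Topology ContDiff Manifold
open Set

noncomputable section

namespace Pool.Agent.J4.H27.Wn

/-- A one-parameter subgroup of a topological group `Γ`: a continuous homomorphism `ℝ → Γ`. -/
structure OneParam (Γ : Type*) [Group Γ] [TopologicalSpace Γ] where
  toFun : ℝ → Γ
  cont : Continuous toFun
  add : ∀ s t, toFun (s + t) = toFun s * toFun t

namespace OneParam

variable {Γ : Type*} [Group Γ] [TopologicalSpace Γ]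

instance : CoeFun (OneParam Γ) (fun _ => ℝ → Γ) := ⟨toFun⟩

/-- The conjugate one-parameter subgroup `s ↦ g X(s) g⁻¹`. -/
def conj [IsTopologicalGroup Γ] (g : Γ) (X : OneParam Γ) : OneParam Γ where
  toFun s := g * X s * g⁻¹
  cont := (continuous_const.mul X.cont).mul continuous_const
  add s t := by rw [X.add]; group

end OneParam

section

variable {E : Type*} [NormedAddCommGroup E] [NormedSpace ℝ E]
  {K : Type*} [TopologicalSpace K] (I : ModelWithCorners ℝ E K)
  {M : Type*} [TopologicalSpace M] [ChartedSpace K M]

/-- `J` is a momentum map for the action of the topological group `Γ` on `M` and the two-form `w`: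
for each one-parameter subgroup `X` of `Γ` the function `J X` is smooth, the curves `s ↦ X(s) p`
are the solutions of its Hamilton equation `w(γ', ·) = -d(J X)`, and `J` is equivariant:
`J (g X g⁻¹) (g p) = J X p`. -/
structure IsMomentum {Γ : Type*} [Group Γ] [TopologicalSpace Γ] [IsTopologicalGroup Γ]
    [MulAction Γ M] (w : M → E →L[ℝ] E →L[ℝ] ℝ) (J : OneParam Γ → M → ℝ) : Prop where
  smooth : ∀ X, ContMDiff I 𝓘(ℝ, ℝ) ∞ (J X)
  flow : ∀ (X : OneParam Γ) (p : M), IsOrbit I w (J X) (fun s => X s • p)
  equivariant : ∀ (g : Γ) (X : OneParam Γ) (p : M), J (X.conj g) (g • p) = J X p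

end

end Pool.Agent.J4.H27.Wn
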