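import Mathlib
import Pool.Agent.J4.H27.Wn.Ham

/-! Time changes of closed curves tangent to the characteristic direction. -/

open scoped Topology ContDiff Manifold
open Set Filter

noncomputable section

namespace Pool.Agent.J4.H27.Wn

set_option linter.unusedSectionVars false

/-- The inverse of the primitive of a positive periodic function. -/
lemma exists_time_pos {l : ℝ → ℝ} (hc : Continuous l) (hpos : ∀ s, 0 < l s)
    (hper : ∀ s, l (s + 1) = l s) :
    ∃ (σ : ℝ → ℝ) (T : ℝ), 0 < T ∧ Function.Surjective σ ∧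
      (∀ t, HasDerivAt σ (l (σ t))⁻¹ t) ∧ ∀ t, σ (t + T) = σ t + 1 := by
  have hP : Function.Periodic l 1 := hper
  set τ : ℝ → ℝ := fun s => ∫ x in (0:ℝ)..s, l x with hτ
  have hint : ∀ a b, IntervalIntegrable l MeasureTheory.volume a b := fun a b =>
    hc.intervalIntegrable a b
  have hd : ∀ s, HasDerivAt τ (l s) s := fun s => by
    simpa using intervalIntegral.integral_hasDerivAt_right (hint 0 s)
      (hc.stronglyMeasurableAtFilter _ _) hc.continuousAt
  have hmono : StrictMono τ := strictMono_of_hasDerivAt_pos hd hpos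
  have hcont : Continuous τ := continuous_iff_continuousAt.2 fun s => (hd s).continuousAt
  have hT : 0 < τ 1 := by
    have h1 := hmono (show (0:ℝ) < 1 by norm_num)
    simpa [hτ] using h1
  have hadd : ∀ s, τ (s + 1) = τ s + τ 1 := by
    intro s
    have h1 := hP.intervalIntegral_add_eq s 0
    have h2 := intervalIntegral.integral_add_adjacent_intervals (hint 0 s) (hint s (s + 1))
    simp only [hτ]
    rw [← h2, h1]
    simp
  have hsurj : Function.Surjective τ := by
    refine hcont.surjective ?_ ?_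
    · exact hP.tendsto_atTop_intervalIntegral_of_pos' (hint 0 1) hpos (by norm_num)
    · exact hP.tendsto_atBot_intervalIntegral_of_pos' (hint 0 1) hpos (by norm_num)
  set e := hmono.orderIsoOfSurjective τ hsurj with he
  have hτe : ∀ t, τ (e.symm t) = t := fun t => e.apply_symm_apply t
  have heτ : ∀ s, e.symm (τ s) = s := fun s => e.symm_apply_apply s
  refine ⟨e.symm, τ 1, hT, e.symm.surjective, fun t => ?_, fun t => ?_⟩
  · exact HasDerivAt.of_local_left_inverse e.symm.continuous.continuousAt (hd _)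
      (hpos _).ne' (Filter.Eventually.of_forall hτe)
  · have h1 : τ (e.symm t + 1) = t + τ 1 := by rw [hadd, hτe]
    rw [← h1, heτ]

lemma exists_time {l : ℝ → ℝ} (hc : Continuous l) (hne : ∀ s, l s ≠ 0)
    (hper : ∀ s, l (s + 1) = l s) :
    ∃ (σ : ℝ → ℝ) (T : ℝ), 0 < T ∧ Function.Surjective σ ∧
      (∀ t, HasDerivAt σ (l (σ t))⁻¹ t) ∧
      ((∀ t, σ (t + T) = σ t + 1) ∨ ∀ t, σ (t + T) = σ t - 1) := by
  rcases lt_or_gt_of_ne (hne 0) with h0 | h0
  · have hneg : ∀ s, l s < 0 := by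
      intro s
      by_contra hs
      have hs' : 0 < l s := lt_of_le_of_ne (not_lt.1 hs) (hne s).symm
      obtain ⟨z, hz⟩ := mem_range_of_exists_le_of_exists_ge hc ⟨0, h0.le⟩ ⟨s, hs'.le⟩
      exact hne z hz
    obtain ⟨σ, T, hT, hsurj, hd, hp⟩ := exists_time_pos (l := fun s => - l s) hc.neg
      (fun s => neg_pos.2 (hneg s)) (fun s => by simp [hper])
    refine ⟨fun t => σ (-t), T, hT, fun y => ?_, fun t => ?_, Or.inr fun t => ?_⟩
    · obtain ⟨x, hx⟩ := hsurj y
      exact ⟨-x, by simpa using hx⟩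
    · have h1 := (hd (-t)).comp t (hasDerivAt_neg t)
      refine h1.congr_deriv ?_
      rw [inv_neg]
      ring
    · have h1 := hp (-t - T)
      rw [sub_add_cancel] at h1
      show σ (-(t + T)) = σ (-t) - 1
      rw [h1, show -(t + T) = -t - T by ring]
      ring
  · have hpos : ∀ s, 0 < l s := by
      intro s
      by_contra hs
      have hs' : l s < 0 := lt_of_le_of_ne (not_lt.1 hs) (hne s)
      obtain ⟨z, hz⟩ := mem_range_of_exists_le_of_exists_ge hc ⟨s, hs'.le⟩ ⟨0, h0.le⟩
      exact hne z hz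
    obtain ⟨σ, T, hT, hsurj, hd, hp⟩ := exists_time_pos hc hpos hper
    exact ⟨σ, T, hT, hsurj, hd, Or.inl hp⟩

universe u

variable {E : Type u} [NormedAddCommGroup E] [NormedSpace ℝ E] [FiniteDimensional ℝ E]
  {K : Type*} [TopologicalSpace K] {I : ModelWithCorners ℝ E K} [I.Boundaryless]
  {M : Type*} [TopologicalSpace M] [ChartedSpace K M] [IsManifold I ∞ M]
  {w : M → E →L[ℝ] E →L[ℝ] ℝ}

/-- A closed curve whose velocity is a nonzero multiple of the Hamiltonian vector field can be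
reparametrized to a periodic orbit. -/
theorem time_change {h : M → ℝ} {γ : ℝ → M} {v : ℝ → E} {l : ℝ → ℝ}
    (hγ : ∀ s, HasMFDerivAt 𝓘(ℝ, ℝ) I γ s ((1 : ℝ →L[ℝ] ℝ).smulRight (v s)))
    (hper : ∀ s, γ (s + 1) = γ s) (hc : Continuous l) (hne : ∀ s, l s ≠ 0)
    (hlper : ∀ s, l (s + 1) = l s)
    (hham : ∀ s u, w (γ s) (v s) u = - (l s * dif I h (γ s) u)) :
    ∃ x : ℝ → M, IsOrbit I w h x ∧ (∃ T > 0, ∀ t, x (t + T) = x t) ∧ range x = range γ := by
  obtain ⟨σ, T, hT, hsurj, hd, hp⟩ := exists_time hc hne hlper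
  refine ⟨fun t => γ (σ t), fun t => ?_, ⟨T, hT, fun t => ?_⟩, ?_⟩
  · refine ⟨(l (σ t))⁻¹ • v (σ t), ?_, fun u => ?_⟩
    · have h1 := (hd t).hasFDerivAt.hasMFDerivAt
      have h2 := HasMFDerivAt.comp t (hγ (σ t)) h1
      refine h2.congr_mfderiv ?_
      refine ContinuousLinearMap.ext fun (r : ℝ) => ?_
      have h3 : (r * (l (σ t))⁻¹) • v (σ t) = r • ((l (σ t))⁻¹ • v (σ t)) := mul_smul _ _ _
      exact h3
    · show w (γ (σ t)) ((l (σ t))⁻¹ • v (σ t)) u = _
      rw [map_smul, smul_apply, hham, smul_eq_mul]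
      field_simp [hne (σ t)]
  · rcases hp with hp | hp
    · show γ (σ (t + T)) = γ (σ t)
      rw [hp, hper]
    · show γ (σ (t + T)) = γ (σ t)
      rw [hp, ← hper (σ t - 1), sub_add_cancel]
  · ext z
    constructor
    · rintro ⟨t, rfl⟩
      exact ⟨σ t, rfl⟩
    · rintro ⟨s, rfl⟩
      obtain ⟨t, rfl⟩ := hsurj s
      exact ⟨t, rfl⟩

/-- The multiplier along a curve is continuous. -/
lemma multiplier_continuous {h g : M → ℝ} (hh : Sm I h) (hg : Sm I g) {γ : ℝ → M}
    (hγ : Continuous γ) {l : ℝ → ℝ} (hreg : ∀ s, dif I h (γ s) ≠ 0)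
    (hl : ∀ s, dif I g (γ s) = l s • dif I h (γ s)) : Continuous l := by
  rw [continuous_iff_continuousAt]
  intro s₀
  set p := γ s₀ with hp
  set φ := extChartAt I p with hφ
  have hcD : ∀ {f : M → ℝ}, Sm I f →
      ContinuousAt (fderiv ℝ (fun y => f (φ.symm y))) (φ p) := by
    intro f hf
    have h1 := (contDiffOn_chart hf p).contDiffAt ((isOpen_extChartAt_target p).mem_nhds
      (mem_extChartAt_target p))
    exact (h1.fderiv_right (m := 0) (by simp)).continuousAt
  have hcφ : ContinuousAt (fun s => φ (γ s)) s₀ :=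
    ContinuousAt.comp (g := φ) (f := γ) (x := s₀) (continuousAt_extChartAt p) hγ.continuousAt
  obtain ⟨v, hv⟩ : ∃ v, fderiv ℝ (fun y => h (φ.symm y)) (φ p) v ≠ 0 := by
    by_contra hcon
    push Not at hcon
    apply hreg s₀
    rw [← hp, dif_self hh]
    exact ContinuousLinearMap.ext hcon
  have hnum : ∀ {f : M → ℝ}, Sm I f →
      ContinuousAt (fun s => fderiv ℝ (fun y => f (φ.symm y)) (φ (γ s)) v) s₀ := by
    intro f hf
    have h1 : ContinuousAt (fun s => fderiv ℝ (fun y => f (φ.symm y)) (φ (γ s))) s₀ :=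
      ContinuousAt.comp (g := fderiv ℝ (fun y => f (φ.symm y))) (f := fun s => φ (γ s))
        (x := s₀) (hcD hf) hcφ
    exact h1.clm_apply continuousAt_const
  have h3 : ContinuousAt (fun s => fderiv ℝ (fun y => g (φ.symm y)) (φ (γ s)) v /
      fderiv ℝ (fun y => h (φ.symm y)) (φ (γ s)) v) s₀ :=
    (hnum hg).div (hnum hh) hv
  refine h3.congr ?_
  have h4 : ∀ᶠ s in 𝓝 s₀, γ s ∈ φ.source :=
    hγ.continuousAt.eventually ((isOpen_extChartAt_source (I := I) p).mem_nhds
      (mem_extChartAt_source p))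
  have h5 : ∀ᶠ s in 𝓝 s₀, fderiv ℝ (fun y => h (φ.symm y)) (φ (γ s)) v ≠ 0 :=
    (hnum hh).eventually_ne hv
  filter_upwards [h4, h5] with s hs hs5
  have ht : φ (γ s) ∈ φ.target := φ.map_source hs
  have hleft : φ.symm (φ (γ s)) = γ s := φ.left_inv hs
  rw [div_eq_iff hs5, fderiv_chart hg p ht, fderiv_chart hh p ht, ← hφ, hleft, hl s]
  rfl

/-- A curve with zero velocity is constant. -/
lemma const_of_velocity_zero {γ : ℝ → M}
    (hγ : ∀ s, HasMFDerivAt 𝓘(ℝ, ℝ) I γ s ((1 : ℝ →L[ℝ] ℝ).smulRight (0 : E))) (s : ℝ) :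
    γ s = γ 0 := by
  have hc : Continuous γ := continuous_iff_continuousAt.2 fun s => (hγ s).continuousAt
  have hloc : IsLocallyConstant γ := by
    rw [IsLocallyConstant.iff_eventually_eq]
    intro s₀
    set φ := extChartAt I (γ s₀) with hφ
    obtain ⟨ε, hε, hball⟩ := Metric.eventually_nhds_iff_ball.1 (hc.continuousAt.eventually
      ((isOpen_extChartAt_source (I := I) (γ s₀)).mem_nhds (mem_extChartAt_source (γ s₀))))
    have hder : ∀ t ∈ Metric.ball s₀ ε, HasDerivAt (fun t => φ (γ t)) 0 t := by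
      intro t ht
      have h1 : MDifferentiableAt I 𝓘(ℝ, E) φ (γ t) :=
        mdifferentiableAt_extChartAt (by
          have := hball t ht
          rwa [extChartAt_source] at this)
      have h2 := HasMFDerivAt.comp t h1.hasMFDerivAt (hγ t)
      have h3 : HasFDerivAt (fun t => φ (γ t)) (show ℝ →L[ℝ] E from
          (mfderiv I 𝓘(ℝ, E) φ (γ t)).comp ((1 : ℝ →L[ℝ] ℝ).smulRight (0 : E))) t :=
        hasMFDerivAt_iff_hasFDerivAt.1 h2
      refine h3.hasDerivAt.congr_deriv ?_
      show (mfderiv I 𝓘(ℝ, E) φ (γ t)) ((1:ℝ) • (0:E)) = 0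
      rw [smul_zero]
      exact map_zero _
    filter_upwards [Metric.ball_mem_nhds s₀ hε] with t ht
    have hconst : φ (γ t) = φ (γ s₀) := by
      have hconv : Convex ℝ (Metric.ball s₀ ε) := convex_ball s₀ ε
      exact hconv.is_const_of_fderivWithin_eq_zero (𝕜 := ℝ) (f := fun t => φ (γ t))
        (fun y hy => (hder y hy).differentiableAt.differentiableWithinAt)
        (fun y hy => by
          have h1 := (hder y hy).hasFDerivAt.hasFDerivWithinAt (s := Metric.ball s₀ ε)
          have h2 := h1.fderivWithin (Metric.isOpen_ball.uniqueDiffWithinAt hy)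
          rw [h2]
          ext
          simp) ht (Metric.mem_ball_self hε)
    have h1 : φ.symm (φ (γ t)) = φ.symm (φ (γ s₀)) := by rw [hconst]
    rw [φ.left_inv (hball t ht), φ.left_inv (mem_extChartAt_source _)] at h1
    exact h1
  exact hloc.apply_eq_of_isPreconnected isPreconnected_univ (mem_univ s) (mem_univ 0)

end Pool.Agent.J4.H27.Wn
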