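import Mathlib
import Pool.Agent.J4.H27.Wn.OnePar
import Pool.Agent.J4.H27.Wn.TimeChange

/-! Periodic orbits of Hamiltonians which are compatible with a momentum map. -/

open scoped Topology ContDiff Manifold
open Set Filter

noncomputable section

namespace Pool.Agent.J4.H27.Wn

set_option linter.unusedSectionVars false

namespace OneParam

variable {Γ : Type*} [Group Γ] [TopologicalSpace Γ]

@[ext] lemma ext' {X Y : OneParam Γ} (h : ∀ s, X s = Y s) : X = Y := by
  cases X; cases Y
  congr
  exact funext h

@[simp] lemma zero (X : OneParam Γ) : X 0 = 1 := by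
  have h := X.add 0 0
  rw [add_zero] at h
  exact (mul_eq_left.1 h.symm)

lemma comm (X : OneParam Γ) (s t : ℝ) : X s * X t = X t * X s := by
  rw [← X.add, add_comm, X.add]

lemma neg (X : OneParam Γ) (s : ℝ) : X (-s) = (X s)⁻¹ := by
  rw [eq_inv_iff_mul_eq_one, ← X.add, neg_add_cancel, X.zero]

variable [IsTopologicalGroup Γ]

lemma conj_apply (g : Γ) (X : OneParam Γ) (s : ℝ) : X.conj g s = g * X s * g⁻¹ := rfl

lemma conj_conj (g h : Γ) (X : OneParam Γ) : (X.conj h).conj g = X.conj (g * h) := by
  ext s
  simp only [conj_apply]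
  group

lemma conj_self (X : OneParam Γ) (s : ℝ) : X.conj (X s) = X := by
  ext t
  rw [conj_apply, X.comm s t, mul_inv_cancel_right]

end OneParam

universe u

variable {E : Type u} [NormedAddCommGroup E] [NormedSpace ℝ E] [FiniteDimensional ℝ E]
  {K : Type*} [TopologicalSpace K] {I : ModelWithCorners ℝ E K} [I.Boundaryless]
  {M : Type*} [TopologicalSpace M] [ChartedSpace K M] [IsManifold I ∞ M]
  {w : M → E →L[ℝ] E →L[ℝ] ℝ}
  {Γ : Type*} [Group Γ] [TopologicalSpace Γ] [IsTopologicalGroup Γ] [MulAction Γ M]
  {J : OneParam Γ → M → ℝ}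

lemma IsMomentum.conj_smul (hJ : IsMomentum I w J) (g h : Γ) (X : OneParam Γ) (p : M) :
    J (X.conj g) (h • p) = J (X.conj (h⁻¹ * g)) p := by
  have h1 := hJ.equivariant h⁻¹ (X.conj g) (h • p)
  rw [inv_smul_smul, OneParam.conj_conj] at h1
  exact h1.symm

lemma IsMomentum.self (hJ : IsMomentum I w J) (X : OneParam Γ) (s : ℝ) (p : M) :
    J X (X s • p) = J X p := by
  have h1 := hJ.equivariant (X s) X p
  rwa [OneParam.conj_self] at h1

/-- velocities -/
lemma IsMomentum.vel (hJ : IsMomentum I w J) (X : OneParam Γ) (q : M) :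
    ∃ v : E, (∀ u, w q v u = - dif I (J X) q u) ∧ ∀ f : M → ℝ, Sm I f →
      HasDerivAt (fun r => f (X r • q)) (dif I f q v) 0 := by
  obtain ⟨v, hv, hw⟩ := hJ.flow X q 0
  have h0 : X 0 • q = q := by rw [OneParam.zero, one_smul]
  refine ⟨v, fun u => ?_, fun f hf => ?_⟩
  · have h1 := hw u
    simp only [h0] at h1
    exact h1
  · have h1 := hasDerivAt_along hv hf
    simp only [h0] at h1
    exact h1

/-- The circle through a critical point preserves the momentum infinitesimally. -/
lemma IsMomentum.deriv_zero (hJ : IsMomentum I w J) (halt : ∀ x v, w x v v = 0)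
    {b : OneParam Γ} {q : M}
    (hcrit : ∀ Y : OneParam Γ, deriv (fun r => J b (Y r • q)) 0 = 0) (Y : OneParam Γ) :
    deriv (fun r => J Y (b r • q)) 0 = 0 := by
  have hanti : ∀ x u v, w x u v = - w x v u := by
    intro x u v
    have h := halt x (u + v)
    simp only [map_add, add_apply, halt, zero_add, add_zero] at h
    linarith
  obtain ⟨vb, hb, hbd⟩ := hJ.vel b q
  obtain ⟨vY, hY, hYd⟩ := hJ.vel Y q
  have h1 := hcrit Y
  rw [(hYd (J b) (hJ.smooth b)).deriv] at h1
  rw [(hbd (J Y) (hJ.smooth Y)).deriv]
  have h2 := hb vY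
  have h3 := hY vb
  rw [hanti] at h3
  rw [h1] at h2
  linarith

/-- The main step: an extremal pair which is not fixed gives a periodic orbit. -/
theorem periodic_of_extremal (halt : ∀ x v, w x v v = 0)
    (hnd : ∀ x v, (∀ u, w x v u = 0) → v = 0)
    (hJ : IsMomentum I w J) (hsm : ∀ g : Γ, ContMDiff I I ∞ (fun p : M => g • p))
    {H : M → ℝ} (hH : Sm I H)
    (hinv : ∀ (q : M) (X : OneParam Γ), (∀ Y : OneParam Γ, deriv (fun r => J Y (X r • q)) 0 = 0) →
      deriv (fun r => H (X r • q)) 0 = 0)
    {c : ℝ} (hreg : ∀ q, H q = c → dif I H q ≠ 0)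
    {b : OneParam Γ} (hb1 : ∀ q : M, b 1 • q = q) {p : M} (hp : H p = c)
    (hext : (∀ (g : Γ) (q : M), H q = c → J (b.conj g) q ≤ J b p) ∨
      (∀ (g : Γ) (q : M), H q = c → J b p ≤ J (b.conj g) q))
    (hmove : ∃ s, b s • p ≠ p) :
    ∃ x : ℝ → M, IsPeriodicIn I w H {q | H q = c} x ∧ range x = range (fun s => b s • p) := by
  -- the curve and its velocities
  have hflow := hJ.flow b p
  choose v hv hvw using hflow
  set γ : ℝ → M := fun s => b s • p with hγ
  have hγc : Continuous γ := continuous_iff_continuousAt.2 fun s => (hv s).continuousAt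
  have hshift : ∀ s r, b r • γ s = γ (r + s) := by
    intro s r
    simp only [hγ]
    rw [b.add, mul_smul]
  have hJγ : ∀ s, J b (γ s) = J b p := fun s => hJ.self b s p
  -- critical in the direction of the group
  have hcrit : ∀ (s : ℝ) (Y : OneParam Γ), deriv (fun r => J b (Y r • γ s)) 0 = 0 := by
    intro s Y
    have key : ∀ r, J b (Y r • γ s) = J (b.conj ((Y r * b s)⁻¹)) p := by
      intro r
      have h1 := hJ.conj_smul 1 (Y r * b s) b p
      have h2 : b.conj 1 = b := by
        ext t
        simp [OneParam.conj_apply]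
      rw [h2, mul_one, mul_smul] at h1
      exact h1
    have h0 : J b (Y 0 • γ s) = J b p := by
      rw [OneParam.zero, one_smul, hJγ]
    rcases hext with hext | hext
    · refine IsLocalMax.deriv_eq_zero (Filter.Eventually.of_forall fun r => ?_)
      show J b (Y r • γ s) ≤ J b (Y 0 • γ s)
      rw [h0, key]
      exact hext _ _ hp
    · refine IsLocalMin.deriv_eq_zero (Filter.Eventually.of_forall fun r => ?_)
      show J b (Y 0 • γ s) ≤ J b (Y r • γ s)
      rw [h0, key]
      exact hext _ _ hp
  -- `H` is constant along the curve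
  have hHγ : ∀ s, H (γ s) = c := by
    have hd : ∀ s, HasDerivAt (fun s => H (γ s)) 0 s := by
      intro s
      have h1 := hasDerivAt_along (hv s) hH
      have h2 := hinv (γ s) b (fun Y => hJ.deriv_zero halt (hcrit s) Y)
      have h3 : (fun r => H (b r • γ s)) = fun r => H (γ (r + s)) := by
        funext r
        rw [hshift]
      rw [h3] at h2
      have h4 : HasDerivAt (fun r => H (γ (r + s))) (dif I H (γ s) (v s)) 0 := by
        have h5 : HasDerivAt (fun s => H (γ s)) (dif I H (γ s) (v s)) (0 + s) := by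
          rw [zero_add]; exact h1
        exact h5.comp_add_const 0 s
      rw [h4.deriv] at h2
      rw [h2] at h1
      exact h1
    intro s
    have h1 := is_const_of_deriv_eq_zero (f := fun s => H (γ s))
      (fun s => (hd s).differentiableAt) (fun s => (hd s).deriv) s 0
    rw [h1]
    simp only [hγ]
    rw [OneParam.zero, one_smul]
    exact hp
  -- multipliers
  have hmult : ∀ s, ∃ l : ℝ, dif I (J b) (γ s) = l • dif I H (γ s) := by
    intro s
    have hb2 : b.conj 1 = b := by
      ext t
      simp [OneParam.conj_apply]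
    have h1 : IsLocalExtrOn (J b) {q | H q = H (γ s)} (γ s) := by
      rcases hext with hext | hext
      · right
        filter_upwards [self_mem_nhdsWithin] with q hq
        have h2 := hext 1 q (by rw [← hHγ s]; exact hq)
        rw [hb2] at h2
        show J b q ≤ J b (γ s)
        rw [hJγ]
        exact h2
      · left
        filter_upwards [self_mem_nhdsWithin] with q hq
        have h2 := hext 1 q (by rw [← hHγ s]; exact hq)
        rw [hb2] at h2
        show J b (γ s) ≤ J b q
        rw [hJγ]
        exact h2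
    obtain ⟨A, B, hAB, h2⟩ := lagrange hH (hJ.smooth b) h1
    have hB : B ≠ 0 := by
      rintro rfl
      have hA : A ≠ 0 := fun h => hAB (by rw [h]; rfl)
      apply hreg (γ s) (hHγ s)
      ext u
      have h3 := h2 u
      rw [zero_mul, add_zero] at h3
      exact (mul_eq_zero.1 h3).resolve_left hA
    refine ⟨-(A / B), ?_⟩
    ext u
    have h3 := h2 u
    rw [smul_apply, smul_eq_mul]
    field_simp
    linarith
  choose l hl using hmult
  -- the velocity does not vanish
  have htrans : ∀ (r : ℝ) (x : M), dif I (J b) (b r • x) = 0 → dif I (J b) x = 0 := by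
    intro r x h
    have h1 : (fun y : M => J b (b r • y)) = J b := by
      funext y
      exact hJ.self b r y
    have h2 : MDifferentiableAt I 𝓘(ℝ, ℝ) (J b) (b r • x) :=
      (hJ.smooth b).mdifferentiableAt (by simp)
    have h3 : MDifferentiableAt I I (fun y : M => b r • y) x :=
      (hsm (b r)).mdifferentiableAt (by simp)
    have h4 := mfderiv_comp x h2 h3
    have h5 : mfderiv I 𝓘(ℝ, ℝ) (J b) x =
        (mfderiv I 𝓘(ℝ, ℝ) (J b) (b r • x)).comp (mfderiv I I (fun y : M => b r • y) x) := by
      rw [← h4]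
      congr 1
      exact h1.symm
    have h6 : dif I (J b) x = (dif I (J b) (b r • x)).comp
      (show E →L[ℝ] E from mfderiv I I (fun y : M => b r • y) x) := h5
    rw [h6, h, ContinuousLinearMap.zero_comp]
  have hne : ∀ s, dif I (J b) (γ s) ≠ 0 := by
    intro s hs
    have hall : ∀ t, dif I (J b) (γ t) = 0 := by
      intro t
      apply htrans (s - t)
      rw [hshift, sub_add_cancel]
      exact hs
    have hv0 : ∀ t, v t = 0 := by
      intro t
      apply hnd (γ t)
      intro u
      rw [hvw t u, hall t]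
      simp
    obtain ⟨t, ht⟩ := hmove
    apply ht
    have h1 := const_of_velocity_zero (I := I) (γ := γ) (fun s => by
      have h2 := hv s
      rw [hv0 s] at h2
      exact h2) t
    simp only [hγ] at h1
    rw [h1, OneParam.zero, one_smul]
  have hlne : ∀ s, l s ≠ 0 := by
    intro s hs
    apply hne s
    rw [hl s, hs, zero_smul]
  have hper : ∀ s, γ (s + 1) = γ s := by
    intro s
    simp only [hγ]
    rw [b.add, mul_smul, hb1]
  have hlc : Continuous l := multiplier_continuous hH (hJ.smooth b) hγc
    (fun s => hreg _ (hHγ s)) hl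
  have hlper : ∀ s, l (s + 1) = l s := by
    intro s
    have h1 := hl (s + 1)
    rw [hper s, hl s] at h1
    obtain ⟨u, hu⟩ : ∃ u, dif I H (γ s) u ≠ 0 := by
      by_contra hcon
      push Not at hcon
      exact hreg _ (hHγ s) (ContinuousLinearMap.ext hcon)
    have h2 := DFunLike.congr_fun h1 u
    rw [smul_apply, smul_apply, smul_eq_mul, smul_eq_mul] at h2
    exact (mul_right_cancel₀ hu h2).symm
  obtain ⟨x, hx1, hx2, hx3⟩ := time_change (w := w) (h := H) hv hper hlc hlne hlper (by
    intro s u
    rw [hvw s u, hl s]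
    rfl)
  refine ⟨x, ⟨hx1, hx2, fun t => ?_⟩, hx3⟩
  have h1 : x t ∈ range γ := by rw [← hx3]; exact ⟨t, rfl⟩
  obtain ⟨s, hs⟩ := h1
  show H (x t) = c
  rw [← hs]
  exact hHγ s

end Pool.Agent.J4.H27.Wn
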