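import Mathlib
import Pool.Agent.J4.H27.Wn.Momentum

/-! Orbits of non-conjugate circles are different if the stabilizers are finite. -/

open scoped Topology ContDiff Manifold
open Set Filter

noncomputable section

namespace Pool.Agent.J4.H27.Wn

lemma real_subgroup_top {S : Type*} [Finite S] (L : AddSubgroup ℝ) (σ : ℝ → S)
    (h : ∀ s t, σ s = σ t → s - t ∈ L) : L = ⊤ := by
  have hinj : Function.Injective (fun q : ℝ ⧸ L => σ (Quotient.out q)) := by
    intro q q' hq
    have h1 := h _ _ hq
    have h2 : q = ((Quotient.out q : ℝ) : ℝ ⧸ L) := (QuotientAddGroup.out_eq' q).symm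
    have h3 : q' = ((Quotient.out q' : ℝ) : ℝ ⧸ L) := (QuotientAddGroup.out_eq' q').symm
    rw [h2, h3]
    rw [QuotientAddGroup.eq]
    have h4 := L.neg_mem h1
    rwa [neg_sub, sub_eq_neg_add] at h4
  have hfin : Finite (ℝ ⧸ L) := Finite.of_injective _ hinj
  have hidx : L.index ≠ 0 := by
    rw [AddSubgroup.index]
    exact Nat.card_pos.ne'
  rw [eq_top_iff]
  intro s _
  have h1 : L.index • (s / L.index) ∈ L := AddSubgroup.nsmul_index_mem L _
  rw [nsmul_eq_mul, mul_div_cancel₀] at h1
  · exact h1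
  · exact_mod_cast hidx

variable {Γ : Type*} [Group Γ] [TopologicalSpace Γ]

lemma OneParam.sub (X : OneParam Γ) (s t : ℝ) : X (s - t) = X s * (X t)⁻¹ := by
  rw [sub_eq_add_neg, X.add, X.neg]

lemma OneParam.eq_one_of_finite (X : OneParam Γ) (S : Set Γ) (hS : S.Finite)
    (h : ∀ s, X s ∈ S) (s : ℝ) : X s = 1 := by
  have : Finite S := hS
  let L : AddSubgroup ℝ :=
    { carrier := {s | X s = 1}
      zero_mem' := X.zero
      add_mem' := by
        intro a b ha hb
        show X (a + b) = 1
        rw [X.add, show X a = 1 from ha, show X b = 1 from hb, one_mul]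
      neg_mem' := by
        intro a ha
        show X (-a) = 1
        rw [X.neg, show X a = 1 from ha, inv_one] }
  have h1 := real_subgroup_top L (fun s => (⟨X s, h s⟩ : S)) (by
    intro s t hst
    have h2 : X s = X t := congrArg Subtype.val hst
    show X (s - t) = 1
    rw [X.sub, h2, mul_inv_cancel])
  have h2 : s ∈ L := by rw [h1]; trivial
  exact h2

variable {M : Type*} [MulAction Γ M]

lemma range_le_of_orbit_le (X Y : OneParam Γ) (p : M)
    (hfin : (MulAction.stabilizer Γ p : Set Γ).Finite)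
    (h : ∀ s, ∃ t, X s • p = Y t • p) : range X ⊆ range Y := by
  have : Finite (MulAction.stabilizer Γ p : Set Γ) := hfin
  let L : AddSubgroup ℝ :=
    { carrier := {s | X s ∈ range Y}
      zero_mem' := ⟨0, by rw [X.zero, Y.zero]⟩
      add_mem' := by
        rintro a b ⟨s, hs⟩ ⟨t, ht⟩
        exact ⟨s + t, by rw [X.add, Y.add, hs, ht]⟩
      neg_mem' := by
        rintro a ⟨s, hs⟩
        exact ⟨-s, by rw [X.neg, Y.neg, hs]⟩ }
  choose t ht using h
  have hst : ∀ s, (Y (t s))⁻¹ * X s ∈ (MulAction.stabilizer Γ p : Set Γ) := by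
    intro s
    show ((Y (t s))⁻¹ * X s) • p = p
    rw [mul_smul, ht, inv_smul_smul]
  have h1 := real_subgroup_top L (fun s => (⟨_, hst s⟩ : (MulAction.stabilizer Γ p : Set Γ))) (by
    intro s s' hss
    have h2 : (Y (t s))⁻¹ * X s = (Y (t s'))⁻¹ * X s' := congrArg Subtype.val hss
    refine ⟨t s - t s', ?_⟩
    rw [X.sub, Y.sub]
    have h3 : X s = Y (t s) * ((Y (t s'))⁻¹ * X s') := by
      rw [← h2, mul_inv_cancel_left]
    rw [h3]
    group)
  rintro _ ⟨s, rfl⟩
  have h2 : s ∈ L := by rw [h1]; trivial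
  exact h2

/-- If the orbits of two one-parameter subgroups through two points are equal and the stabilizers
are finite, then the one-parameter subgroups have the same image. -/
lemma range_eq_of_orbit_eq (X Y : OneParam Γ) (p q : M)
    (hfin : (MulAction.stabilizer Γ p : Set Γ).Finite)
    (h : range (fun s => X s • p) = range (fun s => Y s • q)) : range X = range Y := by
  have hp : p ∈ range (fun s => Y s • q) := by
    rw [← h]
    exact ⟨0, by show X 0 • p = p; rw [X.zero, one_smul]⟩
  obtain ⟨t₀, ht₀⟩ := hp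
  have hq : ∀ s, Y s • q = Y (s - t₀) • p := by
    intro s
    rw [← ht₀]
    show _ = Y (s - t₀) • Y t₀ • q
    rw [smul_smul, ← Y.add, sub_add_cancel]
  apply Subset.antisymm
  · apply range_le_of_orbit_le X Y p hfin
    intro s
    have h1 : X s • p ∈ range (fun s => Y s • q) := by rw [← h]; exact ⟨s, rfl⟩
    obtain ⟨t, ht⟩ := h1
    exact ⟨t - t₀, by rw [← hq]; exact ht.symm⟩
  · apply range_le_of_orbit_le Y X p hfin
    intro s
    have h1 : Y (s + t₀) • q ∈ range (fun s => X s • p) := by rw [h]; exact ⟨s + t₀, rfl⟩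
    obtain ⟨t, ht⟩ := h1
    refine ⟨t, ?_⟩
    have h2 := hq (s + t₀)
    rw [add_sub_cancel_right] at h2
    rw [← h2]
    exact ht.symm

end Pool.Agent.J4.H27.Wn
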